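import Pool.Agent.Helper82.EC.StA

/-!
# MP_47b98d_co : module A-Card, the number of missing colours
-/

set_option autoImplicit false

open Finset
open scoped Classical

namespace Pool.Agent.Helper82.EC

open MGraph

/-- The coloured edges at a vertex are in bijection with the colours seen at the vertex. -/
theorem card_miss_add_coloured {V E : Type} [Fintype V] [Fintype E] {G : MGraph V E} {D : ℕ}
    {φ : E → Option (Fin D)} (hφ : G.Proper φ) (v : V) :
    (G.miss φ v).card + ((G.inc v).filter fun f => φ f ≠ none).card = D := by
  have h1 : ((G.inc v).filter fun f => φ f ≠ none).image φ =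
      ((univ : Finset (Fin D)) \ G.miss φ v).image some := by
    ext o
    simp only [Finset.mem_image, Finset.mem_filter, Finset.mem_sdiff, Finset.mem_univ, true_and,
      mem_inc, mem_miss]
    constructor
    · rintro ⟨f, ⟨hf, hfn⟩, rfl⟩
      obtain ⟨c, hc⟩ := Option.ne_none_iff_exists'.mp hfn
      exact ⟨c, fun h => h f hf hc, hc.symm⟩
    · rintro ⟨c, hc, rfl⟩
      unfold Miss at hc
      push Not at hc
      obtain ⟨f, hf, hfc⟩ := hc
      exact ⟨f, ⟨hf, by rw [hfc]; simp⟩, hfc⟩
  have h2 : (((G.inc v).filter fun f => φ f ≠ none).image φ).card =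
      ((G.inc v).filter fun f => φ f ≠ none).card := by
    apply Finset.card_image_of_injOn
    intro f hf g hg hfg
    simp only [Finset.coe_filter, mem_inc, Set.mem_ofPred_eq] at hf hg
    obtain ⟨c, hc⟩ := Option.ne_none_iff_exists'.mp hf.2
    have hfg' : φ f = φ g := hfg
    exact hφ f g v c hf.1 hg.1 hc (by rw [← hfg', hc])
  have h3 : (((univ : Finset (Fin D)) \ G.miss φ v).image some).card =
      ((univ : Finset (Fin D)) \ G.miss φ v).card :=
    Finset.card_image_of_injective _ (Option.some_injective _)
  have h4 : ((univ : Finset (Fin D)) \ G.miss φ v).card + (G.miss φ v).card = D := by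
    rw [Finset.card_sdiff_add_card_eq_card (Finset.subset_univ _), Finset.card_univ,
      Fintype.card_fin]
  rw [h1, h3] at h2
  omega

theorem stCard : StCard := by
  intro V E _ _ G D φ e x y h
  have hcol : ∀ v, e ∈ G.inc v →
      ((G.inc v).filter fun f => φ f ≠ none).card + 1 = G.deg v := by
    intro v hv
    have h1 : (G.inc v).filter (fun f => φ f ≠ none) = (G.inc v).erase e := by
      ext f
      simp only [Finset.mem_filter, Finset.mem_erase]
      constructor
      · rintro ⟨hf, hfn⟩
        exact ⟨fun h' => hfn (by rw [h', h.unc]), hf⟩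
      · rintro ⟨hfe, hf⟩
        exact ⟨hf, h.col f hfe⟩
    rw [h1, Finset.card_erase_add_one hv]
    rfl
  have hx : e ∈ G.inc x := mem_inc.mpr (mem_ends_left h.ends_eq)
  have hy : e ∈ G.inc y := mem_inc.mpr (mem_ends_right h.ends_eq)
  refine ⟨?_, ?_, ?_⟩
  · have h1 := hcol x hx
    have h2 := card_miss_add_coloured h.proper x
    omega
  · have h1 := hcol y hy
    have h2 := card_miss_add_coloured h.proper y
    omega
  · intro v hvx hvy
    have h1 : (G.inc v).filter (fun f => φ f ≠ none) = G.inc v := by
      apply Finset.filter_true_of_mem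
      intro f hf
      apply h.col f
      rintro rfl
      have := (mem_ends_iff h.ends_eq).mp (mem_inc.mp hf)
      tauto
    have h2 := card_miss_add_coloured h.proper v
    rw [h1] at h2
    exact h2

end Pool.Agent.Helper82.EC
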