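import Pool.Agent.Helper82.EC.StA

/-! Module A-End: three vertices of one Kempe component cannot all be end vertices. -/

set_option autoImplicit false

open Finset
open scoped Classical

namespace Pool.Agent.Helper82.EC

open MGraph

/-- neighbours along the colour `c` -/
theorem nb_subsingleton {V E : Type} {G : MGraph V E} {D : ℕ} {φ : E → Option (Fin D)}
    (h : G.Proper φ) (v : V) (c : Fin D) :
    {u | ∃ e, G.ends e = s(v, u) ∧ φ e = some c}.Subsingleton := by
  rintro u ⟨e, he, hc⟩ u' ⟨e', he', hc'⟩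
  have h1 : e = e' := h e e' v c (mem_ends_left he) (mem_ends_left he') hc hc'
  subst h1
  rw [he] at he'
  exact Sym2.congr_right.mp he'

theorem deg_KG_le {V E : Type} [Fintype V] {G : MGraph V E} {D : ℕ} {φ : E → Option (Fin D)}
    (h : G.Proper φ) (a b : Fin D) (v : V) :
    (univ.filter fun u => (G.KG φ a b).Adj v u).card ≤
      (if G.Miss φ v a then 0 else 1) + (if G.Miss φ v b then 0 else 1) := by
  have key : ∀ c : Fin D, (univ.filter fun u => ∃ e, G.ends e = s(v, u) ∧ φ e = some c).card ≤
      if G.Miss φ v c then 0 else 1 := by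
    intro c
    split_ifs with hm
    · rw [Nat.le_zero, Finset.card_eq_zero, Finset.filter_eq_empty_iff]
      rintro u _ ⟨e, he, hc⟩
      exact hm e (mem_ends_left he) hc
    · rw [Finset.card_le_one]
      intro u hu u' hu'
      rw [Finset.mem_filter] at hu hu'
      exact nb_subsingleton h v c hu.2 hu'.2
  refine le_trans (Finset.card_le_card ?_) (le_trans (Finset.card_union_le
    (univ.filter fun u => ∃ e, G.ends e = s(v, u) ∧ φ e = some a)
    (univ.filter fun u => ∃ e, G.ends e = s(v, u) ∧ φ e = some b)) (Nat.add_le_add (key a) (key b)))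
  intro u hu
  rw [Finset.mem_filter] at hu
  obtain ⟨-, -, e, he, hc | hc⟩ := hu
  · exact Finset.mem_union_left _ (Finset.mem_filter.mpr ⟨Finset.mem_univ _, e, he, hc⟩)
  · exact Finset.mem_union_right _ (Finset.mem_filter.mpr ⟨Finset.mem_univ _, e, he, hc⟩)

theorem stEnd : StEnd := by
  intro V E _ G D φ a b hφ u₁ u₂ u₃ h12 h13 h23 r12 r13 m1 m2 m3
  set H := G.KG φ a b with hH
  set C := H.connectedComponentMk u₁ with hC
  have hconn := C.connected_toSimpleGraph
  have i1 : u₁ ∈ C := SimpleGraph.ConnectedComponent.connectedComponentMk_mem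
  have i2 : u₂ ∈ C := (SimpleGraph.ConnectedComponent.mem_supp_iff _ _).mpr
    (SimpleGraph.ConnectedComponent.sound r12.symm)
  have i3 : u₃ ∈ C := (SimpleGraph.ConnectedComponent.mem_supp_iff _ _).mpr
    (SimpleGraph.ConnectedComponent.sound r13.symm)
  have hE := hconn.card_vert_le_card_edgeSet_add_one
  have hS := C.toSimpleGraph.sum_degrees_eq_twice_card_edges
  have hcardE : Nat.card C.toSimpleGraph.edgeSet = C.toSimpleGraph.edgeFinset.card := by
    rw [SimpleGraph.edgeFinset_card, Nat.card_eq_fintype_card]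
  rw [hcardE, Nat.card_eq_fintype_card] at hE
  -- degrees
  have hdeg : ∀ v : C, C.toSimpleGraph.degree v ≤
      (if G.Miss φ v a then 0 else 1) + (if G.Miss φ v b then 0 else 1) := by
    intro v
    refine le_trans ?_ (deg_KG_le hφ a b v)
    rw [← SimpleGraph.card_neighborFinset_eq_degree]
    refine Finset.card_le_card_of_injOn (fun w => (w : V)) ?_ ?_
    · intro w hw
      rw [Finset.mem_coe, SimpleGraph.mem_neighborFinset] at hw
      rw [Finset.mem_coe, Finset.mem_filter]
      exact ⟨Finset.mem_univ _, (C.toSimpleGraph_adj v.2 w.2).mp hw⟩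
    · intro w _ w' _ hww
      exact Subtype.ext hww
  have hle2 : ∀ v : C, C.toSimpleGraph.degree v ≤ 2 := by
    intro v
    refine (hdeg v).trans ?_
    split_ifs <;> omega
  have hle1 : ∀ v : C, (G.Miss φ v a ∨ G.Miss φ v b) → C.toSimpleGraph.degree v ≤ 1 := by
    intro v hv
    refine (hdeg v).trans ?_
    rcases hv with hv | hv
    · rw [if_pos hv]; split_ifs <;> omega
    · rw [if_pos hv]; split_ifs <;> omega
  -- the sum
  have hsum : ∑ v, C.toSimpleGraph.degree v + 3 ≤ 2 * Fintype.card C := by
    have h1 : ∀ v : C, C.toSimpleGraph.degree v +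
        (if v ∈ ({⟨u₁, i1⟩, ⟨u₂, i2⟩, ⟨u₃, i3⟩} : Finset C) then 1 else 0) ≤ 2 := by
      intro v
      split_ifs with hv
      · have : C.toSimpleGraph.degree v ≤ 1 := by
          apply hle1
          simp only [Finset.mem_insert, Finset.mem_singleton] at hv
          rcases hv with rfl | rfl | rfl
          · exact m1
          · exact m2
          · exact m3
        omega
      · have := hle2 v
        omega
    have h2 : ∑ v : C, (C.toSimpleGraph.degree v +
        (if v ∈ ({⟨u₁, i1⟩, ⟨u₂, i2⟩, ⟨u₃, i3⟩} : Finset C) then 1 else 0)) ≤ ∑ _v : C, 2 :=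
      Finset.sum_le_sum (fun v _ => h1 v)
    rw [Finset.sum_add_distrib, Finset.sum_boole, Finset.sum_const, Finset.card_univ,
      smul_eq_mul] at h2
    have h3 : ((Finset.univ : Finset C).filter (fun v =>
        v ∈ ({⟨u₁, i1⟩, ⟨u₂, i2⟩, ⟨u₃, i3⟩} : Finset C))).card = 3 := by
      rw [Finset.filter_mem_eq_inter, Finset.univ_inter]
      rw [Finset.card_eq_three]
      refine ⟨⟨u₁, i1⟩, ⟨u₂, i2⟩, ⟨u₃, i3⟩, ?_, ?_, ?_, rfl⟩
      · intro h; exact h12 (congrArg Subtype.val h)
      · intro h; exact h13 (congrArg Subtype.val h)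
      · intro h; exact h23 (congrArg Subtype.val h)
    rw [h3] at h2
    simp only [Nat.cast_ofNat] at h2
    omega
  omega

end Pool.Agent.Helper82.EC
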