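import Pool.Agent.Helper82.EC.StA

/-! # EC: first neighbours in the fan -/

set_option autoImplicit false

open Finset
open scoped Classical

namespace Pool.Agent.Helper82.EC

open MGraph

theorem stFL : StFL := by
  intro V E _ G D φ e x y h β f v hxβ hf hfβ c α hvc hyα
  have hvf : v ∈ G.ends f := mem_ends_right hf
  have hyf : y ∈ G.ends f := mem_ends_left hf
  have hef : f ≠ e := by
    intro h'; rw [h', h.unc] at hfβ; simp at hfβ
  have hvx : v ≠ x := by
    intro h'; exact hxβ f (h' ▸ hvf) hfβ
  have hvy : v ≠ y := (ne_of_ends hf).symm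
  have hβc : β ≠ c := by
    intro h'; exact hvc f hvf (h' ▸ hfβ)
  have hβα : β ≠ α := by
    intro h'; exact hyα f hyf (h' ▸ hfβ)
  have hS := h.shift hf hfβ hxβ
  have hve : v ∉ G.ends e := by
    rw [mem_ends_iff h.ends_eq]; rintro (h' | h')
    · exact hvx h'
    · exact hvy h'
  have h1 : G.Miss (Function.update (Function.update φ f none) e (some β)) v c :=
    (hvc.update (by simp)).update (by simpa using hβc)
  have h2 : G.Miss (Function.update (Function.update φ f none) e (some β)) y α :=
    (hyα.update (by simp)).update (by simpa using hβα)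
  have h3 := hS.link h2 h1
  have h4 : G.KG (Function.update (Function.update φ f none) e (some β)) α c = G.KG φ α c := by
    ext u w
    constructor
    · rintro ⟨huw, g, hg, hc⟩
      refine ⟨huw, g, hg, ?_⟩
      by_cases hge : g = e
      · rw [hge, Function.update_self] at hc
        rcases hc with hc | hc
        · exact absurd (Option.some_injective _ hc) hβα
        · exact absurd (Option.some_injective _ hc) hβc
      · rw [Function.update_of_ne hge] at hc
        by_cases hgf : g = f
        · rw [hgf, Function.update_self] at hc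
          rcases hc with hc | hc <;> simp at hc
        · rw [Function.update_of_ne hgf] at hc; exact hc
    · rintro ⟨huw, g, hg, hc⟩
      refine ⟨huw, g, hg, ?_⟩
      have hge : g ≠ e := by
        intro h'; rw [h', h.unc] at hc; rcases hc with hc | hc <;> simp at hc
      have hgf : g ≠ f := by
        intro h'; rw [h', hfβ] at hc
        rcases hc with hc | hc
        · exact hβα (Option.some_injective _ hc)
        · exact hβc (Option.some_injective _ hc)
      rw [Function.update_of_ne hge, Function.update_of_ne hgf]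
      exact hc
  rw [h4] at h3
  exact h3.symm

theorem exists_miss_y (hCard : StCard) {V E : Type} [Fintype V] [Fintype E] {G : MGraph V E}
    {D : ℕ} {φ : E → Option (Fin D)} {e : E} {x y : V} (h : G.Crit D φ e x y)
    (hy : G.deg y ≤ D) : ∃ α, G.Miss φ y α := by
  have h1 := (hCard V E G D φ e x y h).2.1
  have h2 : 0 < (G.miss φ y).card := by omega
  obtain ⟨α, hα⟩ := card_pos.mp h2
  exact ⟨α, mem_miss.mp hα⟩

theorem stF1 (hEnd : StEnd) (hCard : StCard) : StF1 := by
  intro V E _ _ G D φ e x y h hdy β f v hxβ hf hfβ c hvc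
  have key : ∀ (ψ : E → Option (Fin D)), G.Crit D ψ e x y → G.Miss ψ x β → ψ f = some β →
      ∀ c, G.Miss ψ v c → ¬ G.Miss ψ y c := by
    intro ψ hψ hx hfψ c hc hy
    have hvf : v ∈ G.ends f := mem_ends_right hf
    have hβc : β ≠ c := by
      intro h'; exact hc f hvf (h' ▸ hfψ)
    exact (hψ.shift hf hfψ hx).disj ((hc.update (by simp)).update (by simpa using hβc))
      ((hy.update (by simp)).update (by simpa using hβc))
  refine ⟨?_, key φ h hxβ hfβ c hvc⟩
  intro hxc
  have hvf : v ∈ G.ends f := mem_ends_right hf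
  have hyf : y ∈ G.ends f := mem_ends_left hf
  have hvx : v ≠ x := by
    intro h'; exact hxβ f (h' ▸ hvf) hfβ
  have hvy : v ≠ y := (ne_of_ends hf).symm
  obtain ⟨α, hα⟩ := exists_miss_y hCard h hdy
  have hβα : β ≠ α := by
    intro h'; exact hα f hyf (h' ▸ hfβ)
  have hβc : β ≠ c := by
    intro h'; exact hvc f hvf (h' ▸ hfβ)
  have hlink := h.link hα hxc
  have hnx : ¬ (G.KG φ α c).Reachable v x := by
    intro hr
    exact hEnd V E G D φ α c h.proper x y v h.ne hvx.symm hvy.symm hlink hr.symm
      (Or.inr hxc) (Or.inl hα) (Or.inr hvc)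
  have hny : ¬ (G.KG φ α c).Reachable v y := fun hr => hnx (hr.trans hlink.symm)
  have h1 : G.Miss (G.swapC φ α c v) x β := (miss_swap_of_not_reach hnx).mpr hxβ
  have h2 : G.swapC φ α c v f = some β := swapC_some hfβ hβα hβc
  have h3 : G.Miss (G.swapC φ α c v) v α := by
    rw [miss_swap_of_reach (SimpleGraph.Reachable.refl v), Equiv.swap_apply_left]
    exact hvc
  have h4 : G.Miss (G.swapC φ α c v) y α := (miss_swap_of_not_reach hny).mpr hα
  exact key _ (h.swap α c v) h1 h2 α h3 h4

theorem stFD (hEnd : StEnd) (hCard : StCard) (hFL : StFL) : StFD := by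
  intro V E _ _ G D φ e x y h hdy β₁ β₂ f₁ f₂ v₁ v₂ hv h1 h2 hf1 hf2 hc1 hc2 c hm1 hm2
  obtain ⟨α, hα⟩ := exists_miss_y hCard h hdy
  have r1 := hFL V E G D φ e x y h β₁ f₁ v₁ h1 hf1 hc1 c α hm1 hα
  have r2 := hFL V E G D φ e x y h β₂ f₂ v₂ h2 hf2 hc2 c α hm2 hα
  exact hEnd V E G D φ α c h.proper y v₁ v₂ (ne_of_ends hf1) (ne_of_ends hf2) hv r1 r2
    (Or.inl hα) (Or.inr hm1) (Or.inr hm2)

end Pool.Agent.Helper82.EC
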