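import Pool.Agent.Helper82.EC.StA

/-!
# MP_47b98d_co : second neighbours in the fan
-/

set_option autoImplicit false

open Finset
open scoped Classical

namespace Pool.Agent.Helper82.EC

open MGraph

/-- a colour missing at `u` is not missing at `y` -/
theorem F2_i {V E : Type} {G : MGraph V E} {D : ℕ} {φ : E → Option (Fin D)} {e : E} {x y : V}
    (h : G.Crit D φ e x y) {β c c' : Fin D} {f g : E} {z u : V} (hβ : G.Miss φ x β)
    (hf : G.ends f = s(y, z)) (hfβ : φ f = some β) (hc : G.Miss φ z c)
    (hg : G.ends g = s(y, u)) (hgc : φ g = some c) (hux : u ≠ x) (huz : u ≠ z)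
    (hu : G.Miss φ u c') (hy : G.Miss φ y c') : False := by
  have hyf : y ∈ G.ends f := mem_ends_left hf
  have hyg : y ∈ G.ends g := mem_ends_left hg
  have hef : e ≠ f := by
    intro h'; rw [← h', h.unc] at hfβ; simp at hfβ
  have heg : e ≠ g := by
    intro h'; rw [← h', h.unc] at hgc; simp at hgc
  have hfg : f ≠ g := by
    intro h'
    apply huz
    rw [h'] at hf
    rw [← opp_eq hf, opp_eq hg]
  have hcβ : c ≠ β := by
    intro h'
    exact hfg (h.proper f g y β hyf hyg hfβ (by rw [hgc, h']))
  have hcc' : c ≠ c' := by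
    intro h'
    exact hu g (mem_ends_right hg) (by rw [hgc, h'])
  have hc'β : c' ≠ β := by
    intro h'
    exact hy f hyf (by rw [hfβ, h'])
  -- uncolour `f` and `g`
  set ψ0 := Function.update (Function.update φ f none) g none with hψ0
  have p0 : G.Proper ψ0 := (h.proper.update_none f).update_none g
  -- colours missing in `φ` are missing in `ψ0`
  have m0 : ∀ (v : V) (b : Fin D), G.Miss φ v b → G.Miss ψ0 v b := fun v b hb =>
    (hb.update (by simp)).update (by simp)
  -- colour `e` with `β`
  have y0 : G.Miss ψ0 y β := (miss_update_none (h.proper.other hfβ hyf)).update (by simp)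
  set ψ1 := Function.update ψ0 e (some β) with hψ1
  have p1 : G.Proper ψ1 := p0.update_miss h.ends_eq (m0 x β hβ) y0
  -- colour `f` with `c`
  have y1 : G.Miss ψ0 y c := by
    have h1 : G.Miss (Function.update φ g none) y c := miss_update_none (h.proper.other hgc hyg)
    rw [hψ0, Function.update_comm hfg]
    exact h1.update (by simp)
  have hβc : (some β : Option (Fin D)) ≠ some c := by
    intro h'; exact hcβ (Option.some_injective _ h').symm
  set ψ2 := Function.update ψ1 f (some c) with hψ2
  have p2 : G.Proper ψ2 := p1.update_miss hf (y1.update hβc) ((m0 z c hc).update hβc)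
  -- colour `g` with `c'`
  have hβc' : (some β : Option (Fin D)) ≠ some c' := by
    intro h'; exact hc'β (Option.some_injective _ h').symm
  have hcc'' : (some c : Option (Fin D)) ≠ some c' := by
    intro h'; exact hcc' (Option.some_injective _ h')
  have p3 : G.Proper (Function.update ψ2 g (some c')) := by
    refine p2.update_miss hg ?_ ?_
    · exact ((m0 y c' hy).update hβc').update hcc''
    · exact ((m0 u c' hu).update hβc').update hcc''
  refine h.absurd p3 fun k => ?_
  by_cases hkg : k = g
  · rw [hkg, Function.update_self]; simp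
  · rw [Function.update_of_ne hkg]
    by_cases hkf : k = f
    · rw [hkf, hψ2, Function.update_self]; simp
    · rw [hψ2, Function.update_of_ne hkf]
      by_cases hke : k = e
      · rw [hke, hψ1, Function.update_self]; simp
      · rw [hψ1, Function.update_of_ne hke, hψ0, Function.update_of_ne hkg,
          Function.update_of_ne hkf]
        exact h.col k hke

/-- second neighbours in the fan -/
theorem stF2 (hEnd : StEnd) (hCard : StCard) (hF1 : StF1) (hFL : StFL) : StF2 := by
  intro V E _ _ G D φ e x y h hy β c f g z u hβ hf hfβ hc hg hgc hux huz c' hc'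
  have hyu : y ≠ u := ne_of_ends hg
  have hyz : y ≠ z := ne_of_ends hf
  obtain ⟨c1, c2, c3⟩ := hCard V E G D φ e x y h
  obtain ⟨α, hα⟩ : (G.miss φ y).Nonempty := by
    rw [← Finset.card_pos]
    omega
  have hαy : G.Miss φ y α := mem_miss.mp hα
  have hF := hF1 V E G D φ e x y h hy β f z hβ hf hfβ
  have hcα : c ≠ α := by
    intro h'
    exact (hF c hc).2 (h' ▸ hαy)
  have hcc' : c ≠ c' := by
    intro h'
    exact hc' g (mem_ends_right hg) (by rw [hgc, h'])
  have hne : z ≠ x := by
    intro h'
    exact (hF c hc).1 (h' ▸ hc)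
  refine ⟨fun hx => ?_, fun hyc => F2_i h hβ hf hfβ hc hg hgc hux huz hc' hyc, fun hz => ?_⟩
  · -- `c'` missing at `x`
    have hlink := h.link hαy hx
    have hnx : ¬ (G.KG φ α c').Reachable u x := by
      intro hr
      exact hEnd V E G D φ α c' h.proper x y u h.ne hux.symm hyu hlink hr.symm (Or.inr hx)
        (Or.inl hαy) (Or.inr hc')
    have hny : ¬ (G.KG φ α c').Reachable u y := fun hr => hnx (hr.trans hlink.symm)
    refine F2_i (h.swap α c' u) (β := β) (c := c) (c' := α) (f := f) (g := g) (z := z) (u := u)
      ?_ hf ?_ ?_ hg ?_ hux huz ?_ ?_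
    · exact (miss_swap_of_not_reach hnx).mpr hβ
    · rw [swapC_of_not_reach (mem_ends_left hf) hny, hfβ]
    · exact (miss_swap_of_ne hcα hcc').mpr hc
    · rw [swapC_of_not_reach (mem_ends_left hg) hny, hgc]
    · rw [miss_swap_of_reach (SimpleGraph.Reachable.refl u), Equiv.swap_apply_left]
      exact hc'
    · exact (miss_swap_of_not_reach hny).mpr hαy
  · -- `c'` missing at `z`
    have hlink := hFL V E G D φ e x y h β f z hβ hf hfβ c' α hz hαy
    have hny : ¬ (G.KG φ α c').Reachable u y := by
      intro hr
      exact hEnd V E G D φ α c' h.proper y z u hyz hyu huz.symm hlink hr.symm (Or.inl hαy)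
        (Or.inr hz) (Or.inr hc')
    have hxα : ¬ G.Miss φ x α := fun hx => h.disj hx hαy
    have hxc' : ¬ G.Miss φ x c' := (hF c' hz).1
    refine F2_i (h.swap α c' u) (β := β) (c := c) (c' := α) (f := f) (g := g) (z := z) (u := u)
      ?_ hf ?_ ?_ hg ?_ hux huz ?_ ?_
    · exact (miss_swap_of_seen hxα hxc').mpr hβ
    · rw [swapC_of_not_reach (mem_ends_left hf) hny, hfβ]
    · exact (miss_swap_of_ne hcα hcc').mpr hc
    · rw [swapC_of_not_reach (mem_ends_left hg) hny, hgc]
    · rw [miss_swap_of_reach (SimpleGraph.Reachable.refl u), Equiv.swap_apply_left]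
      exact hc'
    · exact (miss_swap_of_not_reach hny).mpr hαy

end Pool.Agent.Helper82.EC
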