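import Pool.Agent.Helper82.EC.StA

/-!
# MP_47b98d_co : module A-Fan (counting colours)
-/

set_option autoImplicit false

open Finset
open scoped Classical

namespace Pool.Agent.Helper82.EC

open MGraph

variable {V E : Type} [Fintype V] [Fintype E] {G : MGraph V E} {D : ℕ}

/-- the colours of the edges of `S` -/
noncomputable def fanCols (φ : E → Option (Fin D)) (S : Finset E) : Finset (Fin D) :=
  univ.filter fun c => ∃ g ∈ S, φ g = some c

omit [Fintype V] [Fintype E] in
theorem mem_fanCols {φ : E → Option (Fin D)} {S : Finset E} {c : Fin D} :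
    c ∈ fanCols φ S ↔ ∃ g ∈ S, φ g = some c := by
  unfold fanCols; simp

omit [Fintype V] [Fintype E] in
theorem card_fanCols {φ : E → Option (Fin D)} (hp : G.Proper φ) {v : V} (S : Finset E)
    (hS : ∀ g ∈ S, v ∈ G.ends g) (hc : ∀ g ∈ S, φ g ≠ none) : (fanCols φ S).card = S.card := by
  have h1 : S.image φ = (fanCols φ S).image some := by
    ext o
    rw [mem_image, mem_image]
    constructor
    · rintro ⟨g, hg, rfl⟩
      obtain ⟨c, hc'⟩ := Option.ne_none_iff_exists'.mp (hc g hg)
      exact ⟨c, mem_fanCols.mpr ⟨g, hg, hc'⟩, hc'.symm⟩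
    · rintro ⟨c, hc', rfl⟩
      obtain ⟨g, hg, hgc⟩ := mem_fanCols.mp hc'
      exact ⟨g, hg, hgc⟩
  have h2 : (S.image φ).card = S.card := by
    apply card_image_of_injOn
    intro g hg g' hg' hgg
    obtain ⟨c, hc'⟩ := Option.ne_none_iff_exists'.mp (hc g hg)
    have hgg' : φ g = φ g' := hgg
    exact hp g g' v c (hS g hg) (hS g' hg') hc' (by rw [← hgg', hc'])
  have h3 : ((fanCols φ S).image some).card = (fanCols φ S).card :=
    card_image_of_injective _ (Option.some_injective _)
  rw [← h3, ← h1, h2]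

theorem fan_card3 {X Y Z : Finset (Fin D)} (h1 : Disjoint X Y) (h2 : Disjoint X Z)
    (h3 : Disjoint Y Z) : X.card + Y.card + Z.card ≤ D := by
  have h4 : ((X ∪ Y) ∪ Z).card ≤ (univ : Finset (Fin D)).card := card_le_card (subset_univ _)
  rw [card_union_of_disjoint (disjoint_union_left.mpr ⟨h2, h3⟩), card_union_of_disjoint h1,
    card_univ, Fintype.card_fin] at h4
  exact h4

theorem fan_card4 {W X Y Z : Finset (Fin D)} (h0 : Disjoint W X) (h0' : Disjoint W Y)
    (h0'' : Disjoint W Z) (h1 : Disjoint X Y) (h2 : Disjoint X Z) (h3 : Disjoint Y Z) :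
    W.card + X.card + Y.card + Z.card ≤ D := by
  have h4 := fan_card3 (X := W ∪ X) (Y := Y) (Z := Z) (disjoint_union_left.mpr ⟨h0', h1⟩)
    (disjoint_union_left.mpr ⟨h0'', h2⟩) h3
  rw [card_union_of_disjoint h0] at h4
  exact h4

omit [Fintype V] [Fintype E] in
/-- every colour that is not missing is on some edge -/
theorem fan_seen {φ : E → Option (Fin D)} {v : V} {c : Fin D} (h : ¬ G.Miss φ v c) :
    ∃ g, v ∈ G.ends g ∧ φ g = some c := by
  unfold Miss at h
  push Not at h
  exact h

theorem stFan (hCard : StCard) (hF1 : StF1) (hFD : StFD) (hF2 : StF2) (hKd : StKd) (hT : StT)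
    (hU : StU) : StFan := by
  intro V E _ _ G D hG e x y hends
  obtain ⟨φ, hprop, hunc, hcol⟩ := hG.col e
  have hC : G.Crit D φ e x y := ⟨hends, hprop, hunc, hcol, hG.nocol⟩
  obtain ⟨cx, cy, cv⟩ := hCard V E G D φ e x y hC
  have hdy : G.deg y ≤ D := hG.deg_le y
  have hdx : G.deg x ≤ D := hG.deg_le x
  have hxy : x ≠ y := hC.ne
  set F : Finset E := (G.inc y).filter fun f => ∃ β, G.Miss φ x β ∧ φ f = some β with hF
  have memF : ∀ f ∈ F, y ∈ G.ends f ∧ ∃ β, G.Miss φ x β ∧ φ f = some β := by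
    intro f hf
    rw [hF, mem_filter, mem_inc] at hf
    exact hf
  have hne : ∀ f ∈ F, G.opp y f ≠ x := by
    intro f hf hx
    obtain ⟨hyf, β, hβ, hfβ⟩ := memF f hf
    have h1 := opp_spec hyf
    rw [hx] at h1
    exact hβ f (mem_ends_right h1) hfβ
  -- vertices of N
  have memN : ∀ v ∈ F.image (G.opp y), ∃ f β, G.ends f = s(y, v) ∧ φ f = some β ∧
      G.Miss φ x β ∧ v ≠ x ∧ v ≠ y := by
    intro v hv
    rw [mem_image] at hv
    obtain ⟨f, hf, rfl⟩ := hv
    obtain ⟨hyf, β, hβ, hfβ⟩ := memF f hf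
    exact ⟨f, β, opp_spec hyf, hfβ, hβ, hne f hf, opp_ne hyf⟩
  have hdxy : Disjoint (G.miss φ x) (G.miss φ y) := by
    rw [disjoint_left]
    intro c h1 h2
    exact hC.disj (mem_miss.mp h1) (mem_miss.mp h2)
  have hdN : ∀ v ∈ F.image (G.opp y), Disjoint (G.miss φ v) (G.miss φ x) ∧
      Disjoint (G.miss φ v) (G.miss φ y) := by
    intro v hv
    obtain ⟨f, β, h1, h2, h3, h4, h5⟩ := memN v hv
    constructor
    · rw [disjoint_left]
      intro c hc hc'
      exact (hF1 V E G D φ e x y hC hdy β f v h3 h1 h2 c (mem_miss.mp hc)).1 (mem_miss.mp hc')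
    · rw [disjoint_left]
      intro c hc hc'
      exact (hF1 V E G D φ e x y hC hdy β f v h3 h1 h2 c (mem_miss.mp hc)).2 (mem_miss.mp hc')
  -- colours of edges to P
  have colored : ∀ (v : V) (P : Finset V), x ∉ P → (v = y ∨ (v ≠ x ∧ v ≠ y)) →
      ∀ g ∈ (G.inc v).filter (fun g => G.opp v g ∈ P), φ g ≠ none := by
    intro v P hxP hv g hg
    rw [mem_filter, mem_inc] at hg
    apply hcol
    rintro rfl
    rcases hv with rfl | ⟨h1, h2⟩
    · have h3 : G.opp v g = x := opp_eq (by rw [hends, Sym2.eq_swap])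
      rw [h3] at hg
      exact hxP hg.2
    · have h3 := hg.1
      rw [mem_ends_iff hends] at h3
      rcases h3 with h3 | h3
      · exact h1 h3
      · exact h2 h3
  have cardT : ∀ (v : V) (P : Finset V), x ∉ P → (v = y ∨ (v ≠ x ∧ v ≠ y)) →
      (fanCols φ ((G.inc v).filter (fun g => G.opp v g ∈ P))).card = G.degTo v P := by
    intro v P hxP hv
    rw [card_fanCols (v := v) hprop _ ?_ (colored v P hxP hv)]
    · rfl
    · intro g hg
      rw [mem_filter, mem_inc] at hg
      exact hg.1
  have memT : ∀ (v : V) (P : Finset V) (c : Fin D),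
      c ∈ fanCols φ ((G.inc v).filter (fun g => G.opp v g ∈ P)) →
      ∃ g w, G.ends g = s(v, w) ∧ w ∈ P ∧ φ g = some c := by
    intro v P c hc
    obtain ⟨g, hg, hgc⟩ := mem_fanCols.mp hc
    rw [mem_filter, mem_inc] at hg
    exact ⟨g, G.opp v g, opp_spec hg.1, hg.2, hgc⟩
  -- properties of T_y
  have hTy : ∀ P : Finset V, (∀ p ∈ P, G.deg x + G.deg p ≤ D) →
      Disjoint (fanCols φ ((G.inc y).filter (fun g => G.opp y g ∈ P.erase x))) (G.miss φ x) ∧
      Disjoint (fanCols φ ((G.inc y).filter (fun g => G.opp y g ∈ P.erase x))) (G.miss φ y) := by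
    intro P hP
    constructor
    · rw [disjoint_left]
      intro c hc hc'
      obtain ⟨g, w, hg, hw, hgc⟩ := memT y _ c hc
      have hgF : g ∈ F := by
        rw [hF, mem_filter, mem_inc]
        exact ⟨mem_ends_left hg, c, mem_miss.mp hc', hgc⟩
      have hwN : w ∈ F.image (G.opp y) := by
        rw [mem_image]; exact ⟨g, hgF, opp_eq hg⟩
      obtain ⟨_, _, _, _, _, hwx, hwy⟩ := memN w hwN
      have h1 := (hdN w hwN).1
      have h2 : (G.miss φ w ∪ G.miss φ x).card ≤ (univ : Finset (Fin D)).card :=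
        card_le_card (subset_univ _)
      rw [card_union_of_disjoint h1, card_univ, Fintype.card_fin] at h2
      have h3 := cv w hwx hwy
      have h4 := hP w (mem_of_mem_erase hw)
      omega
    · rw [disjoint_left]
      intro c hc hc'
      obtain ⟨g, w, hg, hw, hgc⟩ := memT y _ c hc
      exact mem_miss.mp hc' g (mem_ends_left hg) hgc
  -- properties of T_v
  have hTv : ∀ P : Finset V, y ∉ P → (∀ p ∈ P, G.deg x + G.deg p ≤ D) →
      ∀ v ∈ F.image (G.opp y),
      Disjoint (fanCols φ ((G.inc v).filter (fun g => G.opp v g ∈ P.erase x))) (G.miss φ x) ∧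
      Disjoint (fanCols φ ((G.inc v).filter (fun g => G.opp v g ∈ P.erase x))) (G.miss φ y) := by
    intro P hyP hP v hv
    obtain ⟨f, β, h1, h2, h3, h4, h5⟩ := memN v hv
    have key : ∀ c ∈ fanCols φ ((G.inc v).filter (fun g => G.opp v g ∈ P.erase x)),
        ¬ G.Miss φ x c ∧ ¬ G.Miss φ y c := by
      intro c hc
      obtain ⟨g, w, hg, hw, hgc⟩ := memT v _ c hc
      have hwP := mem_of_mem_erase hw
      refine hKd V E G D φ e x y hC hdy β c f g v w h3 h1 h2 hg hgc (ne_of_mem_erase hw) ?_ ?_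
      · intro h; exact hyP (h ▸ hwP)
      · have := hP w hwP
        omega
    constructor
    · rw [disjoint_left]
      intro c hc hc'
      exact (key c hc).1 (mem_miss.mp hc')
    · rw [disjoint_left]
      intro c hc hc'
      exact (key c hc).2 (mem_miss.mp hc')
  -- T_v and T_y are disjoint
  have hTT : ∀ P S : Finset V, S ⊆ P → y ∉ P → (∀ p ∈ P, G.deg x + G.deg p ≤ D) →
      ∀ v ∈ F.image (G.opp y),
      Disjoint (fanCols φ ((G.inc v).filter (fun g => G.opp v g ∈ S.erase x)))
        (fanCols φ ((G.inc y).filter (fun g => G.opp y g ∈ P.erase x))) := by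
    intro P S hSP hyP hP v hv
    obtain ⟨f, β, h1, h2, h3, h4, h5⟩ := memN v hv
    rw [disjoint_left]
    intro c hc hc'
    obtain ⟨g, w, hg, hw, hgc⟩ := memT v _ c hc
    obtain ⟨k, w', hk, hw', hkc⟩ := memT y _ c hc'
    have hwP := hSP (mem_of_mem_erase hw)
    have hwP' := mem_of_mem_erase hw'
    refine hT V E G D φ e x y hC hdy β c f g k v w w' h3 h1 h2 hk hkc (ne_of_mem_erase hw') hg hgc
      (ne_of_mem_erase hw) ?_ (hP w' hwP') ?_
    · intro h; exact hyP (h ▸ hwP)
    · have := hP w hwP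
      omega
  have hex : x ∉ (∅ : Finset V) := by simp
  refine ⟨F, ?_, ?_, ?_, hne, ?_, ?_, ?_, ?_⟩
  · exact filter_subset _ _
  · -- card
    have h1 : fanCols φ F = G.miss φ x := by
      ext c
      rw [mem_fanCols, mem_miss]
      constructor
      · rintro ⟨g, hg, hgc⟩
        obtain ⟨_, β, hβ, hgβ⟩ := memF g hg
        rw [hgc] at hgβ
        rwa [Option.some_injective _ hgβ]
      · intro hc
        obtain ⟨g, hg, hgc⟩ := fan_seen (G := G) (φ := φ) (v := y) (c := c) (fun h => hC.disj hc h)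
        refine ⟨g, ?_, hgc⟩
        rw [hF, mem_filter, mem_inc]
        exact ⟨hg, c, hc, hgc⟩
    have h2 := card_fanCols (v := y) hprop F (fun g hg => (memF g hg).1) (fun g hg => by
      obtain ⟨_, β, _, hgβ⟩ := memF g hg
      rw [hgβ]; simp)
    rw [← h2, h1]
    exact cx
  · intro he
    obtain ⟨_, β, _, hβ⟩ := memF e he
    rw [hunc] at hβ
    exact absurd hβ (by simp)
  · -- sum_le
    have h1 : (↑(F.image (G.opp y)) : Set V).PairwiseDisjoint (fun v => G.miss φ v) := by
      intro v hv w hw hvw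
      obtain ⟨f, β, h1, h2, h3, h4, h5⟩ := memN v hv
      obtain ⟨f', β', h1', h2', h3', h4', h5'⟩ := memN w hw
      show Disjoint (G.miss φ v) (G.miss φ w)
      rw [disjoint_left]
      intro c hc hc'
      exact hFD V E G D φ e x y hC hdy β β' f f' v w hvw h3 h3' h1 h1' h2 h2' c (mem_miss.mp hc)
        (mem_miss.mp hc')
    have h2 : ((F.image (G.opp y)).biUnion fun v => G.miss φ v).card
        = ∑ v ∈ F.image (G.opp y), (D - G.deg v) := by
      rw [card_biUnion h1]
      apply sum_congr rfl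
      intro v hv
      obtain ⟨_, _, _, _, _, h4, h5⟩ := memN v hv
      have := cv v h4 h5
      omega
    have h3 := fan_card3 (X := (F.image (G.opp y)).biUnion fun v => G.miss φ v)
      (Y := G.miss φ x) (Z := G.miss φ y)
      (by rw [disjoint_biUnion_left]; intro v hv; exact (hdN v hv).1)
      (by rw [disjoint_biUnion_left]; intro v hv; exact (hdN v hv).2) hdxy
    rw [h2] at h3
    omega
  · -- cnt
    intro P hyP hP v hv
    obtain ⟨_, _, _, _, _, h4, h5⟩ := memN v hv
    have h1 := fan_card4 (hTT P P (Subset.refl _) hyP hP v hv) (hTv P hyP hP v hv).1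
      (hTv P hyP hP v hv).2 (hTy P hP).1 (hTy P hP).2 hdxy
    rw [cardT v _ (notMem_erase x P) (Or.inr ⟨h4, h5⟩), cardT y _ (notMem_erase x P) (Or.inl rfl)]
      at h1
    omega
  · -- cntS
    intro P S hSP hyP hP hS
    have hyS : y ∉ S := fun h => hyP (hSP h)
    have hS' : ∀ p ∈ S, G.deg x + G.deg p ≤ D := fun p hp => hP p (hSP hp)
    have h1 : (↑(F.image (G.opp y)) : Set V).PairwiseDisjoint
        (fun v => fanCols φ ((G.inc v).filter (fun g => G.opp v g ∈ S.erase x))) := by
      intro v hv w hw hvw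
      obtain ⟨f, β, h1, h2, h3, h4, h5⟩ := memN v hv
      obtain ⟨f', β', h1', h2', h3', h4', h5'⟩ := memN w hw
      show Disjoint (fanCols φ ((G.inc v).filter (fun g => G.opp v g ∈ S.erase x)))
        (fanCols φ ((G.inc w).filter (fun g => G.opp w g ∈ S.erase x)))
      rw [disjoint_left]
      intro c hc hc'
      obtain ⟨g, p, hg, hp, hgc⟩ := memT v _ c hc
      obtain ⟨g', q, hg', hq, hgc'⟩ := memT w _ c hc'
      have hpS := mem_of_mem_erase hp
      have hqS := mem_of_mem_erase hq
      exact hU V E G D φ e x y hC hdy β β' c f f' g g' v w p q hvw h3 h3' h1 h1' h2 h2' hg hg'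
        hgc hgc' (ne_of_mem_erase hp) (fun h => hyS (h ▸ hpS)) (ne_of_mem_erase hq)
        (fun h => hyS (h ▸ hqS)) (hS p hpS q hqS)
    have h2 : ((F.image (G.opp y)).biUnion fun v =>
        fanCols φ ((G.inc v).filter (fun g => G.opp v g ∈ S.erase x))).card
        = ∑ v ∈ F.image (G.opp y), G.degTo v (S.erase x) := by
      rw [card_biUnion h1]
      apply sum_congr rfl
      intro v hv
      obtain ⟨_, _, _, _, _, h4, h5⟩ := memN v hv
      exact cardT v _ (notMem_erase x S) (Or.inr ⟨h4, h5⟩)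
    have h3 := fan_card4 (W := (F.image (G.opp y)).biUnion fun v =>
        fanCols φ ((G.inc v).filter (fun g => G.opp v g ∈ S.erase x)))
      (by rw [disjoint_biUnion_left]; intro v hv; exact hTT P S hSP hyP hP v hv)
      (by rw [disjoint_biUnion_left]; intro v hv; exact (hTv S hyS hS' v hv).1)
      (by rw [disjoint_biUnion_left]; intro v hv; exact (hTv S hyS hS' v hv).2)
      (hTy P hP).1 (hTy P hP).2 hdxy
    rw [h2, cardT y _ (notMem_erase x P) (Or.inl rfl)] at h3
    omega
  · -- two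
    intro z hz
    obtain ⟨f, β, h1, h2, h3, h4, h5⟩ := memN z hz
    have hF1z := hF1 V E G D φ e x y hC hdy β f z h3 h1 h2
    set F2 : Finset E := (G.inc y).filter fun f => ∃ c, G.Miss φ z c ∧ φ f = some c with hF2def
    have memF2 : ∀ f ∈ F2, y ∈ G.ends f ∧ ∃ c, G.Miss φ z c ∧ φ f = some c := by
      intro f hf
      rw [hF2def, mem_filter, mem_inc] at hf
      exact hf
    refine ⟨F2, filter_subset _ _, ?_, ?_, ?_, ?_⟩
    · have h6 : fanCols φ F2 = G.miss φ z := by
        ext c
        rw [mem_fanCols, mem_miss]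
        constructor
        · rintro ⟨g, hg, hgc⟩
          obtain ⟨_, β', hβ', hgβ'⟩ := memF2 g hg
          rw [hgc] at hgβ'
          rwa [Option.some_injective _ hgβ']
        · intro hc
          obtain ⟨g, hg, hgc⟩ := fan_seen (G := G) (φ := φ) (v := y) (c := c) (hF1z c hc).2
          refine ⟨g, ?_, hgc⟩
          rw [hF2def, mem_filter, mem_inc]
          exact ⟨hg, c, hc, hgc⟩
      have h7 := card_fanCols (v := y) hprop F2 (fun g hg => (memF2 g hg).1) (fun g hg => by
        obtain ⟨_, β', _, hgβ'⟩ := memF2 g hg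
        rw [hgβ']; simp)
      rw [← h7, h6]
      exact cv z h4 h5
    · rw [disjoint_left]
      intro g hg hg'
      obtain ⟨_, c, hc, hgc⟩ := memF g hg
      obtain ⟨_, c', hc', hgc'⟩ := memF2 g hg'
      rw [hgc] at hgc'
      have := Option.some_injective _ hgc'
      exact (hF1z c' hc').1 (this ▸ hc)
    · intro he
      obtain ⟨_, c, _, hc⟩ := memF2 e he
      rw [hunc] at hc
      exact absurd hc (by simp)
    · intro g hg hgx hgz
      obtain ⟨hyg, c, hc, hgc⟩ := memF2 g hg
      have hends' := opp_spec hyg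
      set u := G.opp y g with hu
      have huy : u ≠ y := opp_ne hyg
      have hF2u := hF2 V E G D φ e x y hC hdy β c f g z u h3 h1 h2 hc hends' hgc hgx hgz
      have h6 := fan_card4 (W := G.miss φ u) (X := G.miss φ z) (Y := G.miss φ x) (Z := G.miss φ y)
        (by rw [disjoint_left]; intro c' h h'; exact (hF2u c' (mem_miss.mp h)).2.2 (mem_miss.mp h'))
        (by rw [disjoint_left]; intro c' h h'; exact (hF2u c' (mem_miss.mp h)).1 (mem_miss.mp h'))
        (by rw [disjoint_left]; intro c' h h'; exact (hF2u c' (mem_miss.mp h)).2.1 (mem_miss.mp h'))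
        (hdN z hz).1 (hdN z hz).2 hdxy
      have h7 := cv u hgx huy
      have h8 := cv z h4 h5
      omega

end Pool.Agent.Helper82.EC
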