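import Pool.Agent.Helper82.EC.StA

/-!
# MP_47b98d_co : module A-K (Lemma K)
-/

set_option autoImplicit false

open Finset
open scoped Classical

namespace Pool.Agent.Helper82.EC

open MGraph

namespace AK

variable {V E : Type} [Fintype V] [Fintype E] {G : MGraph V E} {D : ℕ}

/-- separation of a third vertex -/
theorem sep (hEnd : StEnd) {φ : E → Option (Fin D)} {e : E} {x y z : V} (h : G.Crit D φ e x y)
    {a b : Fin D} (hy : G.Miss φ y a) (hx : G.Miss φ x b) (hzx : z ≠ x) (hzy : z ≠ y)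
    (hz : G.Miss φ z a ∨ G.Miss φ z b) :
    ¬ (G.KG φ a b).Reachable z x ∧ ¬ (G.KG φ a b).Reachable z y := by
  have hl := h.link hy hx
  constructor
  · intro hr
    exact hEnd V E G D φ a b h.proper x y z h.ne hzx.symm hzy.symm hl hr.symm (Or.inr hx)
      (Or.inl hy) hz
  · intro hr
    exact hEnd V E G D φ a b h.proper x y z h.ne hzx.symm hzy.symm hl (hl.trans hr.symm)
      (Or.inr hx) (Or.inl hy) hz

theorem exists_miss (hCard : StCard) {φ : E → Option (Fin D)} {e : E} {x y : V}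
    (h : G.Crit D φ e x y) (hd : G.deg y ≤ D) : ∃ γ, G.Miss φ y γ := by
  have h1 := (hCard V E G D φ e x y h).2.1
  have h2 : 0 < (G.miss φ y).card := by omega
  obtain ⟨γ, hγ⟩ := Finset.card_pos.1 h2
  exact ⟨γ, mem_miss.1 hγ⟩

/-- step C -/
theorem stepC {φ : E → Option (Fin D)} {e : E} {x y : V} (h : G.Crit D φ e x y) {β τ : Fin D}
    {f g : E} {v w : V} (hxβ : G.Miss φ x β) (hf : G.ends f = s(y, v)) (hfβ : φ f = some β)
    (hg : G.ends g = s(v, w)) (hgτ : φ g = some τ) (hwx : w ≠ x) (hwy : w ≠ y)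
    (hyτ : G.Miss φ y τ) (hwβ : G.Miss φ w β) : False := by
  have hyf := mem_ends_left hf
  have hvf := mem_ends_right hf
  have hvg := mem_ends_left hg
  have hwg := mem_ends_right hg
  have hyv : y ≠ v := ne_of_ends hf
  have hvx : v ≠ x := by
    intro h'
    rw [h'] at hvf
    exact hxβ f hvf hfβ
  have hβτ : β ≠ τ := by
    intro h'
    exact hyτ f hyf (by rw [← h']; exact hfβ)
  have hfg : f ≠ g := by
    intro h'
    rw [h'] at hfβ
    rw [hfβ] at hgτ
    exact hβτ (Option.some_injective _ hgτ)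
  have hef : e ≠ f := by
    intro h'
    rw [← h', h.unc] at hfβ
    simp at hfβ
  have heg : e ≠ g := by
    intro h'
    rw [← h', h.unc] at hgτ
    simp at hgτ
  have hyg : y ∉ G.ends g := by
    rw [mem_ends_iff hg]
    rintro (h' | h')
    · exact hyv h'
    · exact hwy h'.symm
  have hxg : x ∉ G.ends g := by
    rw [mem_ends_iff hg]
    rintro (h' | h')
    · exact hvx h'.symm
    · exact hwx h'.symm
  -- uncolour `f` and `g`
  set φ1 := Function.update φ f none with hφ1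
  set φ2 := Function.update φ1 g none with hφ2
  have hp2 : G.Proper φ2 := (h.proper.update_none f).update_none g
  have hφ2f : φ2 f = none := by
    rw [hφ2, Function.update_of_ne hfg, hφ1, Function.update_self]
  have hφ2g : φ2 g = none := by rw [hφ2, Function.update_self]
  have hφ2o : ∀ k, k ≠ f → k ≠ g → φ2 k = φ k := by
    intro k h1 h2
    rw [hφ2, Function.update_of_ne h2, hφ1, Function.update_of_ne h1]
  have m1 : G.Miss φ2 y τ := by
    rw [hφ2, hφ1]
    exact (hyτ.update (by simp)).update (by simp)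
  have m2 : G.Miss φ2 v τ := by
    intro k hk hkτ
    by_cases h1 : k = f
    · rw [h1, hφ2f] at hkτ; simp at hkτ
    by_cases h2 : k = g
    · rw [h2, hφ2g] at hkτ; simp at hkτ
    rw [hφ2o k h1 h2] at hkτ
    exact h2 (h.proper k g v τ hk hvg hkτ hgτ)
  set φ3 := Function.update φ2 f (some τ) with hφ3
  have hp3 : G.Proper φ3 := hp2.update_miss hf m1 m2
  have m3 : G.Miss φ3 v β := by
    intro k hk hkβ
    by_cases h1 : k = f
    · rw [h1, hφ3, Function.update_self] at hkβ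
      exact hβτ (Option.some_injective _ hkβ).symm
    rw [hφ3, Function.update_of_ne h1] at hkβ
    by_cases h2 : k = g
    · rw [h2, hφ2g] at hkβ; simp at hkβ
    rw [hφ2o k h1 h2] at hkβ
    exact h1 (h.proper k f v β hk hvf hkβ hfβ)
  have m4 : G.Miss φ3 w β := by
    rw [hφ3, hφ2, hφ1]
    refine ((hwβ.update (by simp)).update (by simp)).update ?_
    intro h'
    exact hβτ (Option.some_injective _ h').symm
  set φ4 := Function.update φ3 g (some β) with hφ4
  have hp4 : G.Proper φ4 := hp3.update_miss hg m3 m4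
  have m5 : G.Miss φ4 x β := by
    rw [hφ4, miss_update_off hxg, hφ3, hφ2, hφ1]
    refine ((hxβ.update (by simp)).update (by simp)).update ?_
    intro h'
    exact hβτ (Option.some_injective _ h').symm
  have m6 : G.Miss φ4 y β := by
    rw [hφ4, miss_update_off hyg]
    intro k hk hkβ
    by_cases h1 : k = f
    · rw [h1, hφ3, Function.update_self] at hkβ
      exact hβτ (Option.some_injective _ hkβ).symm
    rw [hφ3, Function.update_of_ne h1] at hkβ
    by_cases h2 : k = g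
    · exact hyg (h2 ▸ hk)
    rw [hφ2o k h1 h2] at hkβ
    exact h1 (h.proper k f y β hk hyf hkβ hfβ)
  refine h.absurd (hp4.update_miss h.ends_eq m5 m6) ?_
  intro k
  by_cases h0 : k = e
  · rw [h0, Function.update_self]; simp
  rw [Function.update_of_ne h0]
  by_cases h2 : k = g
  · rw [h2, hφ4, Function.update_self]; simp
  rw [hφ4, Function.update_of_ne h2]
  by_cases h1 : k = f
  · rw [h1, hφ3, Function.update_self]; simp
  rw [hφ3, Function.update_of_ne h1, hφ2o k h1 h2]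
  exact h.col k h0

/-- step B -/
theorem stepB (hEnd : StEnd) {φ : E → Option (Fin D)} {e : E} {x y : V} (h : G.Crit D φ e x y)
    {β τ γ : Fin D} {f g : E} {v w : V} (hxβ : G.Miss φ x β) (hf : G.ends f = s(y, v))
    (hfβ : φ f = some β) (hg : G.ends g = s(v, w)) (hgτ : φ g = some τ) (hwx : w ≠ x)
    (hwy : w ≠ y) (hxτ : G.Miss φ x τ) (hwβ : G.Miss φ w β) (hyγ : G.Miss φ y γ)
    (hwγ : G.Miss φ w γ) : False := by
  obtain ⟨s1, s2⟩ := sep hEnd h hyγ hxτ hwx hwy (Or.inl hwγ)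
  have hβγ : β ≠ γ := by
    intro h'
    exact hyγ f (mem_ends_left hf) (by rw [← h']; exact hfβ)
  have hβτ : β ≠ τ := by
    intro h'
    exact hwβ g (mem_ends_right hg) (by rw [h']; exact hgτ)
  have hφg : G.swapC φ γ τ w g = some γ := by
    rw [swapC_of_reach (mem_ends_right hg) (SimpleGraph.Reachable.refl w), hgτ]
    simp
  refine stepC (h.swap γ τ w) (β := β) (τ := γ) (f := f) (g := g) (v := v) (w := w) ?_ hf ?_ hg
    hφg hwx hwy ?_ ?_
  · exact (miss_swap_of_ne hβγ hβτ).2 hxβ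
  · exact swapC_some hfβ hβγ hβτ
  · exact (miss_swap_of_not_reach s2).2 hyγ
  · exact (miss_swap_of_ne hβγ hβτ).2 hwβ

/-- step A -/
theorem stepA (hEnd : StEnd) (hCard : StCard) {φ : E → Option (Fin D)} {e : E} {x y : V}
    (h : G.Crit D φ e x y) (hd : G.deg y ≤ D)
    {β τ δ : Fin D} {f g : E} {v w : V} (hxβ : G.Miss φ x β) (hf : G.ends f = s(y, v))
    (hfβ : φ f = some β) (hg : G.ends g = s(v, w)) (hgτ : φ g = some τ) (hwx : w ≠ x)
    (hwy : w ≠ y) (hτ : G.Miss φ x τ ∨ G.Miss φ y τ) (hwβ : G.Miss φ w β) (hwδ : G.Miss φ w δ)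
    (hδβ : δ ≠ β) (hδ : G.Miss φ x δ ∨ G.Miss φ y δ) : False := by
  rcases hτ with hxτ | hyτ
  swap
  · exact stepC h hxβ hf hfβ hg hgτ hwx hwy hyτ hwβ
  rcases hδ with hxδ | hyδ
  swap
  · exact stepB hEnd h hxβ hf hfβ hg hgτ hwx hwy hxτ hwβ hyδ hwδ
  obtain ⟨γ, hyγ⟩ := exists_miss hCard h hd
  by_cases hwγ : G.Miss φ w γ
  · exact stepB hEnd h hxβ hf hfβ hg hgτ hwx hwy hxτ hwβ hyγ hwγ
  obtain ⟨s1, s2⟩ := sep hEnd h hyγ hxδ hwx hwy (Or.inr hwδ)
  have hβγ : β ≠ γ := by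
    intro h'
    exact hyγ f (mem_ends_left hf) (by rw [← h']; exact hfβ)
  have hτγ : τ ≠ γ := by
    intro h'
    exact h.disj hxτ (by rw [h']; exact hyγ)
  have hτδ : τ ≠ δ := by
    intro h'
    exact hwδ g (mem_ends_right hg) (by rw [← h']; exact hgτ)
  refine stepB hEnd (h.swap γ δ w) (β := β) (τ := τ) (γ := γ) (f := f) (g := g) (v := v)
    (w := w) ?_ hf ?_ hg ?_ hwx hwy ?_ ?_ ?_ ?_
  · exact (miss_swap_of_ne hβγ hδβ.symm).2 hxβ
  · exact swapC_some hfβ hβγ hδβ.symm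
  · exact swapC_some hgτ hτγ hτδ
  · exact (miss_swap_of_ne hτγ hτδ).2 hxτ
  · exact (miss_swap_of_ne hβγ hδβ.symm).2 hwβ
  · exact (miss_swap_of_not_reach s2).2 hyγ
  · rw [miss_swap_of_reach (SimpleGraph.Reachable.refl w), Equiv.swap_apply_left]
    exact hwδ

/-- step 1 -/
theorem step1 (hEnd : StEnd) (hCard : StCard) {φ : E → Option (Fin D)} {e : E} {x y : V}
    (h : G.Crit D φ e x y) (hd : G.deg y ≤ D)
    {β τ γ ε : Fin D} {f g : E} {v w : V} (hxβ : G.Miss φ x β) (hf : G.ends f = s(y, v))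
    (hfβ : φ f = some β) (hg : G.ends g = s(v, w)) (hgτ : φ g = some τ) (hwx : w ≠ x)
    (hwy : w ≠ y) (hτ : G.Miss φ x τ ∨ G.Miss φ y τ) (hyγ : G.Miss φ y γ) (hwγ : G.Miss φ w γ)
    (hwε : G.Miss φ w ε) (hεγ : ε ≠ γ) (hε : G.Miss φ x ε ∨ G.Miss φ y ε)
    (hwβ : ¬ G.Miss φ w β) : False := by
  obtain ⟨s1, s2⟩ := sep hEnd h hyγ hxβ hwx hwy (Or.inl hwγ)
  have hβγ : β ≠ γ := by
    intro h'
    exact hyγ f (mem_ends_left hf) (by rw [← h']; exact hfβ)
  have hεβ : ε ≠ β := by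
    intro h'
    exact hwβ (by rw [← h']; exact hwε)
  have hτγ : τ ≠ γ := by
    intro h'
    exact hwγ g (mem_ends_right hg) (by rw [← h']; exact hgτ)
  have hτβ : τ ≠ β := by
    intro h'
    have h1 : g = f := h.proper g f v β (mem_ends_left hg) (mem_ends_right hf)
      (by rw [hgτ, h']) hfβ
    have h2 : w ∈ G.ends f := by rw [← h1]; exact mem_ends_right hg
    rw [mem_ends_iff hf] at h2
    rcases h2 with h2 | h2
    · exact hwy h2
    · exact ne_of_ends hg h2.symm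
  refine stepA hEnd hCard (h.swap γ β w) hd (β := β) (τ := τ) (δ := ε) (f := f) (g := g)
    (v := v) (w := w) ?_ hf ?_ hg ?_ hwx hwy ?_ ?_ ?_ hεβ ?_
  · exact (miss_swap_of_not_reach s1).2 hxβ
  · rw [swapC_of_not_reach (mem_ends_left hf) s2]
    exact hfβ
  · exact swapC_some hgτ hτγ hτβ
  · rw [miss_swap_of_not_reach s1, miss_swap_of_not_reach s2]
    exact hτ
  · rw [miss_swap_of_reach (SimpleGraph.Reachable.refl w), Equiv.swap_apply_right]
    exact hwγ
  · exact (miss_swap_of_ne hεγ hεβ).2 hwε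
  · rw [miss_swap_of_not_reach s1, miss_swap_of_not_reach s2]
    exact hε

/-- step 2 -/
theorem step2 (hEnd : StEnd) (hCard : StCard) {φ : E → Option (Fin D)} {e : E} {x y : V}
    (h : G.Crit D φ e x y) (hd : G.deg y ≤ D)
    {β τ δ₁ δ₂ : Fin D} {f g : E} {v w : V} (hxβ : G.Miss φ x β) (hf : G.ends f = s(y, v))
    (hfβ : φ f = some β) (hg : G.ends g = s(v, w)) (hgτ : φ g = some τ) (hwx : w ≠ x)
    (hwy : w ≠ y) (hτ : G.Miss φ x τ ∨ G.Miss φ y τ) (hδ : δ₁ ≠ δ₂)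
    (hx1 : G.Miss φ x δ₁) (hw1 : G.Miss φ w δ₁) (hx2 : G.Miss φ x δ₂) (hw2 : G.Miss φ w δ₂)
    (hwβ : ¬ G.Miss φ w β) : False := by
  obtain ⟨γ, hyγ⟩ := exists_miss hCard h hd
  obtain ⟨s1, s2⟩ := sep hEnd h hyγ hx1 hwx hwy (Or.inr hw1)
  have hβγ : β ≠ γ := by
    intro h'
    exact hyγ f (mem_ends_left hf) (by rw [← h']; exact hfβ)
  have hβ1 : β ≠ δ₁ := by
    intro h'
    exact hwβ (by rw [h']; exact hw1)
  have h2γ : δ₂ ≠ γ := by
    intro h'
    exact h.disj hx2 (by rw [h']; exact hyγ)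
  have hτ1 : τ ≠ δ₁ := by
    intro h'
    exact hw1 g (mem_ends_right hg) (by rw [← h']; exact hgτ)
  obtain ⟨τ', hg', hτ'⟩ : ∃ τ', G.swapC φ γ δ₁ w g = some τ' ∧
      (G.Miss (G.swapC φ γ δ₁ w) x τ' ∨ G.Miss (G.swapC φ γ δ₁ w) y τ') := by
    by_cases hτγ : τ = γ
    · refine ⟨δ₁, ?_, Or.inl ((miss_swap_of_not_reach s1).2 hx1)⟩
      rw [swapC_of_reach (mem_ends_right hg) (SimpleGraph.Reachable.refl w), hgτ, hτγ]
      simp
    · refine ⟨τ, swapC_some hgτ hτγ hτ1, ?_⟩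
      rw [miss_swap_of_not_reach s1, miss_swap_of_not_reach s2]
      exact hτ
  refine step1 hEnd hCard (h.swap γ δ₁ w) hd (β := β) (τ := τ') (γ := γ) (ε := δ₂) (f := f)
    (g := g) (v := v) (w := w) ?_ hf ?_ hg hg' hwx hwy hτ' ?_ ?_ ?_ h2γ ?_ ?_
  · exact (miss_swap_of_not_reach s1).2 hxβ
  · rw [swapC_of_not_reach (mem_ends_left hf) s2]
    exact hfβ
  · exact (miss_swap_of_not_reach s2).2 hyγ
  · rw [miss_swap_of_reach (SimpleGraph.Reachable.refl w), Equiv.swap_apply_left]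
    exact hw1
  · exact (miss_swap_of_ne h2γ hδ.symm).2 hw2
  · left
    exact (miss_swap_of_not_reach s1).2 hx2
  · rw [miss_swap_of_ne hβγ hβ1]
    exact hwβ

end AK

open AK in
theorem stK (hEnd : StEnd) (hCard : StCard) : StK := by
  intro V E _ _ G D φ e x y h hd β τ f g v w hxβ hf hfβ hg hgτ hwx hwy hτ δ₁ δ₂ hδ hw1 hw2 h1 h2
  by_cases hwβ : G.Miss φ w β
  · by_cases hδβ : δ₁ = β
    · exact stepA hEnd hCard h hd hxβ hf hfβ hg hgτ hwx hwy hτ hwβ hw2
        (by rw [← hδβ]; exact hδ.symm) h2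
    · exact stepA hEnd hCard h hd hxβ hf hfβ hg hgτ hwx hwy hτ hwβ hw1 hδβ h1
  · rcases h1 with hx1 | hy1
    · rcases h2 with hx2 | hy2
      · exact step2 hEnd hCard h hd hxβ hf hfβ hg hgτ hwx hwy hτ hδ hx1 hw1 hx2 hw2 hwβ
      · exact step1 hEnd hCard h hd hxβ hf hfβ hg hgτ hwx hwy hτ hy2 hw2 hw1 hδ (Or.inl hx1) hwβ
    · exact step1 hEnd hCard h hd hxβ hf hfβ hg hgτ hwx hwy hτ hy1 hw1 hw2 hδ.symm h2 hwβ

theorem stKd (hCard : StCard) (hK : StK) : StKd := by
  intro V E _ _ G D φ e x y h hd β τ f g v w hxβ hf hfβ hg hgτ hwx hwy hdeg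
  have hc := hCard V E G D φ e x y h
  have hcw := hc.2.2 w hwx hwy
  have hdisj : Disjoint (G.miss φ x) (G.miss φ y) := by
    rw [Finset.disjoint_left]
    intro c h1 h2
    exact h.disj (mem_miss.1 h1) (mem_miss.1 h2)
  have hU : (G.miss φ x ∪ G.miss φ y).card = (G.miss φ x).card + (G.miss φ y).card :=
    Finset.card_union_of_disjoint hdisj
  have hall : (G.miss φ w ∪ (G.miss φ x ∪ G.miss φ y)).card ≤ D := by
    refine (Finset.card_le_univ _).trans ?_
    simp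
  have hui := Finset.card_union_add_card_inter (G.miss φ w) (G.miss φ x ∪ G.miss φ y)
  have h2 : 1 < (G.miss φ w ∩ (G.miss φ x ∪ G.miss φ y)).card := by omega
  obtain ⟨δ₁, hδ1, δ₂, hδ2, hne⟩ := Finset.one_lt_card.1 h2
  rw [Finset.mem_inter, Finset.mem_union, mem_miss, mem_miss, mem_miss] at hδ1 hδ2
  have key : ¬ (G.Miss φ x τ ∨ G.Miss φ y τ) := fun hτ =>
    hK V E G D φ e x y h hd β τ f g v w hxβ hf hfβ hg hgτ hwx hwy hτ δ₁ δ₂ hne hδ1.1 hδ2.1
      hδ1.2 hδ2.2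
  exact ⟨fun h' => key (Or.inl h'), fun h' => key (Or.inr h')⟩

end Pool.Agent.Helper82.EC
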