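import Pool.Agent.Helper82.EC.StA

/-!
# MP_47b98d_co : Lemma T
-/

set_option autoImplicit false

open Finset
open scoped Classical

namespace Pool.Agent.Helper82.EC

open MGraph

/-- two vertices with many missing colours have a common one -/
theorem T_common {V E : Type} [Fintype V] [Fintype E] {G : MGraph V E} {D : ℕ}
    {φ : E → Option (Fin D)} {u v : V} (h : D < (G.miss φ u).card + (G.miss φ v).card) :
    ∃ c, G.Miss φ u c ∧ G.Miss φ v c := by
  by_contra hcon
  push Not at hcon
  have hd : Disjoint (G.miss φ u) (G.miss φ v) := by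
    rw [Finset.disjoint_left]
    intro c hc hc'
    exact hcon c (mem_miss.mp hc) (mem_miss.mp hc')
  have h1 : (G.miss φ u ∪ G.miss φ v).card ≤ D := by
    refine (Finset.card_le_univ _).trans ?_
    rw [Fintype.card_fin]
  rw [Finset.card_union_of_disjoint hd] at h1
  omega

/-- the case where `w'` and `y` have a common missing colour -/
theorem T_aux (hF1 : StF1) (hKd : StKd) {V E : Type} [Fintype V] [Fintype E] {G : MGraph V E}
    {D : ℕ} {φ : E → Option (Fin D)} {e : E} {x y : V} (h : G.Crit D φ e x y)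
    (hy : G.deg y ≤ D) {β τ α : Fin D} {f g k : E} {v w w' : V} (hβ : G.Miss φ x β)
    (hf : G.ends f = s(y, v)) (hfβ : φ f = some β) (hk : G.ends k = s(y, w'))
    (hkτ : φ k = some τ) (hg : G.ends g = s(v, w)) (hgτ : φ g = some τ) (hwx : w ≠ x)
    (hwy : w ≠ y) (hdeg : G.deg x + G.deg y + G.deg w ≤ 2 * D) (hαy : G.Miss φ y α)
    (hαw : G.Miss φ w' α) : False := by
  have hτα : α ≠ τ := by
    intro h'
    exact hαy k (mem_ends_left hk) (by rw [h', hkτ])
  have hβα : α ≠ β := by
    intro h'
    exact h.disj hβ (h' ▸ hαy)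
  have hfk : f ≠ k := by
    intro h'
    have hvw : v = w' := by
      rw [h'] at hf
      rw [← opp_eq hf, opp_eq hk]
    exact (hF1 V E G D φ e x y h hy β f v hβ hf hfβ α (hvw ▸ hαw)).2 hαy
  have hgk : g ≠ k := by
    intro h'
    have hyg : y ∈ G.ends g := h' ▸ mem_ends_left hk
    rcases (mem_ends_iff hg).mp hyg with h1 | h1
    · exact ne_of_ends hf h1
    · exact hwy h1.symm
  have hek : e ≠ k := by
    intro h'
    rw [← h', h.unc] at hkτ
    simp at hkτ
  have hcrit : G.Crit D (Function.update φ k (some α)) e x y := by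
    refine ⟨h.ends_eq, h.proper.update_miss hk hαy hαw, ?_, ?_, h.nocol⟩
    · rw [Function.update_of_ne hek, h.unc]
    · intro f' hf'
      by_cases hfk' : f' = k
      · rw [hfk', Function.update_self]; simp
      · rw [Function.update_of_ne hfk']; exact h.col f' hf'
  have hβ' : G.Miss (Function.update φ k (some α)) x β := by
    refine hβ.update ?_
    intro h'
    exact hβα (Option.some_injective _ h')
  have hfβ' : Function.update φ k (some α) f = some β := by
    rw [Function.update_of_ne hfk, hfβ]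
  have hgτ' : Function.update φ k (some α) g = some τ := by
    rw [Function.update_of_ne hgk, hgτ]
  have hτy : G.Miss (Function.update φ k (some α)) y τ :=
    miss_update_some hτα.symm (h.proper.other hkτ (mem_ends_left hk))
  exact (hKd V E G D _ e x y hcrit hy β τ f g v w hβ' hf hfβ' hg hgτ' hwx hwy hdeg).2 hτy

/-- Lemma T -/
theorem stT (hEnd : StEnd) (hCard : StCard) (hF1 : StF1) (hKd : StKd) : StT := by
  intro V E _ _ G D φ e x y h hy β τ f g k v w w' hβ hf hfβ hk hkτ hw'x hg hgτ hwx hwy hd1 hd2
  have hyw' : y ≠ w' := ne_of_ends hk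
  obtain ⟨c1, c2, c3⟩ := hCard V E G D φ e x y h
  have c4 := c3 w' hw'x hyw'.symm
  obtain ⟨π, hπx, hπw⟩ := T_common (G := G) (φ := φ) (u := x) (v := w') (by omega)
  obtain ⟨α, hα⟩ : (G.miss φ y).Nonempty := by
    rw [← Finset.card_pos]
    omega
  have hαy : G.Miss φ y α := mem_miss.mp hα
  by_cases hαw : G.Miss φ w' α
  · exact T_aux hF1 hKd h hy hβ hf hfβ hk hkτ hg hgτ hwx hwy hd2 hαy hαw
  · have hlink := h.link hαy hπx
    have hnx : ¬ (G.KG φ α π).Reachable w' x := by
      intro hr
      exact hEnd V E G D φ α π h.proper x y w' h.ne hw'x.symm hyw' hlink hr.symm (Or.inr hπx)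
        (Or.inl hαy) (Or.inr hπw)
    have hny : ¬ (G.KG φ α π).Reachable w' y := fun hr => hnx (hr.trans hlink.symm)
    have hτα : τ ≠ α := by
      intro h'
      exact hαy k (mem_ends_left hk) (by rw [← h', hkτ])
    have hτπ : τ ≠ π := by
      intro h'
      exact hπw k (mem_ends_right hk) (by rw [← h', hkτ])
    refine T_aux hF1 hKd (h.swap α π w') hy (β := β) (τ := τ) (α := α) (f := f) (g := g) (k := k)
      (v := v) (w := w) (w' := w') ?_ hf ?_ hk ?_ hg ?_ hwx hwy hd2 ?_ ?_
    · exact (miss_swap_of_not_reach hnx).mpr hβ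
    · rw [swapC_of_not_reach (mem_ends_left hf) hny, hfβ]
    · rw [swapC_of_not_reach (mem_ends_left hk) hny, hkτ]
    · exact swapC_some hgτ hτα hτπ
    · exact (miss_swap_of_not_reach hny).mpr hαy
    · rw [miss_swap_of_reach (SimpleGraph.Reachable.refl w'), Equiv.swap_apply_left]
      exact hπw

end Pool.Agent.Helper82.EC
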