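import Pool.Agent.Helper82.EC.StA

/-!
# MP_47b98d_co : Lemma U
-/

set_option autoImplicit false

open Finset
open scoped Classical

namespace Pool.Agent.Helper82.EC

open MGraph

theorem stU (hEnd : StEnd) (hCard : StCard) (hKd : StKd) : StU := by
  intro V E _ _ G D φ e x y hC hy β₁ β₂ c f₁ f₂ g₁ g₂ v₁ v₂ w₁ w₂ hv hβ₁ hβ₂ hf₁ hf₂ hc₁ hc₂
    hg₁ hg₂ hgc₁ hgc₂ h1x h1y h2x h2y hdeg
  obtain ⟨hcx, hcy⟩ := hKd V E G D φ e x y hC hy β₁ c f₁ g₁ v₁ w₁ hβ₁ hf₁ hc₁ hg₁ hgc₁ h1x h1y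
    (by omega)
  obtain ⟨cx, -, cw⟩ := hCard V E G D φ e x y hC
  have cw1 := cw w₁ h1x h1y
  have cw2 := cw w₂ h2x h2y
  -- a common missing colour
  have hcard : 3 ≤ (G.miss φ x ∩ (G.miss φ w₁ ∩ G.miss φ w₂)).card := by
    have e1 := Finset.card_union_add_card_inter (G.miss φ w₁) (G.miss φ w₂)
    have e2 := Finset.card_union_add_card_inter (G.miss φ x) (G.miss φ w₁ ∩ G.miss φ w₂)
    have u1 : (G.miss φ w₁ ∪ G.miss φ w₂).card ≤ D := by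
      simpa using Finset.card_le_univ (G.miss φ w₁ ∪ G.miss φ w₂)
    have u2 : (G.miss φ x ∪ G.miss φ w₁ ∩ G.miss φ w₂).card ≤ D := by
      simpa using Finset.card_le_univ (G.miss φ x ∪ G.miss φ w₁ ∩ G.miss φ w₂)
    omega
  obtain ⟨γ, hγ, hγn⟩ : ∃ γ ∈ G.miss φ x ∩ (G.miss φ w₁ ∩ G.miss φ w₂),
      γ ∉ ({β₁, β₂} : Finset (Fin D)) := by
    apply Finset.exists_mem_notMem_of_card_lt_card
    have : ({β₁, β₂} : Finset (Fin D)).card ≤ 2 := Finset.card_le_two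
    omega
  rw [mem_inter, mem_inter, mem_miss, mem_miss, mem_miss] at hγ
  obtain ⟨hγx, hγ1, hγ2⟩ := hγ
  simp only [mem_insert, mem_singleton, not_or] at hγn
  obtain ⟨hγβ1, hγβ2⟩ := hγn
  have hβc1 : β₁ ≠ c := fun h => hcx (h ▸ hβ₁)
  have hβc2 : β₂ ≠ c := fun h => hcx (h ▸ hβ₂)
  -- the claim
  have claim : ∀ (β : Fin D) (f g : E) (v w : V), β ≠ c → γ ≠ β → G.Miss φ x β →
      G.ends f = s(y, v) → φ f = some β → G.ends g = s(v, w) → φ g = some c → w ≠ x → w ≠ y →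
      G.deg x + G.deg y + G.deg w ≤ 2 * D → (G.KG φ c γ).Reachable x w := by
    intro β f g v w hβc hγβ hβ hf hfβ hg hgc hwx hwy hd
    by_contra hr
    have hC' := hC.swap c γ x
    have h1 : G.Miss (G.swapC φ c γ x) x c := by
      rw [miss_swap_of_reach (SimpleGraph.Reachable.refl x), Equiv.swap_apply_left]
      exact hγx
    have h2 : G.Miss (G.swapC φ c γ x) x β := (miss_swap_of_ne hβc hγβ.symm).mpr hβ
    have h3 : G.swapC φ c γ x f = some β := swapC_some hfβ hβc hγβ.symm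
    have h4 : G.swapC φ c γ x g = some c := by
      rw [swapC_of_not_reach (mem_ends_right hg) hr, hgc]
    exact (hKd V E G D _ e x y hC' hy β c f g v w h2 hf h3 hg h4 hwx hwy hd).1 h1
  have r1 := claim β₁ f₁ g₁ v₁ w₁ hβc1 hγβ1 hβ₁ hf₁ hc₁ hg₁ hgc₁ h1x h1y (by omega)
  have r2 := claim β₂ f₂ g₂ v₂ w₂ hβc2 hγβ2 hβ₂ hf₂ hc₂ hg₂ hgc₂ h2x h2y (by omega)
  have hw : w₁ ≠ w₂ := by
    intro h
    have h1 : g₁ = g₂ := hC.proper g₁ g₂ w₁ c (mem_ends_right hg₁)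
      (by rw [h]; exact mem_ends_right hg₂) hgc₁ hgc₂
    have h2 : s(v₁, w₁) = s(v₂, w₁) := by
      rw [← hg₁, h1, hg₂, h]
    exact hv (Sym2.congr_left.mp h2)
  exact hEnd V E G D φ c γ hC.proper x w₁ w₂ h1x.symm h2x.symm hw r1 r2 (Or.inr hγx)
    (Or.inr hγ1) (Or.inr hγ2)

end Pool.Agent.Helper82.EC
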