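import Pool.Agent.Helper82.EC.Defs

/-!
# Edge colouring of multigraphs: basic lemmas on proper colourings and Kempe changes
-/

set_option autoImplicit false

open Finset
open scoped Classical

namespace Pool.Agent.Helper82.EC

namespace MGraph

variable {V E : Type} {G : MGraph V E}

/-! ### ends -/

theorem opp_spec {v : V} {f : E} (h : v ∈ G.ends f) : G.ends f = s(v, G.opp v f) := by
  unfold opp
  rw [dif_pos h]
  exact (Sym2.other_spec h).symm

theorem opp_eq {v u : V} {f : E} (h : G.ends f = s(v, u)) : G.opp v f = u := by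
  have hv : v ∈ G.ends f := by rw [h]; exact Sym2.mem_mk_left v u
  have h1 := opp_spec hv
  rw [h] at h1
  exact (Sym2.congr_right.mp h1).symm

theorem opp_mem {v : V} {f : E} (h : v ∈ G.ends f) : G.opp v f ∈ G.ends f := by
  rw [opp_spec h]; exact Sym2.mem_mk_right _ _

theorem ne_of_ends {u v : V} {f : E} (h : G.ends f = s(u, v)) : u ≠ v := by
  intro huv
  apply G.loopless f
  rw [h, huv]
  exact Sym2.mk_isDiag_iff.mpr rfl

theorem opp_ne {v : V} {f : E} (h : v ∈ G.ends f) : G.opp v f ≠ v :=
  (ne_of_ends (opp_spec h)).symm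

theorem opp_opp {v : V} {f : E} (h : v ∈ G.ends f) : G.opp (G.opp v f) f = v :=
  opp_eq (by rw [opp_spec h, Sym2.eq_swap])

theorem mem_ends_left {u v : V} {f : E} (h : G.ends f = s(u, v)) : u ∈ G.ends f := by
  rw [h]; exact Sym2.mem_mk_left _ _

theorem mem_ends_right {u v : V} {f : E} (h : G.ends f = s(u, v)) : v ∈ G.ends f := by
  rw [h]; exact Sym2.mem_mk_right _ _

theorem mem_ends_iff {u v w : V} {f : E} (h : G.ends f = s(u, v)) :
    w ∈ G.ends f ↔ w = u ∨ w = v := by
  rw [h]; exact Sym2.mem_iff

theorem mem_inc [Fintype E] {v : V} {f : E} : f ∈ G.inc v ↔ v ∈ G.ends f := by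
  unfold inc; simp

variable {D : ℕ}

theorem mem_miss {φ : E → Option (Fin D)} {v : V} {c : Fin D} :
    c ∈ G.miss φ v ↔ G.Miss φ v c := by
  unfold miss; simp

/-! ### changing the colour of one edge -/

theorem Proper.update_none {φ : E → Option (Fin D)} (h : G.Proper φ) (f : E) :
    G.Proper (Function.update φ f none) := by
  intro e₁ e₂ v c h1 h2 h3 h4
  by_cases he1 : e₁ = f
  · rw [he1, Function.update_self] at h3; exact absurd h3 (by simp)
  · by_cases he2 : e₂ = f
    · rw [he2, Function.update_self] at h4; exact absurd h4 (by simp)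
    · rw [Function.update_of_ne he1] at h3
      rw [Function.update_of_ne he2] at h4
      exact h e₁ e₂ v c h1 h2 h3 h4

/-- colour the edge `f` with `c` if no other edge at its ends has colour `c` -/
theorem Proper.update_some {φ : E → Option (Fin D)} (h : G.Proper φ) {f : E} {u v : V}
    (hf : G.ends f = s(u, v)) {c : Fin D}
    (hu : ∀ g, g ≠ f → u ∈ G.ends g → φ g ≠ some c)
    (hv : ∀ g, g ≠ f → v ∈ G.ends g → φ g ≠ some c) :
    G.Proper (Function.update φ f (some c)) := by
  intro e₁ e₂ w c' h1 h2 h3 h4
  by_cases he1 : e₁ = f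
  · by_cases he2 : e₂ = f
    · rw [he1, he2]
    · rw [he1, Function.update_self] at h3
      rw [Function.update_of_ne he2] at h4
      have hc : c' = c := (Option.some_injective _ h3).symm
      rw [he1, mem_ends_iff hf] at h1
      rcases h1 with h1 | h1
      · exact absurd (hc ▸ h4) (hu e₂ he2 (h1 ▸ h2))
      · exact absurd (hc ▸ h4) (hv e₂ he2 (h1 ▸ h2))
  · by_cases he2 : e₂ = f
    · rw [he2, Function.update_self] at h4
      rw [Function.update_of_ne he1] at h3
      have hc : c' = c := (Option.some_injective _ h4).symm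
      rw [he2, mem_ends_iff hf] at h2
      rcases h2 with h2 | h2
      · exact absurd (hc ▸ h3) (hu e₁ he1 (h2 ▸ h1))
      · exact absurd (hc ▸ h3) (hv e₁ he1 (h2 ▸ h1))
    · rw [Function.update_of_ne he1] at h3
      rw [Function.update_of_ne he2] at h4
      exact h e₁ e₂ w c' h1 h2 h3 h4

/-- the same with `Miss` -/
theorem Proper.update_miss {φ : E → Option (Fin D)} (h : G.Proper φ) {f : E} {u v : V}
    (hf : G.ends f = s(u, v)) {c : Fin D} (hu : G.Miss φ u c) (hv : G.Miss φ v c) :
    G.Proper (Function.update φ f (some c)) :=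
  h.update_some hf (fun g _ hg => hu g hg) (fun g _ hg => hv g hg)

/-- `Miss` after changing the colour of an edge to `c'` -/
theorem miss_update_some {φ : E → Option (Fin D)} {f : E} {c' c : Fin D} {v : V} (hc : c ≠ c')
    (h : ∀ g, g ≠ f → v ∈ G.ends g → φ g ≠ some c) :
    G.Miss (Function.update φ f (some c')) v c := by
  intro g hg
  by_cases hgf : g = f
  · rw [hgf, Function.update_self]
    intro h'; exact hc (Option.some_injective _ h').symm
  · rw [Function.update_of_ne hgf]; exact h g hgf hg

theorem miss_update_none {φ : E → Option (Fin D)} {f : E} {c : Fin D} {v : V}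
    (h : ∀ g, g ≠ f → v ∈ G.ends g → φ g ≠ some c) :
    G.Miss (Function.update φ f none) v c := by
  intro g hg
  by_cases hgf : g = f
  · rw [hgf, Function.update_self]; simp
  · rw [Function.update_of_ne hgf]; exact h g hgf hg

/-- `Miss` at a vertex that is not an end of the changed edge -/
theorem miss_update_off {φ : E → Option (Fin D)} {f : E} {o : Option (Fin D)} {c : Fin D} {v : V}
    (hv : v ∉ G.ends f) : G.Miss (Function.update φ f o) v c ↔ G.Miss φ v c := by
  constructor
  · intro h g hg
    have hgf : g ≠ f := fun h' => hv (h' ▸ hg)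
    have := h g hg
    rwa [Function.update_of_ne hgf] at this
  · intro h g hg
    have hgf : g ≠ f := fun h' => hv (h' ▸ hg)
    rw [Function.update_of_ne hgf]; exact h g hg

/-- if a vertex misses `c` before and the edge does not get the colour `c`, it misses `c` after -/
theorem Miss.update {φ : E → Option (Fin D)} {v : V} {c : Fin D} (h : G.Miss φ v c) {f : E}
    {o : Option (Fin D)} (ho : o ≠ some c) : G.Miss (Function.update φ f o) v c := by
  intro g hg
  by_cases hgf : g = f
  · rw [hgf, Function.update_self]; exact ho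
  · rw [Function.update_of_ne hgf]; exact h g hg

/-- in a proper colouring the other edges at the end of an edge `f` of colour `c` do not have
colour `c` -/
theorem Proper.other {φ : E → Option (Fin D)} (h : G.Proper φ) {f : E} {c : Fin D}
    (hf : φ f = some c) {v : V} (hv : v ∈ G.ends f) :
    ∀ g, g ≠ f → v ∈ G.ends g → φ g ≠ some c :=
  fun g hg hvg hgc => hg (h g f v c hvg hv hgc hf)

/-! ### Kempe changes -/

theorem KG_adj_of {φ : E → Option (Fin D)} {a b : Fin D} {f : E} {u v : V}
    (hf : G.ends f = s(u, v)) (hc : φ f = some a ∨ φ f = some b) : (G.KG φ a b).Adj u v :=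
  ⟨ne_of_ends hf, f, hf, hc⟩

/-- both ends of an edge coloured `a` or `b` are in the same component -/
theorem reach_ends {φ : E → Option (Fin D)} {a b : Fin D} {f : E} {u v w : V}
    (hu : u ∈ G.ends f) (hv : v ∈ G.ends f) (hc : φ f = some a ∨ φ f = some b)
    (h : (G.KG φ a b).Reachable w u) : (G.KG φ a b).Reachable w v := by
  by_cases huv : u = v
  · rw [← huv]; exact h
  · have hf : G.ends f = s(u, v) := by
      have h1 := opp_spec hu
      rw [h1] at hv
      rcases Sym2.mem_iff.mp hv with h2 | h2
      · exact absurd h2.symm huv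
      · rw [h1, h2]
    exact h.trans (KG_adj_of hf hc).reachable

/-- colour of an edge with an end in the component -/
theorem swapC_of_reach {φ : E → Option (Fin D)} {a b : Fin D} {w v : V} {f : E}
    (hv : v ∈ G.ends f) (h : (G.KG φ a b).Reachable w v) :
    G.swapC φ a b w f = (φ f).map (Equiv.swap a b) := by
  unfold swapC
  rw [if_pos ⟨v, hv, h⟩]

/-- colour of an edge that is coloured neither `a` nor `b` -/
theorem swapC_of_ne {φ : E → Option (Fin D)} {a b : Fin D} {w : V} {f : E}
    (ha : φ f ≠ some a) (hb : φ f ≠ some b) : G.swapC φ a b w f = φ f := by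
  unfold swapC
  split_ifs with h
  · cases hφ : φ f with
    | none => rfl
    | some c =>
      rw [hφ] at ha hb
      have h1 : c ≠ a := fun h' => ha (by rw [h'])
      have h2 : c ≠ b := fun h' => hb (by rw [h'])
      simp only [Option.map_some]
      rw [Equiv.swap_apply_of_ne_of_ne h1 h2]
  · rfl

/-- colour of an edge with an end outside the component -/
theorem swapC_of_not_reach {φ : E → Option (Fin D)} {a b : Fin D} {w v : V} {f : E}
    (hv : v ∈ G.ends f) (h : ¬ (G.KG φ a b).Reachable w v) : G.swapC φ a b w f = φ f := by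
  by_cases hc : φ f = some a ∨ φ f = some b
  · unfold swapC
    rw [if_neg]
    rintro ⟨u, hu, hwu⟩
    exact h (reach_ends hu hv hc hwu)
  · exact swapC_of_ne (fun h' => hc (Or.inl h')) (fun h' => hc (Or.inr h'))

theorem swapC_some {φ : E → Option (Fin D)} {a b : Fin D} {w : V} {f : E} {c : Fin D}
    (hf : φ f = some c) (ha : c ≠ a) (hb : c ≠ b) : G.swapC φ a b w f = some c := by
  rw [swapC_of_ne, hf]
  · rw [hf]; intro h; exact ha (Option.some_injective _ h)
  · rw [hf]; intro h; exact hb (Option.some_injective _ h)

theorem swapC_eq_none {φ : E → Option (Fin D)} {a b : Fin D} {w : V} {f : E} :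
    G.swapC φ a b w f = none ↔ φ f = none := by
  unfold swapC
  split_ifs <;> simp

/-- `Miss` at a vertex of the component -/
theorem miss_swap_of_reach {φ : E → Option (Fin D)} {a b : Fin D} {w v : V} {c : Fin D}
    (h : (G.KG φ a b).Reachable w v) :
    G.Miss (G.swapC φ a b w) v c ↔ G.Miss φ v (Equiv.swap a b c) := by
  constructor
  · intro h1 f hf hfc
    apply h1 f hf
    rw [swapC_of_reach hf h, hfc]
    simp
  · intro h1 f hf hfc
    rw [swapC_of_reach hf h] at hfc
    apply h1 f hf
    cases hφ : φ f with
    | none => rw [hφ] at hfc; simp at hfc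
    | some d =>
      rw [hφ] at hfc
      simp only [Option.map_some] at hfc
      have := Option.some_injective _ hfc
      rw [← this, Equiv.swap_apply_self]

/-- `Miss` at a vertex outside the component -/
theorem miss_swap_of_not_reach {φ : E → Option (Fin D)} {a b : Fin D} {w v : V} {c : Fin D}
    (h : ¬ (G.KG φ a b).Reachable w v) :
    G.Miss (G.swapC φ a b w) v c ↔ G.Miss φ v c := by
  constructor
  · intro h1 f hf hfc
    apply h1 f hf
    rw [swapC_of_not_reach hf h, hfc]
  · intro h1 f hf hfc
    rw [swapC_of_not_reach hf h] at hfc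
    exact h1 f hf hfc

/-- `Miss` for a third colour -/
theorem miss_swap_of_ne {φ : E → Option (Fin D)} {a b : Fin D} {w v : V} {c : Fin D}
    (ha : c ≠ a) (hb : c ≠ b) :
    G.Miss (G.swapC φ a b w) v c ↔ G.Miss φ v c := by
  by_cases h : (G.KG φ a b).Reachable w v
  · rw [miss_swap_of_reach h, Equiv.swap_apply_of_ne_of_ne ha hb]
  · exact miss_swap_of_not_reach h

/-- `Miss` at a vertex that sees both colours -/
theorem miss_swap_of_seen {φ : E → Option (Fin D)} {a b : Fin D} {w v : V} {c : Fin D}
    (ha : ¬ G.Miss φ v a) (hb : ¬ G.Miss φ v b) :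
    G.Miss (G.swapC φ a b w) v c ↔ G.Miss φ v c := by
  by_cases hca : c = a
  · by_cases h : (G.KG φ a b).Reachable w v
    · rw [miss_swap_of_reach h, hca, Equiv.swap_apply_left]
      exact ⟨fun h' => absurd h' hb, fun h' => absurd h' ha⟩
    · exact miss_swap_of_not_reach h
  · by_cases hcb : c = b
    · by_cases h : (G.KG φ a b).Reachable w v
      · rw [miss_swap_of_reach h, hcb, Equiv.swap_apply_right]
        exact ⟨fun h' => absurd h' ha, fun h' => absurd h' hb⟩
      · exact miss_swap_of_not_reach h
    · exact miss_swap_of_ne hca hcb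

theorem Proper.swap {φ : E → Option (Fin D)} (h : G.Proper φ) (a b : Fin D) (w : V) :
    G.Proper (G.swapC φ a b w) := by
  intro e f v c he hf hec hfc
  by_cases hr : (G.KG φ a b).Reachable w v
  · rw [swapC_of_reach he hr] at hec
    rw [swapC_of_reach hf hr] at hfc
    cases h1 : φ e with
    | none => rw [h1] at hec; simp at hec
    | some c1 =>
      cases h2 : φ f with
      | none => rw [h2] at hfc; simp at hfc
      | some c2 =>
        rw [h1] at hec; rw [h2] at hfc
        simp only [Option.map_some] at hec hfc
        have h3 : Equiv.swap a b c1 = Equiv.swap a b c2 :=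
          (Option.some_injective _ hec).trans (Option.some_injective _ hfc).symm
        have h4 : c1 = c2 := (Equiv.swap a b).injective h3
        exact h e f v c1 he hf h1 (by rw [h2, h4])
  · rw [swapC_of_not_reach he hr] at hec
    rw [swapC_of_not_reach hf hr] at hfc
    exact h e f v c he hf hec hfc

/-! ### critical colourings -/

theorem Crit.symm {φ : E → Option (Fin D)} {e : E} {x y : V} (h : G.Crit D φ e x y) :
    G.Crit D φ e y x :=
  ⟨by rw [h.ends_eq, Sym2.eq_swap], h.proper, h.unc, h.col, h.nocol⟩

theorem Crit.ne {φ : E → Option (Fin D)} {e : E} {x y : V} (h : G.Crit D φ e x y) : x ≠ y :=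
  ne_of_ends h.ends_eq

/-- a proper colouring with all edges coloured does not exist -/
theorem Crit.absurd {φ : E → Option (Fin D)} {e : E} {x y : V} (h : G.Crit D φ e x y)
    {ψ : E → Option (Fin D)} (hψ : G.Proper ψ) (hall : ∀ f, ψ f ≠ none) : False :=
  h.nocol ⟨ψ, hψ, hall⟩

/-- no colour is missing at both ends of the uncoloured edge -/
theorem Crit.disj {φ : E → Option (Fin D)} {e : E} {x y : V} (h : G.Crit D φ e x y) {c : Fin D}
    (hx : G.Miss φ x c) (hy : G.Miss φ y c) : False := by
  refine h.absurd (h.proper.update_miss h.ends_eq hx hy) ?_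
  intro f
  by_cases hf : f = e
  · rw [hf, Function.update_self]; simp
  · rw [Function.update_of_ne hf]; exact h.col f hf

/-- Kempe changes preserve `Crit` -/
theorem Crit.swap {φ : E → Option (Fin D)} {e : E} {x y : V} (h : G.Crit D φ e x y) (a b : Fin D)
    (w : V) : G.Crit D (G.swapC φ a b w) e x y where
  ends_eq := h.ends_eq
  proper := h.proper.swap a b w
  unc := swapC_eq_none.mpr h.unc
  col := fun f hf h' => h.col f hf (swapC_eq_none.mp h')
  nocol := h.nocol

/-- if `a` is missing at `y` and `b` at `x`, then `x` and `y` are in the same component of the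
graph of the colours `a`, `b` -/
theorem Crit.link {φ : E → Option (Fin D)} {e : E} {x y : V} (h : G.Crit D φ e x y) {a b : Fin D}
    (hy : G.Miss φ y a) (hx : G.Miss φ x b) : (G.KG φ a b).Reachable x y := by
  by_contra hr
  have h1 : G.Miss (G.swapC φ a b x) x a := by
    rw [miss_swap_of_reach (SimpleGraph.Reachable.refl x), Equiv.swap_apply_left]
    exact hx
  have h2 : G.Miss (G.swapC φ a b x) y a := (miss_swap_of_not_reach hr).mpr hy
  exact (h.swap a b x).disj h1 h2

/-- move the uncoloured edge: if the edge `f` from `y` to `v` has the colour `β` missing at `x`,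
then `e` can be coloured `β` and `f` uncoloured -/
theorem Crit.shift {φ : E → Option (Fin D)} {e : E} {x y : V} (h : G.Crit D φ e x y) {f : E}
    {v : V} {β : Fin D} (hf : G.ends f = s(y, v)) (hfβ : φ f = some β) (hx : G.Miss φ x β) :
    G.Crit D (Function.update (Function.update φ f none) e (some β)) f v y := by
  have hef : e ≠ f := by
    intro h'; rw [← h', h.unc] at hfβ; simp at hfβ
  have hyf : y ∈ G.ends f := mem_ends_left hf
  refine ⟨by rw [hf, Sym2.eq_swap], ?_, ?_, ?_, h.nocol⟩
  · apply (h.proper.update_none f).update_miss h.ends_eq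
    · exact hx.update (by simp)
    · exact miss_update_none (h.proper.other hfβ hyf)
  · rw [Function.update_of_ne hef.symm, Function.update_self]
  · intro g hg
    by_cases hge : g = e
    · rw [hge, Function.update_self]; simp
    · rw [Function.update_of_ne hge, Function.update_of_ne hg]; exact h.col g hge

end MGraph

end Pool.Agent.Helper82.EC
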