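import Pool.Agent.Helper82.EC.St
import Pool.Agent.Helper82.EC.Basic

/-!
# MP_47b98d_co : counts at a rich vertex with a small neighbour (module Ac)
-/

set_option autoImplicit false

open Finset
open scoped Classical

namespace Pool.Agent.Helper82.EC

open MGraph

section Ac

variable {V E : Type} [Fintype V] [Fintype E] {G : MGraph V E} {D μ : ℕ}

omit [Fintype V] in
/-- the edges joining `u` and `v`, seen from `v` -/
theorem Ac_mult_eq (u v : V) :
    (univ.filter fun f => G.ends f = s(u, v)) = (G.inc v).filter fun f => G.opp v f = u := by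
  ext f
  simp only [mem_filter, mem_univ, true_and]
  constructor
  · intro h
    have h' : G.ends f = s(v, u) := by rw [h, Sym2.eq_swap]
    exact ⟨mem_inc.mpr (mem_ends_left h'), opp_eq h'⟩
  · rintro ⟨h1, h2⟩
    rw [opp_spec (mem_inc.mp h1), h2, Sym2.eq_swap]

/-- poor vertices form `P0` -/
theorem Ac_mem_P0 (dt : Data G D μ) (p : V) : p ∈ dt.P0 ↔ ¬ dt.Rich p := by
  unfold Data.P0 Data.Rich
  simp

/-- number of poor edges, split at a poor vertex `x` -/
theorem Ac_mm_split (dt : Data G D μ) (w x : V) (hx : ¬ dt.Rich x) :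
    G.degTo w (dt.P0.erase x) + G.mult x w = dt.mm w := by
  unfold MGraph.degTo MGraph.mult Data.mm
  rw [Ac_mult_eq x w, ← card_union_of_disjoint]
  · congr 1
    ext f
    simp only [mem_union, mem_filter, mem_erase, Ac_mem_P0]
    constructor
    · rintro (⟨h1, _, h3⟩ | ⟨h1, h2⟩)
      · exact ⟨h1, h3⟩
      · exact ⟨h1, by rw [h2]; exact hx⟩
    · rintro ⟨h1, h2⟩
      by_cases h : G.opp w f = x
      · exact Or.inr ⟨h1, h⟩
      · exact Or.inl ⟨h1, h, h2⟩
  · rw [disjoint_left]
    intro f h1 h2
    simp only [mem_filter, mem_erase] at h1 h2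
    exact h1.2.1 h2.2

omit [Fintype V] in
/-- the edges from `x` to different vertices are different edges at `x` -/
theorem Ac_sum_mult_le (x : V) (T : Finset V) : ∑ v ∈ T, G.mult x v ≤ G.deg x := by
  have h : ∑ v ∈ T, G.mult x v =
      (T.biUnion fun v => univ.filter fun f => G.ends f = s(x, v)).card := by
    rw [card_biUnion]
    · rfl
    · intro v _ v' _ hvv
      rw [Function.onFun, disjoint_left]
      intro f h1 h2
      simp only [mem_filter, mem_univ, true_and] at h1 h2
      rw [h1] at h2
      exact hvv (Sym2.congr_right.mp h2)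
  rw [h]
  unfold MGraph.deg
  apply card_le_card
  intro f hf
  simp only [mem_biUnion, mem_filter, mem_univ, true_and] at hf
  obtain ⟨v, _, hv⟩ := hf
  exact mem_inc.mpr (mem_ends_left hv)

end Ac

theorem stAc : StAc := by
  intro V E _ _ G D μ dt hD w hR hS
  have hfan := dt.fan w
  set x := dt.xx w with hxdef
  set F := dt.FF w with hFdef
  have hRw : 2 * D + 2 ≤ 3 * G.deg w := hR
  have hSs : 3 * G.deg x ≤ D := hS
  have hw := dt.deg_le w
  have hx : ¬ dt.Rich x := by
    unfold Data.Rich
    omega
  have hsum := hfan.sum_le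
  -- every vertex of the image has small deficiency
  have hdef : ∀ v ∈ F.image (G.opp w), D - G.deg v + D + 2 ≤ G.deg x + G.deg w := by
    intro v hv
    have := single_le_sum (f := fun v => D - G.deg v) (fun i _ => Nat.zero_le _) hv
    omega
  have h1 : ∀ f ∈ F, dt.Rich (G.opp w f) := by
    intro f hf
    have := hdef _ (mem_image_of_mem _ hf)
    unfold Data.Rich
    omega
  -- the edges at `w`
  have hcard : F.card + dt.mm w + dt.jj w = G.deg w := by
    have e1 := card_filter_add_card_filter_not (s := G.inc w) (fun f => ¬ dt.Rich (G.opp w f))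
    have e2 := card_filter_add_card_filter_not
      (s := (G.inc w).filter fun f => ¬ ¬ dt.Rich (G.opp w f)) (fun f => f ∈ F)
    have e3 : (((G.inc w).filter fun f => ¬ ¬ dt.Rich (G.opp w f)).filter fun f => f ∈ F) = F := by
      ext f
      simp only [mem_filter, not_not]
      constructor
      · rintro ⟨_, h⟩; exact h
      · intro h; exact ⟨⟨hfan.sub h, h1 f h⟩, h⟩
    have e4 : (((G.inc w).filter fun f => ¬ ¬ dt.Rich (G.opp w f)).filter fun f => ¬ f ∈ F) =
        (G.inc w).filter fun f => f ∉ F ∧ dt.Rich (G.opp w f) := by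
      ext f
      simp only [mem_filter, not_not]
      tauto
    rw [e3, e4] at e2
    unfold MGraph.deg Data.mm Data.jj
    rw [← hFdef]
    omega
  have hF := hfan.card_eq
  have h2 : dt.mm w + dt.jj w + (D - G.deg w) + 1 = G.deg x := by omega
  have hsplit := Ac_mm_split dt w x hx
  have h3 : 1 ≤ G.mult x w := by
    unfold MGraph.mult
    rw [Nat.succ_le_iff, card_pos]
    exact ⟨dt.ee w, by simp only [mem_filter, mem_univ, true_and]; exact dt.ends_eq w⟩
  have h4 : G.mult x w ≤ dt.mm w := by omega
  have hwP : w ∉ dt.P0 := by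
    rw [Ac_mem_P0]; simpa using hR
  have hPle : ∀ p ∈ dt.P0, G.deg x + G.deg p ≤ D := by
    intro p hp
    rw [Ac_mem_P0] at hp
    unfold Data.Rich at hp
    omega
  have hcnt := hfan.cnt dt.P0 hwP hPle
  have hcntS := hfan.cntS dt.P0 dt.S0 (by
      intro p hp
      unfold Data.S0 at hp
      rw [Ac_mem_P0]
      unfold Data.Rich
      simp only [mem_filter, mem_univ, true_and] at hp
      omega) hwP hPle (by
      intro p hp q hq
      unfold Data.S0 at hp hq
      simp only [mem_filter, mem_univ, true_and] at hp hq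
      omega)
  refine ⟨h1, h2, h3, h4, ?_, ?_, ?_, ?_, ?_⟩
  · intro v hv
    have := hcnt v hv
    omega
  · omega
  · have hwn : w ∉ F.image (G.opp w) := by
      intro h
      rw [mem_image] at h
      obtain ⟨f, hf, hfw⟩ := h
      exact opp_ne (mem_inc.mp (hfan.sub hf)) hfw
    have := Ac_sum_mult_le (G := G) x (insert w (F.image (G.opp w)))
    rw [sum_insert hwn] at this
    omega
  · omega
  · intro v hv hlt
    have h0 : G.mult x v = 0 := by
      unfold MGraph.mult
      rw [card_eq_zero, filter_eq_empty_iff]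
      intro f _ hf
      have hf' : G.ends f = s(v, x) := by rw [hf, Sym2.eq_swap]
      have := dt.min_deg v f (mem_inc.mpr (mem_ends_left hf'))
      rw [opp_eq hf'] at this
      omega
    have hsp := Ac_mm_split dt v x hx
    have := hcnt v hv
    omega

end Pool.Agent.Helper82.EC
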