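import Pool.Agent.Helper82.EC.St

/-!
# MP_47b98d_co : double counting over the darts
-/

set_option autoImplicit false

open Finset
open scoped Classical

namespace Pool.Agent.Helper82.EC

open MGraph

theorem M_Dart_opp_eq {V E : Type} (G : MGraph V E) {v : V} {f : E} (h : v ∈ G.ends f) :
    G.opp v f = Sym2.Mem.other h := by
  unfold MGraph.opp
  rw [dif_pos h]

theorem M_Dart_opp_mem {V E : Type} (G : MGraph V E) {v : V} {f : E} (h : v ∈ G.ends f) :
    G.opp v f ∈ G.ends f := by
  rw [M_Dart_opp_eq G h]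
  exact Sym2.other_mem h

theorem M_Dart_opp_opp {V E : Type} (G : MGraph V E) {v : V} {f : E} (h : v ∈ G.ends f) :
    G.opp (G.opp v f) f = v := by
  have h2 := M_Dart_opp_mem G h
  rw [M_Dart_opp_eq G h2]
  have h3 : s(v, G.opp v f) = G.ends f := by
    rw [M_Dart_opp_eq G h]
    exact Sym2.other_spec h
  have h4 : s(G.opp v f, Sym2.Mem.other h2) = G.ends f := Sym2.other_spec h2
  exact Sym2.congr_right.1 (h4.trans (h3.symm.trans Sym2.eq_swap))

theorem stDart : StDart := by
  intro V E _ _ G q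
  have h1 := Finset.sum_sigma' (univ : Finset V) (fun v => G.inc v) (fun v f => q v f)
  have h2 := Finset.sum_sigma' (univ : Finset V) (fun v => G.inc v)
    (fun v f => q (G.opp v f) f)
  rw [h1, h2]
  have hm : ∀ x : (_ : V) × E, x ∈ (univ : Finset V).sigma (fun v => G.inc v) ↔
      x.1 ∈ G.ends x.2 := by
    intro x
    simp only [mem_sigma, mem_univ, true_and, MGraph.inc, mem_filter]
  refine Finset.sum_nbij' (fun x => ⟨G.opp x.1 x.2, x.2⟩) (fun x => ⟨G.opp x.1 x.2, x.2⟩)
    ?_ ?_ ?_ ?_ ?_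
  · intro x hx
    rw [hm] at hx ⊢
    exact M_Dart_opp_mem G hx
  · intro x hx
    rw [hm] at hx ⊢
    exact M_Dart_opp_mem G hx
  · intro x hx
    rw [hm] at hx
    obtain ⟨v, f⟩ := x
    simp only [Sigma.mk.injEq, heq_eq_eq, and_true]
    exact M_Dart_opp_opp G hx
  · intro x hx
    rw [hm] at hx
    obtain ⟨v, f⟩ := x
    simp only [Sigma.mk.injEq, heq_eq_eq, and_true]
    exact M_Dart_opp_opp G hx
  · intro x hx
    rw [hm] at hx
    show q x.1 x.2 = q (G.opp (G.opp x.1 x.2) x.2) x.2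
    rw [M_Dart_opp_opp G hx]

end Pool.Agent.Helper82.EC
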