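import Pool.Agent.Helper82.EC.St

/-!
# MP_47b98d_co : module Debt
-/

set_option autoImplicit false

open Finset
open scoped Classical

namespace Pool.Agent.Helper82.EC

open MGraph

namespace DebtAux

variable {V E : Type} [Fintype V] [Fintype E] {G : MGraph V E} {D μ : ℕ}

lemma one_le_gg {D s : ℕ} (hs : 1 ≤ s) (h3 : 3 * s ≤ D) : 1 ≤ gg D s := by
  unfold gg
  have hs' : (1 : ℝ) ≤ s := by exact_mod_cast hs
  have h3' : 3 * (s : ℝ) ≤ D := by exact_mod_cast h3
  have : 2 ≤ (2 * (D : ℝ) + 2) / (3 * s) := by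
    rw [le_div_iff₀ (by positivity)]
    linarith
  linarith

lemma gg_anti {D s p : ℕ} (hs : 1 ≤ s) (h : s ≤ p) : gg D p ≤ gg D s := by
  unfold gg
  have hs' : (1 : ℝ) ≤ s := by exact_mod_cast hs
  have h' : (s : ℝ) ≤ p := by exact_mod_cast h
  have : (2 * (D : ℝ) + 2) / (3 * p) ≤ (2 * (D : ℝ) + 2) / (3 * s) := by
    apply div_le_div_of_nonneg_left (by positivity) (by positivity)
    linarith
  linarith

lemma al_le_one (D : ℕ) : al D ≤ 1 := by
  unfold al
  rcases Nat.eq_zero_or_pos D with h | h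
  · subst h; simp
  · have h' : (1 : ℝ) ≤ D := by exact_mod_cast h
    rw [div_le_one (by positivity)]
    linarith

lemma ph_nonneg {D s : ℕ} (hs : 1 ≤ s) (h3 : 3 * s ≤ D) : 0 ≤ ph D s := by
  unfold ph
  have h1 := one_le_gg hs h3
  have h2 := al_le_one D
  have h3' : 3 * (s : ℝ) ≤ D := by exact_mod_cast h3
  have hs' : (1 : ℝ) ≤ s := by exact_mod_cast hs
  apply div_nonneg <;> linarith

lemma om_nonneg (D : ℕ) : 0 ≤ om D := by
  unfold om
  split_ifs <;> positivity

/-- the payments of a rich vertex with a small neighbour -/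
lemma Q_le (dt : Data G D μ) (w : V) (hR : dt.Rich w) (hS : dt.Sm w)
    (hs : 1 ≤ G.deg (dt.xx w)) : dt.Q w ≤ dt.mm w * gg D (G.deg (dt.xx w)) := by
  unfold Data.Q Data.mm
  rw [← nsmul_eq_mul, ← Finset.sum_const, Finset.sum_filter]
  apply Finset.sum_le_sum
  intro f hf
  have hR' : 2 * D + 2 ≤ 3 * G.deg w := hR
  have hS' : 3 * G.deg (dt.xx w) ≤ D := hS
  by_cases hr : dt.Rich (G.opp w f)
  · have hr' : ¬ (3 * G.deg (G.opp w f) < 2 * D + 2) := by
      have : 2 * D + 2 ≤ 3 * G.deg (G.opp w f) := hr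
      omega
    rw [if_neg (by simpa using hr)]
    unfold pay
    rw [if_neg (by tauto)]
  · have hr' : 3 * G.deg (G.opp w f) < 2 * D + 2 := by
      have : ¬ (2 * D + 2 ≤ 3 * G.deg (G.opp w f)) := hr
      omega
    rw [if_pos hr]
    unfold pay
    rw [if_pos ⟨hR', hr'⟩]
    have hmin := dt.min_deg w f hf
    split_ifs with h3
    · exact gg_anti hs hmin
    · refine le_trans ?_ (one_le_gg hs hS')
      have h3' : (D : ℝ) + 1 ≤ 3 * G.deg (G.opp w f) := by
        have : D + 1 ≤ 3 * G.deg (G.opp w f) := by omega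
        exact_mod_cast this
      have hR'' : 2 * (D : ℝ) + 2 ≤ 3 * G.deg w := by exact_mod_cast hR'
      apply div_le_one_of_le₀ <;> linarith

/-- summation over a fan -/
lemma sum_fan_le (dt : Data G D μ) (w : V) (g : V → ℝ) (hg : ∀ v, 0 ≤ g v) :
    ∑ f ∈ dt.FF w, g (G.opp w f) ≤ μ * ∑ v ∈ (dt.FF w).image (G.opp w), g v := by
  rw [← Finset.sum_fiberwise_of_maps_to (s := dt.FF w) (t := (dt.FF w).image (G.opp w))
    (g := G.opp w) (fun f hf => Finset.mem_image_of_mem _ hf), Finset.mul_sum]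
  apply Finset.sum_le_sum
  intro v _
  have h1 : ∑ f ∈ (dt.FF w).filter (fun f => G.opp w f = v), g (G.opp w f) =
      ((dt.FF w).filter (fun f => G.opp w f = v)).card * g v := by
    rw [← nsmul_eq_mul, ← Finset.sum_const]
    apply Finset.sum_congr rfl
    intro f hf
    rw [(Finset.mem_filter.1 hf).2]
  rw [h1]
  apply mul_le_mul_of_nonneg_right _ (hg v)
  have h2 : ((dt.FF w).filter (fun f => G.opp w f = v)).card ≤ G.mult w v := by
    apply Finset.card_le_card
    intro f hf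
    rw [Finset.mem_filter] at hf
    rw [Finset.mem_filter]
    refine ⟨Finset.mem_univ _, ?_⟩
    have h3 : w ∈ G.ends f := by
      have := (dt.fan w).sub hf.1
      simpa [MGraph.inc] using this
    have h4 := hf.2
    unfold MGraph.opp at h4
    rw [dif_pos h3] at h4
    rw [← h4]
    exact (Sym2.other_spec h3).symm
  exact_mod_cast h2.trans (dt.mult_le w v)

end DebtAux

open DebtAux

theorem stDebt (hAc : StAc) (hLoss : StLoss) : StDebt := by
  intro V E _ _ G D μ dt X hD hμ hFI w hR hS hsp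
  obtain ⟨-, A2, A3, A4, A5, A6, A7, A8, -⟩ := hAc V E G D μ dt (by omega) w hR hS
  have hL := hLoss V E G D μ dt hD hμ w hR hS
  set x := dt.xx w with hx
  set s := G.deg x with hs
  set m := dt.mm w with hm
  set j := dt.jj w with hj
  set wm := G.mult x w with hwm
  have hs1 : 1 ≤ s := by omega
  have h3s : 3 * s ≤ D := hS
  have hdw : G.deg w ≤ D := dt.deg_le w
  have hDr : (9 : ℝ) ≤ D := by exact_mod_cast hD
  obtain ⟨t, ht⟩ : ∃ t, D = G.deg w + t := ⟨D - G.deg w, by omega⟩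
  have ht' : D - G.deg w = t := by omega
  have htr : (D : ℝ) - G.deg w = t := by
    have : (D : ℝ) = G.deg w + t := by exact_mod_cast ht
    linarith
  have hQ := Q_le dt w hR hS hs1
  have hspare : dt.spare w = ((D : ℝ) - 2) / 3 - (dt.Q w + t) - al D * j := by
    unfold Data.spare
    rw [if_pos hS, htr]
  have hph := ph_nonneg (D := D) hs1 h3s
  have hom := om_nonneg D
  have hcard : ((dt.FF w).card : ℝ) = (D : ℝ) - s + 1 := by
    have h1 := (dt.fan w).card_eq
    have h2 : ((dt.FF w).card : ℝ) + s = D + 1 := by exact_mod_cast h1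
    linarith
  have hjw : 1 ≤ j + wm := by omega
  -- the four sums
  have hS1 : ∑ f ∈ dt.FF w, om D * G.degTo (G.opp w f) (dt.P0.erase x) ≤
      om D * ((D : ℝ) - s + 1) * ((j : ℝ) - 1 + wm) := by
    have : ∑ f ∈ dt.FF w, om D * G.degTo (G.opp w f) (dt.P0.erase x) ≤
        ∑ f ∈ dt.FF w, om D * ((j : ℝ) - 1 + wm) := by
      apply Finset.sum_le_sum
      intro f hf
      apply mul_le_mul_of_nonneg_left _ hom
      have h1 := A5 (G.opp w f) (Finset.mem_image_of_mem _ hf)
      have h2 : (G.degTo (G.opp w f) (dt.P0.erase x) : ℝ) + 1 ≤ j + wm := by exact_mod_cast h1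
      linarith
    rw [Finset.sum_const, nsmul_eq_mul, hcard] at this
    linarith
  have hS2 : ∑ f ∈ dt.FF w, (G.degTo (G.opp w f) (dt.S0.erase x) : ℝ) ≤
      μ * ((j : ℝ) - 1 + wm) := by
    refine (sum_fan_le dt w (fun v => (G.degTo v (dt.S0.erase x) : ℝ))
      (fun v => Nat.cast_nonneg _)).trans ?_
    apply mul_le_mul_of_nonneg_left _ (Nat.cast_nonneg _)
    have h2 : ∑ v ∈ (dt.FF w).image (G.opp w), (G.degTo v (dt.S0.erase x) : ℝ) + 1 ≤ j + wm := by
      exact_mod_cast A6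
    linarith
  have hS3 : ∑ f ∈ dt.FF w, (G.mult x (G.opp w f) : ℝ) ≤ μ * ((s : ℝ) - wm) := by
    refine (sum_fan_le dt w (fun v => (G.mult x v : ℝ)) (fun v => Nat.cast_nonneg _)).trans ?_
    apply mul_le_mul_of_nonneg_left _ (Nat.cast_nonneg _)
    have h2 : ∑ v ∈ (dt.FF w).image (G.opp w), (G.mult x v : ℝ) + wm ≤ s := by
      exact_mod_cast A7
    linarith
  have hS4 : ∑ f ∈ dt.FF w, ((D : ℝ) - G.deg (G.opp w f)) ≤ μ * ((s : ℝ) - 2 - t) := by
    refine (sum_fan_le dt w (fun v => (D : ℝ) - G.deg v) (fun v => ?_)).trans ?_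
    · have : (G.deg v : ℝ) ≤ D := by exact_mod_cast dt.deg_le v
      linarith
    apply mul_le_mul_of_nonneg_left _ (Nat.cast_nonneg _)
    have h1 : ∑ v ∈ (dt.FF w).image (G.opp w), ((D : ℝ) - G.deg v) =
        ((∑ v ∈ (dt.FF w).image (G.opp w), (D - G.deg v) : ℕ) : ℝ) := by
      push_cast
      apply Finset.sum_congr rfl
      intro v _
      rw [Nat.cast_sub (dt.deg_le v)]
    rw [ht'] at A8
    have h2 : ((∑ v ∈ (dt.FF w).image (G.opp w), (D - G.deg v) : ℕ) : ℝ) + 2 + t ≤ s := by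
      exact_mod_cast A8
    rw [h1]
    linarith
  have hsum : ∑ f ∈ dt.FF w, (al D - dt.tau w f) ≤
      om D * ((D : ℝ) - s + 1) * ((j : ℝ) - 1 + wm) +
        max 0 (ph D (min s (m + 2)) - om D) * (μ * ((j : ℝ) - 1 + wm)) +
        ph D s * (μ * ((s : ℝ) - wm)) + μ * ((s : ℝ) - 2 - t) / D := by
    refine (Finset.sum_le_sum hL).trans ?_
    rw [Finset.sum_add_distrib, Finset.sum_add_distrib, Finset.sum_add_distrib,
      ← Finset.mul_sum _ _ (max 0 (ph D (min s (m + 2)) - om D)),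
      ← Finset.mul_sum _ _ (ph D s), ← Finset.sum_div]
    have h2 := mul_le_mul_of_nonneg_left hS2 (le_max_left 0 (ph D (min s (m + 2)) - om D))
    have h3 := mul_le_mul_of_nonneg_left hS3 hph
    have h4 := div_le_div_of_nonneg_right hS4 (by positivity : (0 : ℝ) ≤ D)
    linarith
  have hpos : 0 < m * gg D s + t + al D * j - ((D : ℝ) - 2) / 3 := by
    rw [hspare] at hsp
    linarith
  have hfin := hFI s m j t wm (by omega) h3s A3 (dt.mult_le x w) A4 hpos
  rw [Finset.sum_sub_distrib, Finset.sum_const, nsmul_eq_mul, hcard] at hsum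
  rw [hspare]
  linarith

end Pool.Agent.Helper82.EC
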