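import Pool.Agent.Helper82.EC.St

/-!
# MP_47b98d_co : the loss on one fan edge
-/

set_option autoImplicit false

open Finset
open scoped Classical

namespace Pool.Agent.Helper82.EC

open MGraph

namespace Lossx

/-! ### ends -/

lemma ends_opp {V E : Type} (G : MGraph V E) {v : V} {f : E} (h : v ∈ G.ends f) :
    G.ends f = s(v, G.opp v f) := by
  unfold MGraph.opp
  rw [dif_pos h]
  exact (Sym2.other_spec h).symm

lemma opp_mem {V E : Type} (G : MGraph V E) {v : V} {f : E} (h : v ∈ G.ends f) :
    G.opp v f ∈ G.ends f := by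
  rw [ends_opp G h]
  exact Sym2.mem_mk_right _ _

lemma opp_opp {V E : Type} (G : MGraph V E) {v : V} {f : E} (h : v ∈ G.ends f) :
    G.opp (G.opp v f) f = v := by
  have h1 := ends_opp G h
  have h2 := ends_opp G (opp_mem G h)
  rw [h1] at h2
  rcases Sym2.eq_iff.1 h2 with ⟨a, b⟩ | ⟨a, _⟩
  · rw [← b, ← a]
  · exact a.symm

lemma mem_inc {V E : Type} [Fintype V] [Fintype E] (G : MGraph V E) {v : V} {f : E} :
    f ∈ G.inc v ↔ v ∈ G.ends f := by
  simp [MGraph.inc]

/-! ### numbers -/

lemma al_eq (D : ℕ) (hD : 9 ≤ D) : al D = 1 / 3 - 2 / (3 * D) := by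
  have hD0 : (0:ℝ) < D := by exact_mod_cast (by omega : 0 < D)
  unfold al
  field_simp

lemma al_nonneg (D : ℕ) (hD : 9 ≤ D) : 0 ≤ al D := by
  have hD9 : (9:ℝ) ≤ D := by exact_mod_cast hD
  unfold al
  apply div_nonneg <;> linarith

lemma al_le (D : ℕ) (hD : 9 ≤ D) : al D ≤ 1 / 3 := by
  have hD0 : (0:ℝ) < D := by exact_mod_cast (by omega : 0 < D)
  rw [al_eq D hD]
  have : 0 ≤ 2 / (3 * (D : ℝ)) := by positivity
  linarith

lemma gg_ge (D k : ℕ) (hD : 9 ≤ D) (hk : 1 ≤ k) (hkD : 3 * k ≤ D) : 1 ≤ gg D k := by
  have hD0 : (0:ℝ) < D := by exact_mod_cast (by omega : 0 < D)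
  have hk0 : (0:ℝ) < k := by exact_mod_cast hk
  have h3 : 3 * (k : ℝ) ≤ D := by exact_mod_cast hkD
  unfold gg
  have : 2 ≤ (2 * (D : ℝ) + 2) / (3 * k) := by
    rw [le_div_iff₀ (by positivity)]
    linarith
  linarith

lemma gg_anti (D k k' : ℕ) (hk : 1 ≤ k) (hkk : k ≤ k') : gg D k' ≤ gg D k := by
  have hk0 : (0:ℝ) < k := by exact_mod_cast hk
  have h3 : (k : ℝ) ≤ k' := by exact_mod_cast hkk
  unfold gg
  have : (2 * (D : ℝ) + 2) / (3 * k') ≤ (2 * (D : ℝ) + 2) / (3 * k) := by
    apply div_le_div_of_nonneg_left (by positivity) (by positivity) (by linarith)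
  linarith

lemma ph_formula (D k : ℕ) (hD : 0 < D) (hk : 0 < k) (hkD : k ≤ D) :
    ph D k = 2 / (3 * k) - 2 * ((D : ℝ) - 1) / (3 * D * ((D : ℝ) - k + 1)) := by
  have hD0 : (0:ℝ) < D := by exact_mod_cast hD
  have hk0 : (0:ℝ) < k := by exact_mod_cast hk
  have hkD' : (k : ℝ) ≤ D := by exact_mod_cast hkD
  have hden : (0:ℝ) < (D : ℝ) - k + 1 := by linarith
  unfold ph gg al
  field_simp
  ring

lemma ph_anti (D k k' : ℕ) (hk : 1 ≤ k) (hkk : k ≤ k') (hD : 3 * k' ≤ D) :
    ph D k' ≤ ph D k := by
  have hD0 : (0:ℝ) < D := by exact_mod_cast (by omega : 0 < D)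
  have hD1 : (1:ℝ) ≤ D := by exact_mod_cast (by omega : 1 ≤ D)
  have hk0 : (0:ℝ) < k := by exact_mod_cast hk
  have h3 : (k : ℝ) ≤ k' := by exact_mod_cast hkk
  have h4 : (k' : ℝ) ≤ D := by exact_mod_cast (by omega : k' ≤ D)
  rw [ph_formula D k (by omega) (by omega) (by omega),
    ph_formula D k' (by omega) (by omega) (by omega)]
  have h1 : 2 / (3 * (k' : ℝ)) ≤ 2 / (3 * k) :=
    div_le_div_of_nonneg_left (by norm_num) (by positivity) (by linarith)
  have h2 : 2 * ((D : ℝ) - 1) / (3 * D * ((D : ℝ) - k + 1)) ≤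
      2 * ((D : ℝ) - 1) / (3 * D * ((D : ℝ) - k' + 1)) := by
    apply div_le_div_of_nonneg_left (by linarith)
    · apply mul_pos (by positivity)
      linarith
    · apply mul_le_mul_of_nonneg_left _ (by positivity)
      linarith
  linarith

lemma ph_nonneg (D k : ℕ) (hD : 9 ≤ D) (hk : 1 ≤ k) (hkD : 3 * k ≤ D) : 0 ≤ ph D k := by
  have h1 := gg_ge D k hD hk hkD
  have h2 := al_le D hD
  have h4 : (k : ℝ) ≤ D := by exact_mod_cast (by omega : k ≤ D)
  unfold ph
  apply div_nonneg <;> linarith

lemma om_ge (D : ℕ) (hD : 9 ≤ D) : 1 / (D : ℝ) ≤ om D := by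
  have hD0 : (0:ℝ) < D := by exact_mod_cast (by omega : 0 < D)
  unfold om
  split_ifs with h
  · subst h
    norm_num
  · apply div_le_div_of_nonneg_right _ hD0.le
    have : 0 ≤ 5 / (D : ℝ) := by positivity
    linarith

lemma om_pos (D : ℕ) (hD : 9 ≤ D) : 0 ≤ om D := by
  have := om_ge D hD
  have h2 : 0 ≤ 1 / (D : ℝ) := by positivity
  linarith

lemma ph_le_om (D p : ℕ) (hD : 9 ≤ D) (h3 : 3 * p ≤ D) (h4 : D ≤ 3 * p + 1) :
    ph D p ≤ om D := by
  have hp : 3 ≤ p := by omega
  have hp' : (3:ℝ) ≤ p := by exact_mod_cast hp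
  unfold om
  split_ifs with h
  · subst h
    have : p = 3 := by omega
    subst this
    unfold ph gg al
    norm_num
  · have hcase : D = 3 * p ∨ D = 3 * p + 1 := by omega
    rcases hcase with hc | hc
    · have hDr : (D : ℝ) = 3 * p := by exact_mod_cast hc
      unfold ph gg al
      rw [hDr]
      have e : (1 + 5 / (3 * (p : ℝ))) / (3 * p) -
          ((2 * (3 * (p : ℝ)) + 2) / (3 * p) - 1 - (3 * p - 2) / (3 * (3 * p))) /
            (3 * p - p + 1) = (5 * p + 5) / (9 * p ^ 2 * (2 * p + 1)) := by
        have : (3 * (p : ℝ) - p + 1) = 2 * p + 1 := by ring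
        rw [this]
        field_simp
        ring
      have : 0 ≤ (5 * (p : ℝ) + 5) / (9 * p ^ 2 * (2 * p + 1)) := by positivity
      linarith
    · have hDr : (D : ℝ) = 3 * p + 1 := by exact_mod_cast hc
      unfold ph gg al
      rw [hDr]
      have e : (1 + 5 / (3 * (p : ℝ) + 1)) / (3 * p + 1) -
          ((2 * (3 * (p : ℝ) + 1) + 2) / (3 * p) - 1 - (3 * p + 1 - 2) / (3 * (3 * p + 1))) /
            (3 * p + 1 - p + 1) = (4 * p - 2) / (3 * (p * (3 * p + 1) ^ 2 * (p + 1))) := by
        have : (3 * (p : ℝ) + 1 - p + 1) = 2 * (p + 1) := by ring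
        rw [this]
        field_simp
        ring
      have : 0 ≤ (4 * (p : ℝ) - 2) / (3 * (p * (3 * p + 1) ^ 2 * (p + 1))) := by
        apply div_nonneg _ (by positivity)
        linarith
      linarith

lemma pay_medium (D du dp : ℕ) (h : ¬ 3 * dp ≤ D) : pay D du dp ≤ 1 := by
  unfold pay
  split_ifs with h1
  · have h2 : 2 * (D : ℝ) + 2 ≤ 3 * du := by exact_mod_cast h1.1
    have h3 : (D : ℝ) + 1 ≤ 3 * dp := by exact_mod_cast (by omega : D + 1 ≤ 3 * dp)
    apply div_le_one_of_le₀
    · linarith
    · linarith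
  · norm_num

lemma pay_zero (D du dp : ℕ) (h : ¬ 3 * dp < 2 * D + 2) : pay D du dp = 0 := by
  unfold pay
  rw [if_neg]
  tauto

lemma pay_small (D du dp : ℕ) (h1 : 2 * D + 2 ≤ 3 * du) (_ : 9 ≤ D) (h2 : 3 * dp ≤ D) :
    pay D du dp = gg D dp := by
  unfold pay
  rw [if_pos ⟨h1, by omega⟩, if_pos h2]

lemma sum_ind {E : Type} (S : Finset E) (P : E → Prop) [DecidablePred P] (c : ℝ) :
    ∑ f ∈ S, (if P f then c else 0) = c * ((S.filter P).card : ℝ) := by
  rw [← Finset.sum_filter, Finset.sum_const, nsmul_eq_mul, mul_comm]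

end Lossx

open Lossx in
theorem stLoss (hAc : StAc) : StLoss := by
  intro V E _ _ G D μ dt hD hμ w hR hS f hf
  have hD0 : (0:ℝ) < D := by exact_mod_cast (by omega : 0 < D)
  have hD9 : (9:ℝ) ≤ D := by exact_mod_cast hD
  obtain ⟨ac1, ac2, ac3, ac4, -⟩ := hAc V E G D μ dt (by omega) w hR hS
  have hw : w ∈ G.ends f := (mem_inc G).1 ((dt.fan w).sub hf)
  set u := G.opp w f with hu
  have hRu : dt.Rich u := ac1 f hf
  have huf : u ∈ G.ends f := opp_mem G hw
  have hopp : G.opp u f = w := opp_opp G hw
  set x := dt.xx w with hx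
  have hsx : 3 * G.deg x ≤ D := hS
  have hs1 : 1 ≤ G.deg x := by omega
  have hdu : (G.deg u : ℝ) ≤ D := by exact_mod_cast dt.deg_le u
  have hom := om_pos D hD
  have hphs := ph_nonneg D (G.deg x) hD hs1 hsx
  set mx := max 0 (ph D (min (G.deg x) (dt.mm w + 2)) - om D) with hmx
  have hmx0 : 0 ≤ mx := le_max_left _ _
  have hmx1 : ph D (min (G.deg x) (dt.mm w + 2)) ≤ om D + mx := by
    have := le_max_right 0 (ph D (min (G.deg x) (dt.mm w + 2)) - om D)
    linarith
  have hRu' : 2 * (D : ℝ) + 2 ≤ 3 * G.deg u := by exact_mod_cast hRu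
  -- the right side is nonnegative
  by_cases hb : dt.Sm (G.opp w f) ∧ f ∉ dt.FF (G.opp w f)
  · have htau : dt.tau w f = al D := by
      unfold Data.tau
      rw [if_pos hb]
    rw [htau, sub_self]
    have h1 : 0 ≤ ((D : ℝ) - G.deg u) / D := div_nonneg (by linarith) hD0.le
    positivity
  have htau : dt.tau w f = dt.kap u := by
    unfold Data.tau
    rw [if_neg hb]
  rw [htau]
  -- the sum of indicator functions
  have hsum : ∑ f' ∈ G.inc u, ((if G.opp u f' ∈ dt.P0.erase x then om D else 0) +
      (if G.opp u f' ∈ dt.S0.erase x then mx else 0) +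
      (if G.opp u f' = x then ph D (G.deg x) else 0)) ≤
      om D * G.degTo u (dt.P0.erase x) + mx * G.degTo u (dt.S0.erase x) +
        ph D (G.deg x) * G.mult x u := by
    rw [Finset.sum_add_distrib, Finset.sum_add_distrib, sum_ind, sum_ind, sum_ind]
    have h1 : ((G.inc u).filter fun f' => G.opp u f' = x).card ≤ G.mult x u := by
      unfold MGraph.mult
      apply Finset.card_le_card
      intro f' hf'
      obtain ⟨h2, h3⟩ := Finset.mem_filter.1 hf'
      rw [Finset.mem_filter]
      refine ⟨Finset.mem_univ _, ?_⟩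
      rw [ends_opp G ((mem_inc G).1 h2), h3, Sym2.eq_swap]
    have h2 : (((G.inc u).filter fun f' => G.opp u f' = x).card : ℝ) ≤ G.mult x u := by
      exact_mod_cast h1
    have h3 := mul_le_mul_of_nonneg_left h2 hphs
    unfold MGraph.degTo
    linarith
  by_cases hSu : dt.Sm u
  · -- `f ∈ FF u`
    have hfu : f ∈ dt.FF u := by
      by_contra hcon
      exact hb ⟨hSu, hcon⟩
    obtain ⟨bc1, bc2, bc3, bc4, -, -, -, -, bc9⟩ := hAc V E G D μ dt (by omega) u hRu hSu
    have hkap : dt.kap u = max 0 (dt.spare u) / ((D : ℝ) - G.deg (dt.xx u) + 1) := by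
      unfold Data.kap
      rw [if_pos hSu]
    rw [hkap]
    set su := G.deg (dt.xx u) with hsu
    have hsuD : 3 * su ≤ D := hSu
    have hsu1 : 1 ≤ su := by omega
    have hsuD' : 3 * (su : ℝ) ≤ D := by exact_mod_cast hsuD
    obtain ⟨n, hn⟩ : ∃ n : ℝ, n = (D : ℝ) - su + 1 := ⟨_, rfl⟩
    have hn0 : 0 < n := by rw [hn]; linarith
    rw [← hn]
    have hstep1 : al D - max 0 (dt.spare u) / n ≤ al D - dt.spare u / n := by
      have : dt.spare u / n ≤ max 0 (dt.spare u) / n :=
        div_le_div_of_nonneg_right (le_max_right _ _) hn0.le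
      linarith
    refine hstep1.trans ?_
    have hspare : dt.spare u = ((D : ℝ) - 2) / 3 - (dt.Q u + ((D : ℝ) - G.deg u)) -
        al D * dt.jj u := by
      unfold Data.spare
      rw [if_pos hSu]
    have hsum2 : (su : ℝ) - 1 = dt.mm u + dt.jj u + ((D : ℝ) - G.deg u) := by
      have h1 : ((dt.mm u + dt.jj u + (D - G.deg u) + 1 : ℕ) : ℝ) = su := by exact_mod_cast bc2
      push_cast [dt.deg_le u] at h1
      linarith
    have halD : al D * D = ((D : ℝ) - 2) / 3 := by
      unfold al
      field_simp
    -- the numerator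
    have hnum : al D - dt.spare u / n =
        (dt.Q u - al D * dt.mm u) / n + ((D : ℝ) - G.deg u) * (1 - al D) / n := by
      rw [hspare, ← halD]
      have e1 : al D = al D * n / n := by field_simp
      have e2 : al D * n = al D * D - al D * (dt.mm u + dt.jj u + ((D : ℝ) - G.deg u)) := by
        rw [hn, ← hsum2]
        ring
      rw [← sub_eq_zero]
      have e3 : al D - (al D * D - (dt.Q u + ((D : ℝ) - G.deg u)) - al D * dt.jj u) / n -
          ((dt.Q u - al D * dt.mm u) / n + ((D : ℝ) - G.deg u) * (1 - al D) / n) =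
          (al D * n - (al D * D - al D * (dt.mm u + dt.jj u + ((D : ℝ) - G.deg u)))) / n := by
        field_simp
        ring
      rw [e3, e2, sub_self, zero_div]
    rw [hnum]
    have hfrac : (1 - al D) / n ≤ 1 / D := by
      rw [div_le_div_iff₀ hn0 hD0]
      have : (1 - al D) * D = D - ((D : ℝ) - 2) / 3 := by rw [← halD]; ring
      rw [this, hn]
      linarith
    have hlast : ((D : ℝ) - G.deg u) * (1 - al D) / n ≤ ((D : ℝ) - G.deg u) / D := by
      have h1 : 0 ≤ (D : ℝ) - G.deg u := by linarith
      calc ((D : ℝ) - G.deg u) * (1 - al D) / n = ((D : ℝ) - G.deg u) * ((1 - al D) / n) := by ring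
        _ ≤ ((D : ℝ) - G.deg u) * (1 / D) := mul_le_mul_of_nonneg_left hfrac h1
        _ = _ := by ring
    have hmain : (dt.Q u - al D * dt.mm u) / n ≤
        ∑ f' ∈ G.inc u, ((if G.opp u f' ∈ dt.P0.erase x then om D else 0) +
      (if G.opp u f' ∈ dt.S0.erase x then mx else 0) +
      (if G.opp u f' = x then ph D (G.deg x) else 0)) := by
      have e1 : (dt.Q u - al D * dt.mm u) / n = ∑ f' ∈ G.inc u,
          (pay D (G.deg u) (G.deg (G.opp u f')) -
            if ¬ dt.Rich (G.opp u f') then al D else 0) / n := by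
        rw [← Finset.sum_div, Finset.sum_sub_distrib, sum_ind]
        rfl
      rw [e1]
      refine Finset.sum_le_sum fun f' hf' => ?_
      set p := G.opp u f' with hp
      have hmin : su ≤ G.deg p := dt.min_deg u f' hf'
      have hmin' : (su : ℝ) ≤ G.deg p := by exact_mod_cast hmin
      by_cases hRp : dt.Rich p
      · have hnp : ¬ 3 * G.deg p < 2 * D + 2 := by
          have : 2 * D + 2 ≤ 3 * G.deg p := hRp
          omega
        rw [pay_zero D _ _ hnp, if_neg (not_not.2 hRp), sub_zero, zero_div]
        have a1 : (0:ℝ) ≤ if p ∈ dt.P0.erase x then om D else 0 := by split_ifs <;> simp [hom]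
        have a2 : (0:ℝ) ≤ if p ∈ dt.S0.erase x then mx else 0 := by split_ifs <;> simp [hmx0]
        have a3 : (0:ℝ) ≤ if p = x then ph D (G.deg x) else 0 := by split_ifs <;> simp [hphs]
        linarith
      · rw [if_pos hRp]
        have hpoor : 3 * G.deg p < 2 * D + 2 := by
          by_contra hcon
          exact hRp (by show 2 * D + 2 ≤ 3 * G.deg p; omega)
        by_cases hpx : p = x
        · -- p = x
          have a1 : p ∉ dt.P0.erase x := by rw [hpx]; exact Finset.notMem_erase _ _
          have a2 : p ∉ dt.S0.erase x := by rw [hpx]; exact Finset.notMem_erase _ _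
          rw [if_neg a1, if_neg a2, if_pos hpx, zero_add, zero_add]
          have hdp : G.deg p = G.deg x := by rw [hpx]
          rw [hdp, pay_small D _ _ hRu hD hsx]
          unfold ph
          have h1 := gg_ge D (G.deg x) hD hs1 hsx
          have h2 := al_le D hD
          have h3 : (0:ℝ) < (D : ℝ) - G.deg x + 1 := by
            have : (G.deg x : ℝ) ≤ D := by exact_mod_cast (by omega : G.deg x ≤ D)
            linarith
          apply div_le_div_of_nonneg_left (by linarith) h3
          rw [hn]
          rw [hdp] at hmin'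
          linarith
        · have hpP : p ∈ dt.P0.erase x := by
            rw [Finset.mem_erase]
            refine ⟨hpx, ?_⟩
            unfold Data.P0
            simp only [Finset.mem_filter, Finset.mem_univ, true_and]
            exact hpoor
          rw [if_pos hpP, if_neg hpx, add_zero]
          by_cases hsm : 3 * G.deg p ≤ D
          · rw [pay_small D _ _ hRu hD hsm]
            have hp1 : 1 ≤ G.deg p := by omega
            have h1 := gg_ge D (G.deg p) hD hp1 hsm
            have h2 := al_le D hD
            have h3 : (0:ℝ) < (D : ℝ) - G.deg p + 1 := by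
              have : (G.deg p : ℝ) ≤ D := by exact_mod_cast (by omega : G.deg p ≤ D)
              linarith
            by_cases hss : 3 * G.deg p + 2 ≤ D
            · have hpS : p ∈ dt.S0.erase x := by
                rw [Finset.mem_erase]
                refine ⟨hpx, ?_⟩
                unfold Data.S0
                simp only [Finset.mem_filter, Finset.mem_univ, true_and]
                exact hss
              rw [if_pos hpS]
              have hmin2 : min (G.deg x) (dt.mm w + 2) ≤ su := by
                rcases Nat.lt_or_ge su (G.deg x) with h4 | h4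
                · have h5 := bc9 w (Finset.mem_image.2 ⟨f, hfu, hopp⟩) h4
                  exact (min_le_right _ _).trans h5
                · exact (min_le_left _ _).trans h4
              have hm1 : 1 ≤ min (G.deg x) (dt.mm w + 2) := by
                apply le_min hs1
                omega
              have h6 := ph_anti D _ su hm1 hmin2 hsuD
              have h7 := gg_anti D su (G.deg p) hsu1 hmin
              have h8 : (gg D (G.deg p) - al D) / n ≤ ph D su := by
                unfold ph
                rw [← hn]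
                exact div_le_div_of_nonneg_right (by linarith) hn0.le
              linarith
            · have h9 := ph_le_om D (G.deg p) hD hsm (by omega)
              have h8 : (gg D (G.deg p) - al D) / n ≤ ph D (G.deg p) := by
                unfold ph
                apply div_le_div_of_nonneg_left (by linarith) h3
                rw [hn]
                linarith
              have a2 : (0:ℝ) ≤ if p ∈ dt.S0.erase x then mx else 0 := by
                split_ifs <;> simp [hmx0]
              linarith
          · have h1 := pay_medium D (G.deg u) (G.deg p) hsm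
            have h2 : (pay D (G.deg u) (G.deg p) - al D) / n ≤ (1 - al D) / n :=
              div_le_div_of_nonneg_right (by linarith) hn0.le
            have h3 := om_ge D hD
            have a2 : (0:ℝ) ≤ if p ∈ dt.S0.erase x then mx else 0 := by
              split_ifs <;> simp [hmx0]
            linarith
    linarith
  · -- `u` has no small neighbour
    have hkap : dt.kap u = dt.spare u / D := by
      unfold Data.kap
      rw [if_neg hSu]
    have hspare : dt.spare u = ((D : ℝ) - 2) / 3 - (dt.Q u + ((D : ℝ) - G.deg u)) := by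
      unfold Data.spare
      rw [if_neg hSu, sub_zero]
    have hnum : al D - dt.kap u = dt.Q u / D + ((D : ℝ) - G.deg u) / D := by
      rw [hkap, hspare]
      unfold al
      field_simp
      ring
    rw [hnum]
    have hQ : dt.Q u / D ≤ ∑ f' ∈ G.inc u, ((if G.opp u f' ∈ dt.P0.erase x then om D else 0) +
      (if G.opp u f' ∈ dt.S0.erase x then mx else 0) +
      (if G.opp u f' = x then ph D (G.deg x) else 0)) := by
      unfold Data.Q
      rw [Finset.sum_div]
      refine Finset.sum_le_sum fun f' hf' => ?_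
      set p := G.opp u f' with hp
      have hmin : G.deg (dt.xx u) ≤ G.deg p := dt.min_deg u f' hf'
      have hnsm : ¬ 3 * G.deg p ≤ D := by
        intro h
        exact hSu (by show 3 * G.deg (dt.xx u) ≤ D; omega)
      have a2 : (0:ℝ) ≤ if p ∈ dt.S0.erase x then mx else 0 := by split_ifs <;> simp [hmx0]
      have a3 : (0:ℝ) ≤ if p = x then ph D (G.deg x) else 0 := by split_ifs <;> simp [hphs]
      by_cases hpoor : 3 * G.deg p < 2 * D + 2
      · have hpx : p ≠ x := by
          intro h
          rw [h] at hnsm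
          exact hnsm hsx
        have hpP : p ∈ dt.P0.erase x := by
          rw [Finset.mem_erase]
          refine ⟨hpx, ?_⟩
          unfold Data.P0
          simp only [Finset.mem_filter, Finset.mem_univ, true_and]
          exact hpoor
        rw [if_pos hpP]
        have h1 := pay_medium D (G.deg u) (G.deg p) hnsm
        have h2 : pay D (G.deg u) (G.deg p) / D ≤ 1 / D :=
          div_le_div_of_nonneg_right h1 hD0.le
        have h3 := om_ge D hD
        linarith
      · rw [pay_zero D _ _ hpoor, zero_div]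
        have a1 : (0:ℝ) ≤ if p ∈ dt.P0.erase x then om D else 0 := by split_ifs <;> simp [hom]
        linarith
    linarith

end Pool.Agent.Helper82.EC
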