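import Pool.Agent.Helper82.EC.St

/-!
# MP_47b98d_co : a rich vertex without small neighbours can pay
-/

set_option autoImplicit false

open Finset
open scoped Classical

namespace Pool.Agent.Helper82.EC

open MGraph

namespace MpAux

variable {V E : Type} [Fintype V] [Fintype E] (G : MGraph V E)

lemma mem_inc {v : V} {f : E} : f ∈ G.inc v ↔ v ∈ G.ends f := by
  simp [MGraph.inc]

lemma ends_opp {v : V} {f : E} (h : v ∈ G.ends f) : G.ends f = s(G.opp v f, v) := by
  rw [MGraph.opp, dif_pos h, Sym2.eq_swap]
  exact (Sym2.other_spec h).symm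

/-- The main count. -/
lemma count {D μ : ℕ} (dt : Data G D μ) (hμ : 6 * μ ≤ D + 4) (u : V) (hu : dt.Rich u)
    (hx : 3 * G.deg (dt.xx u) ≤ 2 * D + 1) (hS : D < 3 * G.deg (dt.xx u)) :
    dt.mm u + (D - G.deg u) + 1 ≤ G.deg (dt.xx u) := by
  have hfan := dt.fan u
  have hdu := dt.deg_le u
  have hcard := hfan.card_eq
  have hsum := hfan.sum_le
  have hru : 2 * D + 2 ≤ 3 * G.deg u := hu
  have hinc : (G.inc u).card = G.deg u := rfl
  by_cases hN : ∀ f ∈ dt.FF u, dt.Rich (G.opp u f)
  · have h1 : (G.inc u).filter (fun f => ¬ dt.Rich (G.opp u f)) ⊆ G.inc u \ dt.FF u := by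
      intro f hf
      rw [mem_filter] at hf
      rw [mem_sdiff]
      exact ⟨hf.1, fun h => hf.2 (hN f h)⟩
    have h2 := Finset.card_le_card h1
    rw [Finset.card_sdiff_of_subset hfan.sub, hinc] at h2
    have h3 : dt.mm u ≤ G.deg u - (dt.FF u).card := h2
    have h4 : (dt.FF u).card ≤ (G.inc u).card := Finset.card_le_card hfan.sub
    omega
  · simp only [not_forall] at hN
    obtain ⟨g, hg, hgr⟩ := hN
    set z := G.opp u g with hz
    have hzN : z ∈ (dt.FF u).image (G.opp u) := mem_image_of_mem _ hg
    have hzp : 3 * G.deg z ≤ 2 * D + 1 := by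
      rw [Data.Rich] at hgr; omega
    have hzd := dt.deg_le z
    obtain ⟨F2, hF2s, hF2c, hF2d, heF2, hF2⟩ := hfan.two z hzN
    have hz1 : (D - G.deg z) + D + 2 ≤ G.deg (dt.xx u) + G.deg u := by
      have : (D - G.deg z) ≤ ∑ v ∈ (dt.FF u).image (G.opp u), (D - G.deg v) :=
        Finset.single_le_sum (f := fun v => D - G.deg v) (fun _ _ => Nat.zero_le _) hzN
      omega
    -- z is the only poor vertex of N
    have honly : ∀ f ∈ dt.FF u, ¬ dt.Rich (G.opp u f) → G.opp u f = z := by
      intro f hf hfr
      by_contra hne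
      have hfN : G.opp u f ∈ (dt.FF u).image (G.opp u) := mem_image_of_mem _ hf
      have h1 : (D - G.deg (G.opp u f)) + (D - G.deg z) ≤
          ∑ v ∈ (dt.FF u).image (G.opp u), (D - G.deg v) := by
        rw [← Finset.sum_pair (f := fun v => D - G.deg v) hne]
        apply Finset.sum_le_sum_of_subset
        intro v hv
        rcases mem_insert.1 hv with h | h
        · rw [h]; exact hfN
        · rw [mem_singleton.1 h]; exact hzN
      rw [Data.Rich] at hfr
      have := dt.deg_le (G.opp u f)
      omega
    have hsub : (G.inc u).filter (fun f => ¬ dt.Rich (G.opp u f)) ⊆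
        ((univ.filter fun f => G.ends f = s(z, u)) ∪
          (univ.filter fun f => G.ends f = s(dt.xx u, u)).erase (dt.ee u)) ∪
          ((G.inc u \ dt.FF u) \ F2) := by
      intro f hf
      rw [mem_filter] at hf
      obtain ⟨hf1, hf2⟩ := hf
      have he := ends_opp G ((mem_inc G).1 hf1)
      rw [mem_union, mem_union]
      by_cases hfF : f ∈ dt.FF u
      · left; left
        rw [mem_filter]
        refine ⟨mem_univ _, ?_⟩
        rw [he, honly f hfF hf2]
      · by_cases hfF2 : f ∈ F2
        · by_cases hoz : G.opp u f = z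
          · left; left
            rw [mem_filter]
            refine ⟨mem_univ _, ?_⟩
            rw [he, hoz]
          · by_cases hox : G.opp u f = dt.xx u
            · left; right
              rw [mem_erase, mem_filter]
              refine ⟨?_, mem_univ _, by rw [he, hox]⟩
              rintro rfl
              exact heF2 hfF2
            · exfalso
              have h1 := hF2 f hfF2 hox hoz
              have := dt.deg_le (G.opp u f)
              rw [Data.Rich] at hf2
              omega
        · right
          rw [mem_sdiff, mem_sdiff]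
          exact ⟨⟨hf1, hfF⟩, hfF2⟩
    have hc := Finset.card_le_card hsub
    have hc1 : (((univ.filter fun f => G.ends f = s(z, u)) ∪
          (univ.filter fun f => G.ends f = s(dt.xx u, u)).erase (dt.ee u)) ∪
          ((G.inc u \ dt.FF u) \ F2)).card ≤
        G.mult z u + (G.mult (dt.xx u) u - 1) + (G.deg u - (dt.FF u).card - F2.card) := by
      refine (Finset.card_union_le _ _).trans ?_
      refine Nat.add_le_add ((Finset.card_union_le _ _).trans ?_) ?_
      · refine Nat.add_le_add le_rfl ?_
        rw [Finset.card_erase_of_mem (by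
          rw [mem_filter]; exact ⟨mem_univ _, dt.ends_eq u⟩)]
        exact le_rfl
      · have h2 : F2 ⊆ G.inc u \ dt.FF u := by
          intro f hf
          rw [mem_sdiff]
          exact ⟨hF2s hf, fun h => (Finset.disjoint_left.1 hF2d) h hf⟩
        rw [Finset.card_sdiff_of_subset h2, Finset.card_sdiff_of_subset hfan.sub]
        exact le_rfl
    have hm1 : 1 ≤ G.mult (dt.xx u) u := by
      rw [MGraph.mult]
      exact Finset.card_pos.2 ⟨dt.ee u, by rw [mem_filter]; exact ⟨mem_univ _, dt.ends_eq u⟩⟩
    have hm2 := dt.mult_le (dt.xx u) u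
    have hm3 := dt.mult_le z u
    have hmm : dt.mm u = ((G.inc u).filter fun f => ¬ dt.Rich (G.opp u f)).card := rfl
    have h4 : F2.card + (dt.FF u).card ≤ G.deg u := by
      rw [← Finset.card_union_of_disjoint hF2d.symm]
      exact Finset.card_le_card (Finset.union_subset hF2s hfan.sub)
    omega

end MpAux

open MpAux

theorem stMp : StMp := by
  intro V E _ _ G D μ dt hD hμ u hu hS
  have hD2 : (2 : ℝ) ≤ D := by exact_mod_cast hD
  have hru : 2 * D + 2 ≤ 3 * G.deg u := hu
  have hS' : D < 3 * G.deg (dt.xx u) := not_le.1 hS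
  have hruR : 2 * (D : ℝ) + 2 ≤ 3 * G.deg u := by exact_mod_cast hru
  by_cases hx : 3 * G.deg (dt.xx u) ≤ 2 * D + 1
  · have hc := count G dt hμ u hu hx hS'
    have hdu := dt.deg_le u
    set a : ℝ := ((D : ℝ) - 2) / 3 with ha
    set t : ℝ := (D : ℝ) - G.deg u with ht
    set s : ℝ := (G.deg (dt.xx u) : ℝ) with hs
    have hcR : (dt.mm u : ℝ) ≤ s - 1 - t := by
      have h1 : (dt.mm u : ℝ) + ((D - G.deg u : ℕ) : ℝ) + 1 ≤ G.deg (dt.xx u) := by
        exact_mod_cast hc
      rw [Nat.cast_sub hdu] at h1
      linarith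
    have hta : t ≤ a := by rw [ha, ht]; linarith
    have hsa : a ≤ s - 1 := by
      have : (D : ℝ) + 1 ≤ 3 * G.deg (dt.xx u) := by exact_mod_cast hS'
      rw [ha, hs]; linarith
    -- each poor edge
    have hp : ∀ f ∈ G.inc u, pay D (G.deg u) (G.deg (G.opp u f)) ≤
        if ¬ dt.Rich (G.opp u f) then (a - t) / (s - 1 - t) else 0 := by
      intro f hf
      have hmin := dt.min_deg u f hf
      by_cases hr : dt.Rich (G.opp u f)
      · rw [if_neg (not_not.2 hr), pay, if_neg]
        rw [Data.Rich] at hr; omega
      · rw [if_pos hr, pay, if_pos ⟨hru, by rw [Data.Rich] at hr; omega⟩, if_neg (by omega)]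
        have hminR : s ≤ (G.deg (G.opp u f) : ℝ) := by rw [hs]; exact_mod_cast hmin
        have hn : 0 ≤ a - t := by linarith
        rcases eq_or_lt_of_le (show 0 ≤ s - 1 - t by linarith) with h0 | h0
        · have h1 : a - t = 0 := by linarith
          rw [h1]; simp
        · exact div_le_div_of_nonneg_left hn h0 (by linarith)
    have hQ : dt.Q u ≤ dt.mm u * ((a - t) / (s - 1 - t)) := by
      calc dt.Q u ≤ ∑ f ∈ G.inc u, (if ¬ dt.Rich (G.opp u f) then (a - t) / (s - 1 - t) else 0) :=
            Finset.sum_le_sum hp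
        _ = dt.mm u * ((a - t) / (s - 1 - t)) := by
            rw [← Finset.sum_filter, Finset.sum_const, nsmul_eq_mul]; rfl
    have hQ2 : dt.Q u ≤ a - t := by
      rcases eq_or_lt_of_le (show 0 ≤ s - 1 - t by linarith) with h0 | h0
      · rw [← h0, div_zero, mul_zero] at hQ
        linarith
      · calc dt.Q u ≤ dt.mm u * ((a - t) / (s - 1 - t)) := hQ
          _ ≤ (s - 1 - t) * ((a - t) / (s - 1 - t)) := by
            apply mul_le_mul_of_nonneg_right hcR
            apply div_nonneg <;> linarith
          _ = a - t := by field_simp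
    linarith
  · -- all neighbours are rich
    have hQ : dt.Q u = 0 := by
      rw [Data.Q]
      apply Finset.sum_eq_zero
      intro f hf
      have hmin := dt.min_deg u f hf
      rw [pay, if_neg]
      omega
    rw [hQ]
    linarith

end Pool.Agent.Helper82.EC
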