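import Pool.Agent.Helper82.EC.St

/-!
# EC module Rec: every poor vertex receives enough
-/

set_option autoImplicit false

open Finset
open scoped Classical

namespace Pool.Agent.Helper82.EC

namespace RecMod

open MGraph

variable {V E : Type} [Fintype V] [Fintype E] {G : MGraph V E} {D μ : ℕ}

theorem ends_opp {p : V} {f : E} (hf : f ∈ G.inc p) : G.ends f = s(G.opp p f, p) := by
  have h : p ∈ G.ends f := (Finset.mem_filter.1 hf).2
  rw [MGraph.opp, dif_pos h, Sym2.eq_swap]
  exact (Sym2.other_spec h).symm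

theorem deg_add (dt : Data G D μ) {p : V} {f : E} (hf : f ∈ G.inc p) :
    D + 2 ≤ G.deg (G.opp p f) + G.deg p := by
  obtain ⟨F, hF⟩ := dt.anyfan f _ _ (ends_opp hf)
  have := hF.sum_le
  omega

theorem ee_mem (dt : Data G D μ) (p : V) : dt.ee p ∈ G.inc p := by
  refine Finset.mem_filter.2 ⟨Finset.mem_univ _, ?_⟩
  rw [dt.ends_eq p]
  exact Sym2.mem_mk_right _ _

theorem key_frac {m t b : ℝ} (_ : 0 ≤ m) (ht : 0 ≤ t) (hmb : m ≤ b - t) (hb : 0 < b - t) :
    m / (b - t) ≤ (m + t) / b := by
  have hb0 : 0 < b := by linarith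
  rw [div_le_div_iff₀ hb hb0]
  nlinarith

theorem small (dt : Data G D μ) {p : V} (hp : 3 * G.deg p ≤ D) :
    (2 * (D : ℝ) + 2) / 3 - G.deg p ≤ ∑ f ∈ G.inc p, pay D (G.deg (G.opp p f)) (G.deg p) := by
  have hdeg : 0 < G.deg p := Finset.card_pos.2 ⟨_, ee_mem dt p⟩
  have h1 : ∀ f ∈ G.inc p, pay D (G.deg (G.opp p f)) (G.deg p) = gg D (G.deg p) := by
    intro f hf
    have h2 := deg_add dt hf
    rw [pay, if_pos ⟨by omega, by omega⟩, if_pos hp]
  rw [Finset.sum_congr rfl h1, Finset.sum_const, nsmul_eq_mul]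
  have h3 : ((G.inc p).card : ℝ) = G.deg p := rfl
  rw [h3, gg]
  have h4 : (0 : ℝ) < G.deg p := by exact_mod_cast hdeg
  apply le_of_eq
  field_simp

theorem medium (dt : Data G D μ) (hD : 2 ≤ D) {p : V} (hp : 3 * G.deg p < 2 * D + 2)
    (hp2 : ¬ 3 * G.deg p ≤ D) :
    (2 * (D : ℝ) + 2) / 3 - G.deg p ≤ ∑ f ∈ G.inc p, pay D (G.deg (G.opp p f)) (G.deg p) := by
  set y0 := dt.xx p with hy0
  set F := dt.FF p with hF
  have hfan := dt.fan p
  rw [← hF, ← hy0] at hfan
  set a : ℝ := ((D : ℝ) - 2) / 3 with ha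
  set b : ℝ := (G.deg p : ℝ) - 1 with hb
  set T : V → ℝ := fun v => (D : ℝ) - G.deg v with hT
  have hT0 : ∀ v, 0 ≤ T v := fun v => by
    have : (G.deg v : ℝ) ≤ D := by exact_mod_cast dt.deg_le v
    simp only [hT]; linarith
  have ha0 : 0 ≤ a := by
    have : (2 : ℝ) ≤ D := by exact_mod_cast hD
    rw [ha]; linarith
  have hab : a ≤ b := by
    have : D + 1 ≤ 3 * G.deg p := by omega
    have h2 : ((D + 1 : ℕ) : ℝ) ≤ ((3 * G.deg p : ℕ) : ℝ) := by exact_mod_cast this
    push_cast at h2
    rw [ha, hb]; linarith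
  -- the payments
  have hpay : ∀ u : V, pay D (G.deg u) (G.deg p) = if T u ≤ a then (a - T u) / (b - T u) else 0 := by
    intro u
    rw [pay]
    by_cases h1 : 2 * D + 2 ≤ 3 * G.deg u
    · rw [if_pos ⟨h1, hp⟩, if_neg hp2, if_pos]
      have h2 : ((2 * D + 2 : ℕ) : ℝ) ≤ ((3 * G.deg u : ℕ) : ℝ) := by exact_mod_cast h1
      push_cast at h2
      simp only [hT]
      rw [ha]; linarith
    · rw [if_neg (fun h => h1 h.1), if_neg]
      intro h2
      apply h1
      have h3 : ((2 * D + 2 : ℕ) : ℝ) ≤ ((3 * G.deg u : ℕ) : ℝ) := by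
        push_cast
        simp only [hT] at h2
        rw [ha] at h2
        linarith
      exact_mod_cast h3
  simp only [hpay]
  -- the fan
  have hcard : (F.card : ℝ) = T y0 + 1 := by
    have h1 := hfan.card_eq
    have h2 : ((F.card + G.deg y0 : ℕ) : ℝ) = ((D + 1 : ℕ) : ℝ) := by rw [h1]
    push_cast at h2
    simp only [hT]; linarith
  have hsum : ∑ v ∈ F.image (G.opp p), T v + T y0 + 1 ≤ b := by
    have h1 := hfan.sum_le
    have h2 : ((∑ v ∈ F.image (G.opp p), (D - G.deg v) + D + 2 : ℕ) : ℝ) ≤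
        ((G.deg y0 + G.deg p : ℕ) : ℝ) := by exact_mod_cast h1
    push_cast at h2
    have h3 : ∑ v ∈ F.image (G.opp p), ((D - G.deg v : ℕ) : ℝ) = ∑ v ∈ F.image (G.opp p), T v := by
      refine Finset.sum_congr rfl fun v _ => ?_
      rw [Nat.cast_sub (dt.deg_le v)]
    rw [h3] at h2
    simp only [hT] at h2 ⊢
    rw [hb]; linarith
  have hNz : ∀ z ∈ F.image (G.opp p), T z + T y0 + 1 ≤ b := by
    intro z hz
    have := Finset.single_le_sum (f := T) (fun v _ => hT0 v) hz
    linarith
  -- (*)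
  have hstar : ∑ f ∈ F, 1 / (b - T (G.opp p f)) ≤ 1 := by
    have h1 : ∑ f ∈ F, 1 / (b - T (G.opp p f)) =
        ∑ z ∈ F.image (G.opp p), ∑ f ∈ F with G.opp p f = z, 1 / (b - T (G.opp p f)) :=
      (Finset.sum_fiberwise_of_maps_to (fun f hf => Finset.mem_image_of_mem _ hf) _).symm
    have h2 : ∀ z ∈ F.image (G.opp p), ∑ f ∈ F with G.opp p f = z, 1 / (b - T (G.opp p f)) ≤
        (((F.filter fun f => G.opp p f = z).card : ℝ) + T z) / b := by
      intro z hz
      have h3 : ∑ f ∈ F with G.opp p f = z, 1 / (b - T (G.opp p f)) =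
          ((F.filter fun f => G.opp p f = z).card : ℝ) / (b - T z) := by
        rw [Finset.sum_congr rfl (g := fun _ => 1 / (b - T z))]
        · rw [Finset.sum_const, nsmul_eq_mul, mul_one_div]
        · intro f hf
          rw [(Finset.mem_filter.1 hf).2]
      rw [h3]
      have h4 : ((F.filter fun f => G.opp p f = z).card : ℝ) ≤ F.card := by
        exact_mod_cast Finset.card_filter_le _ _
      have h5 := hNz z hz
      apply key_frac (by positivity) (hT0 z)
      · linarith
      · have := hT0 y0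
        linarith
    have hy00 := hT0 y0
    have hb0 : 0 < b := by
      have : 0 ≤ ∑ v ∈ F.image (G.opp p), T v := Finset.sum_nonneg fun v _ => hT0 v
      linarith
    have h6 : ∑ z ∈ F.image (G.opp p), ((F.filter fun f => G.opp p f = z).card : ℝ) = F.card := by
      have := Finset.card_eq_sum_card_fiberwise (f := G.opp p) (s := F) (t := F.image (G.opp p))
        (fun f hf => Finset.mem_image_of_mem _ hf)
      rw [this]
      push_cast
      rfl
    calc ∑ f ∈ F, 1 / (b - T (G.opp p f))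
        ≤ ∑ z ∈ F.image (G.opp p), (((F.filter fun f => G.opp p f = z).card : ℝ) + T z) / b := by
          rw [h1]; exact Finset.sum_le_sum h2
      _ = (F.card + ∑ z ∈ F.image (G.opp p), T z) / b := by
          rw [← Finset.sum_div, Finset.sum_add_distrib, h6]
      _ ≤ 1 := by
          rw [div_le_one hb0, hcard]
          linarith
  -- the edges of the fan
  have hH : ∀ z, 0 < b - T z →
      1 - (b - a) * (1 / (b - T z)) ≤ if T z ≤ a then (a - T z) / (b - T z) else 0 := by
    intro z hz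
    have e : 1 - (b - a) * (1 / (b - T z)) = (a - T z) / (b - T z) := by
      field_simp
      ring
    rw [e]
    split_ifs with h
    · exact le_rfl
    · exact div_nonpos_of_nonpos_of_nonneg (by linarith) hz.le
  have hH0 : ∀ z, T z ≤ b → 0 ≤ if T z ≤ a then (a - T z) / (b - T z) else 0 := by
    intro z hz
    split_ifs with h
    · exact div_nonneg (by linarith) (by linarith)
    · exact le_rfl
  have hy00 := hT0 y0
  have hs0 : 0 ≤ ∑ v ∈ F.image (G.opp p), T v := Finset.sum_nonneg fun v _ => hT0 v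
  have hby : 1 ≤ b - T y0 := by linarith
  have hfan1 : T y0 + 1 - (b - a) ≤
      ∑ f ∈ F, if T (G.opp p f) ≤ a then (a - T (G.opp p f)) / (b - T (G.opp p f)) else 0 := by
    calc T y0 + 1 - (b - a) ≤ F.card - (b - a) * ∑ f ∈ F, 1 / (b - T (G.opp p f)) := by
          rw [hcard]
          have := mul_le_mul_of_nonneg_left hstar (by linarith : 0 ≤ b - a)
          linarith
      _ = ∑ f ∈ F, (1 - (b - a) * (1 / (b - T (G.opp p f)))) := by
          rw [Finset.sum_sub_distrib, Finset.mul_sum]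
          simp
      _ ≤ _ := by
          refine Finset.sum_le_sum fun f hf => hH _ ?_
          have := hNz _ (Finset.mem_image_of_mem _ hf)
          linarith
  -- the other edges
  have hmin : ∀ f ∈ G.inc p, T (G.opp p f) ≤ T y0 := by
    intro f hf
    have h1 : (G.deg y0 : ℝ) ≤ G.deg (G.opp p f) := by exact_mod_cast dt.min_deg p f hf
    simp only [hT]; linarith
  have hcard2 : ((G.inc p \ F).card : ℝ) = b - T y0 := by
    have h1 := Finset.card_sdiff_add_card_eq_card hfan.sub
    have h2 : (((G.inc p \ F).card + F.card : ℕ) : ℝ) = ((G.inc p).card : ℝ) := by rw [h1]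
    push_cast at h2
    have h3 : ((G.inc p).card : ℝ) = G.deg p := rfl
    rw [h3, hcard] at h2
    rw [hb]; linarith
  rw [← Finset.sum_sdiff hfan.sub]
  have hgoal : (2 * (D : ℝ) + 2) / 3 - G.deg p = 2 * a + 1 - b := by
    rw [ha, hb]; ring
  rw [hgoal]
  rcases le_or_gt (T y0) a with hc | hc
  · have h1 : a - T y0 ≤ ∑ f ∈ G.inc p \ F,
        if T (G.opp p f) ≤ a then (a - T (G.opp p f)) / (b - T (G.opp p f)) else 0 := by
      have h2 : ∀ f ∈ G.inc p \ F, (a - T y0) / (b - T y0) ≤
          if T (G.opp p f) ≤ a then (a - T (G.opp p f)) / (b - T (G.opp p f)) else 0 := by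
        intro f hf
        have h3 := hmin f (Finset.mem_sdiff.1 hf).1
        rw [if_pos (h3.trans hc)]
        rw [div_le_div_iff₀ (by linarith) (by linarith)]
        nlinarith
      calc a - T y0 = ∑ f ∈ G.inc p \ F, (a - T y0) / (b - T y0) := by
            rw [Finset.sum_const, nsmul_eq_mul, hcard2]
            field_simp
        _ ≤ _ := Finset.sum_le_sum h2
    linarith
  · have h1 : 0 ≤ ∑ f ∈ G.inc p \ F,
        if T (G.opp p f) ≤ a then (a - T (G.opp p f)) / (b - T (G.opp p f)) else 0 := by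
      refine Finset.sum_nonneg fun f hf => hH0 _ ?_
      have h3 := hmin f (Finset.mem_sdiff.1 hf).1
      linarith
    linarith

end RecMod

theorem stRec : StRec := by
  intro V E _ _ G D μ dt hD p hp
  by_cases h : 3 * G.deg p ≤ D
  · exact RecMod.small dt h
  · exact RecMod.medium dt hD hp h

end Pool.Agent.Helper82.EC
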