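import Pool.Agent.Helper82.EC.St

/-!
# MP_47b98d_co : the discharging summation
-/

set_option autoImplicit false

open Finset
open scoped Classical

namespace Pool.Agent.Helper82.EC

open MGraph

namespace SumAux

variable {V E : Type} [Fintype V] [Fintype E] (G : MGraph V E)

lemma mem_inc {v : V} {f : E} : f ∈ G.inc v ↔ v ∈ G.ends f := by
  simp [MGraph.inc]

lemma opp_eq {v : V} {f : E} (h : v ∈ G.ends f) : G.opp v f = Sym2.Mem.other h := by
  rw [MGraph.opp, dif_pos h]

lemma opp_mem {v : V} {f : E} (h : v ∈ G.ends f) : G.opp v f ∈ G.ends f := by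
  rw [opp_eq G h]
  exact Sym2.other_mem h

lemma opp_opp {v : V} {f : E} (h : v ∈ G.ends f) : G.opp (G.opp v f) f = v := by
  rw [opp_eq G (opp_mem G h)]
  have h1 := opp_eq G h
  have h2 : Sym2.Mem.other h ∈ G.ends f := Sym2.other_mem h
  have h3 := Sym2.other_invol h h2
  convert h3

lemma al_nonneg' {D : ℕ} (hD : 9 ≤ D) : 0 ≤ al D := by
  have : (9 : ℝ) ≤ D := by exact_mod_cast hD
  rw [al]
  apply div_nonneg <;> linarith

end SumAux

open SumAux

theorem stSum (hDart : StDart) (hRec : StRec) (hMp : StMp) (hAc : StAc) (hDebt : StDebt) :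
    StSum := by
  intro V E _ _ G D μ dt X hD hμ hX hFI
  have hD9 : (9 : ℝ) ≤ D := by exact_mod_cast hD
  have hal := al_nonneg' hD
  set a : ℝ := ((D : ℝ) - 2) / 3 with ha
  set R : Finset V := univ.filter fun v => dt.Rich v with hR
  -- step 1
  have hpay0 : ∀ du dp : ℕ, ¬ (2 * D + 2 ≤ 3 * du) → pay D du dp = 0 := by
    intro du dp h
    rw [pay, if_neg (by tauto)]
  have hpay1 : ∀ du dp : ℕ, (2 * D + 2 ≤ 3 * dp) → pay D du dp = 0 := by
    intro du dp h
    rw [pay, if_neg (by omega)]
  have hQ0 : ∀ v, ¬ dt.Rich v → dt.Q v = 0 := by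
    intro v hv
    rw [Data.Q]
    exact Finset.sum_eq_zero fun f _ => hpay0 _ _ hv
  have hstep1 : ∑ v : V, dt.Q v = ∑ v : V, ∑ f ∈ G.inc v, pay D (G.deg (G.opp v f)) (G.deg v) := by
    have h := hDart V E G (fun v f => pay D (G.deg v) (G.deg (G.opp v f)))
    have h2 : ∑ v : V, dt.Q v = ∑ v : V, ∑ f ∈ G.inc v, pay D (G.deg v) (G.deg (G.opp v f)) := rfl
    rw [h2, h]
    apply Finset.sum_congr rfl
    intro v _
    apply Finset.sum_congr rfl
    intro f hf
    rw [opp_opp G ((mem_inc G).1 hf)]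
  have hv : ∀ v : V, (if dt.Rich v then a - ((D : ℝ) - G.deg v) else 0) -
      ∑ f ∈ G.inc v, pay D (G.deg (G.opp v f)) (G.deg v) ≤
      (G.deg v : ℝ) - (2 * (D : ℝ) + 2) / 3 := by
    intro v
    by_cases h : dt.Rich v
    · rw [if_pos h, Finset.sum_eq_zero fun f _ => hpay1 _ _ h]
      rw [ha]; linarith
    · rw [if_neg h]
      have h' : 3 * G.deg v < 2 * D + 2 := by
        rw [Data.Rich] at h; omega
      have := hRec V E G D μ dt (by omega) v h'
      linarith
  have hstep2 : ∑ v : V, ((if dt.Rich v then a - ((D : ℝ) - G.deg v) else 0) - dt.Q v) ≤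
      ∑ v : V, ((G.deg v : ℝ) - (2 * (D : ℝ) + 2) / 3) := by
    calc _ = ∑ v : V, ((if dt.Rich v then a - ((D : ℝ) - G.deg v) else 0) -
          ∑ f ∈ G.inc v, pay D (G.deg (G.opp v f)) (G.deg v)) := by
          rw [Finset.sum_sub_distrib, Finset.sum_sub_distrib, hstep1]
      _ ≤ _ := Finset.sum_le_sum fun v _ => hv v
  -- the debtors
  let Deb : V → Prop := fun w => dt.Rich w ∧ dt.Sm w ∧ dt.spare w < 0
  let q : V → E → ℝ := fun u f =>
    if Deb (G.opp u f) ∧ f ∈ dt.FF (G.opp u f) then dt.tau (G.opp u f) f else 0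
  have hFFinc : ∀ u, dt.FF u ⊆ G.inc u := fun u => (dt.fan u).sub
  have hFFcard : ∀ u, ((dt.FF u).card : ℝ) = (D : ℝ) - G.deg (dt.xx u) + 1 := by
    intro u
    have h := (dt.fan u).card_eq
    have : ((dt.FF u).card : ℝ) + G.deg (dt.xx u) = D + 1 := by exact_mod_cast h
    linarith
  have hFFpos : ∀ u, (0 : ℝ) < (D : ℝ) - G.deg (dt.xx u) + 1 := by
    intro u
    have : (G.deg (dt.xx u) : ℝ) ≤ D := by exact_mod_cast dt.deg_le (dt.xx u)
    linarith
  have htau : ∀ u f, f ∈ G.inc u → dt.tau (G.opp u f) f =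
      if dt.Sm u ∧ f ∉ dt.FF u then al D else dt.kap u := by
    intro u f hf
    rw [Data.tau, opp_opp G ((mem_inc G).1 hf)]
  -- main claim for a rich vertex
  have hmain : ∀ u, dt.Rich u → ∑ f ∈ G.inc u, q u f + (if Deb u then dt.spare u else 0) ≤
      a - ((D : ℝ) - G.deg u) - dt.Q u := by
    intro u hu
    by_cases hS : dt.Sm u
    · have hsp : dt.spare u = a - (dt.Q u + ((D : ℝ) - G.deg u)) - al D * dt.jj u := by
        rw [Data.spare, if_pos hS]
      have hkap : dt.kap u = max 0 (dt.spare u) / ((D : ℝ) - G.deg (dt.xx u) + 1) := by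
        rw [Data.kap, if_pos hS]
      have hkap0 : 0 ≤ dt.kap u := by
        rw [hkap]; exact div_nonneg (le_max_left _ _) (hFFpos u).le
      have hq : ∀ f ∈ G.inc u, q u f ≤
          (if f ∉ dt.FF u ∧ dt.Rich (G.opp u f) then al D else 0) +
            (if f ∈ dt.FF u then dt.kap u else 0) := by
        intro f hf
        have h0 : 0 ≤ (if f ∉ dt.FF u ∧ dt.Rich (G.opp u f) then al D else 0) := by
          split_ifs <;> simp [hal]
        have h1 : 0 ≤ (if f ∈ dt.FF u then dt.kap u else 0) := by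
          split_ifs <;> simp [hkap0]
        show (if Deb (G.opp u f) ∧ f ∈ dt.FF (G.opp u f) then dt.tau (G.opp u f) f else 0) ≤ _
        by_cases hc : Deb (G.opp u f) ∧ f ∈ dt.FF (G.opp u f)
        · rw [if_pos hc, htau u f hf]
          by_cases hf2 : f ∈ dt.FF u
          · rw [if_neg (by tauto), if_neg (by tauto), if_pos hf2, zero_add]
          · rw [if_pos ⟨hS, hf2⟩, if_pos ⟨hf2, hc.1.1⟩, if_neg hf2, add_zero]
        · rw [if_neg hc]; linarith
      have hsum : ∑ f ∈ G.inc u, q u f ≤ al D * dt.jj u + max 0 (dt.spare u) := by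
        calc ∑ f ∈ G.inc u, q u f ≤ ∑ f ∈ G.inc u,
              ((if f ∉ dt.FF u ∧ dt.Rich (G.opp u f) then al D else 0) +
                (if f ∈ dt.FF u then dt.kap u else 0)) := Finset.sum_le_sum hq
          _ = al D * dt.jj u + max 0 (dt.spare u) := by
            rw [Finset.sum_add_distrib, ← Finset.sum_filter, ← Finset.sum_filter,
              Finset.sum_const, Finset.sum_const, Finset.filter_mem_eq_inter,
              Finset.inter_eq_right.2 (hFFinc u), nsmul_eq_mul, nsmul_eq_mul, hFFcard, hkap,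
              mul_div_cancel₀ _ (hFFpos u).ne']
            rw [Data.jj, mul_comm]
      have hmm : max 0 (dt.spare u) + (if Deb u then dt.spare u else 0) ≤ dt.spare u := by
        by_cases h : dt.spare u < 0
        · rw [if_pos ⟨hu, hS, h⟩, max_eq_left h.le, zero_add]
        · rw [if_neg (by intro h2; exact h h2.2.2), max_eq_right (not_lt.1 h), add_zero]
      linarith
    · have hsp : dt.spare u = a - (dt.Q u + ((D : ℝ) - G.deg u)) := by
        rw [Data.spare, if_neg hS, sub_zero]
      have hkap : dt.kap u = dt.spare u / D := by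
        rw [Data.kap, if_neg hS]
      have hsp0 : 0 ≤ dt.spare u := by
        have := hMp V E G D μ dt (by omega) hμ u hu hS
        rw [hsp]; linarith
      have hkap0 : 0 ≤ dt.kap u := by
        rw [hkap]; exact div_nonneg hsp0 (by linarith)
      have hq : ∀ f ∈ G.inc u, q u f ≤ dt.kap u := by
        intro f hf
        show (if Deb (G.opp u f) ∧ f ∈ dt.FF (G.opp u f) then dt.tau (G.opp u f) f else 0) ≤ _
        by_cases hc : Deb (G.opp u f) ∧ f ∈ dt.FF (G.opp u f)
        · rw [if_pos hc, htau u f hf, if_neg (by tauto)]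
        · rw [if_neg hc]; exact hkap0
      have hsum : ∑ f ∈ G.inc u, q u f ≤ dt.spare u := by
        calc ∑ f ∈ G.inc u, q u f ≤ ∑ _f ∈ G.inc u, dt.kap u := Finset.sum_le_sum hq
          _ = (G.deg u : ℝ) * (dt.spare u / D) := by
            rw [Finset.sum_const, nsmul_eq_mul, hkap]; rfl
          _ ≤ (D : ℝ) * (dt.spare u / D) := by
            apply mul_le_mul_of_nonneg_right
            · exact_mod_cast dt.deg_le u
            · exact div_nonneg hsp0 (by linarith)
          _ = dt.spare u := by field_simp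
      rw [if_neg (by intro h2; exact hS h2.2.1), add_zero]
      linarith
  -- poor vertices are given nothing
  have hpoor : ∀ u, ¬ dt.Rich u → ∑ f ∈ G.inc u, q u f = 0 := by
    intro u hu
    apply Finset.sum_eq_zero
    intro f hf
    show (if Deb (G.opp u f) ∧ f ∈ dt.FF (G.opp u f) then dt.tau (G.opp u f) f else 0) = 0
    rw [if_neg]
    rintro ⟨hc, hf2⟩
    have := (hAc V E G D μ dt (by omega) (G.opp u f) hc.1 hc.2.1).1 f hf2
    rw [opp_opp G ((mem_inc G).1 hf)] at this
    exact hu this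
  have hstep3 : ∑ u : V, (∑ f ∈ G.inc u, q u f + (if Deb u then dt.spare u else 0)) ≤
      ∑ v : V, ((if dt.Rich v then a - ((D : ℝ) - G.deg v) else 0) - dt.Q v) := by
    apply Finset.sum_le_sum
    intro u _
    by_cases hu : dt.Rich u
    · rw [if_pos hu]
      exact hmain u hu
    · rw [if_neg hu, hpoor u hu, if_neg (by intro h; exact hu h.1), hQ0 u hu]
      simp
  have hstep4 : ∑ u : V, ∑ f ∈ G.inc u, q u f =
      ∑ u : V, if Deb u then ∑ f ∈ dt.FF u, dt.tau u f else 0 := by
    rw [hDart V E G q]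
    apply Finset.sum_congr rfl
    intro u _
    by_cases hu : Deb u
    · rw [if_pos hu, ← Finset.sum_subset (hFFinc u)]
      · apply Finset.sum_congr rfl
        intro f hf
        have hf2 := (mem_inc G).1 (hFFinc u hf)
        show (if Deb (G.opp (G.opp u f) f) ∧ f ∈ dt.FF (G.opp (G.opp u f) f) then
          dt.tau (G.opp (G.opp u f) f) f else 0) = _
        rw [opp_opp G hf2, if_pos ⟨hu, hf⟩]
      · intro f hf hf3
        have hf2 := (mem_inc G).1 hf
        show (if Deb (G.opp (G.opp u f) f) ∧ f ∈ dt.FF (G.opp (G.opp u f) f) then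
          dt.tau (G.opp (G.opp u f) f) f else 0) = _
        rw [opp_opp G hf2, if_neg (by tauto)]
    · rw [if_neg hu]
      apply Finset.sum_eq_zero
      intro f hf
      have hf2 := (mem_inc G).1 hf
      show (if Deb (G.opp (G.opp u f) f) ∧ f ∈ dt.FF (G.opp (G.opp u f) f) then
        dt.tau (G.opp (G.opp u f) f) f else 0) = _
      rw [opp_opp G hf2, if_neg (by tauto)]
  have hstep5 : - (X * Fintype.card V) ≤
      ∑ u : V, (∑ f ∈ G.inc u, q u f + (if Deb u then dt.spare u else 0)) := by
    rw [Finset.sum_add_distrib, hstep4, ← Finset.sum_add_distrib]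
    have h1 : - (X * Fintype.card V) = ∑ _u : V, (-X) := by
      rw [Finset.sum_const, nsmul_eq_mul, Finset.card_univ]; ring
    rw [h1]
    apply Finset.sum_le_sum
    intro u _
    by_cases hu : Deb u
    · rw [if_pos hu, if_pos hu]
      have := hDebt V E G D μ dt X hD hμ hFI u hu.1 hu.2.1 hu.2.2
      linarith
    · rw [if_neg hu, if_neg hu]
      linarith
  linarith

end Pool.Agent.Helper82.EC
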