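import Pool.Agent.Helper82.EC.Crit
import Pool.Agent.Helper82.EC.M_Dart
import Pool.Agent.Helper82.EC.M_Rec
import Pool.Agent.Helper82.EC.M_Mp
import Pool.Agent.Helper82.EC.M_Ac
import Pool.Agent.Helper82.EC.M_Loss
import Pool.Agent.Helper82.EC.M_Debt
import Pool.Agent.Helper82.EC.M_Sum
import Pool.Agent.Helper82.EC.A_End
import Pool.Agent.Helper82.EC.A_Card
import Pool.Agent.Helper82.EC.A_F1
import Pool.Agent.Helper82.EC.A_F2
import Pool.Agent.Helper82.EC.A_K
import Pool.Agent.Helper82.EC.A_T
import Pool.Agent.Helper82.EC.A_U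
import Pool.Agent.Helper82.EC.A_Fan

/-! # MP_47b98d_co : assembly of all modules except the numerical conditions -/

set_option autoImplicit false

namespace Pool.Agent.Helper82.EC

theorem all_Fan : StFan := by
  have hCard := stCard
  have hEnd := stEnd
  have hFL := stFL
  have hF1 := stF1 hEnd hCard
  have hFD := stFD hEnd hCard hFL
  have hF2 := stF2 hEnd hCard hF1 hFL
  have hK := stK hEnd hCard
  have hKd := stKd hCard hK
  have hT := stT hEnd hCard hF1 hKd
  have hU := stU hEnd hCard hKd
  exact stFan hCard hF1 hFD hF2 hKd hT hU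

theorem all_Sum : StSum := by
  have hAc := stAc
  have hLoss := stLoss hAc
  have hDebt := stDebt hAc hLoss
  exact stSum stDart stRec stMp hAc hDebt

end Pool.Agent.Helper82.EC
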