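import Pool.Agent.Helper82.EC.St
import Pool.Agent.Helper82.EC.Basic

/-!
# MP_47b98d_co : the notions of the problem (chromatic index, critical graphs, average degree)
-/

set_option autoImplicit false
set_option linter.unusedSectionVars false

open Finset
open scoped Classical

namespace Pool.Agent.Helper82.EC

namespace MGraph

variable {V E : Type} [Fintype V] [Fintype E] (G : MGraph V E)

/-- `c` is a proper edge colouring with the `k` colours `0, ..., k - 1` of the edge set `F`: edges of
`F` with a common end have different colours -/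
def IsColoring (F : Finset E) (k : ℕ) (c : E → ℕ) : Prop :=
  (∀ e ∈ F, c e < k) ∧
    ∀ e ∈ F, ∀ f ∈ F, e ≠ f → (∃ v, v ∈ G.ends e ∧ v ∈ G.ends f) → c e ≠ c f

/-- the chromatic index of a subgraph with edge set `F` -/
noncomputable def chi (F : Finset E) : ℕ := sInf {k | ∃ c, G.IsColoring F k c}

/-- `(W, F)` is a subgraph: the ends of the edges of `F` are in `W` -/
def IsSub (W : Finset V) (F : Finset E) : Prop := ∀ e ∈ F, ∀ v ∈ G.ends e, v ∈ W

/-- every proper subgraph has smaller chromatic index -/
def IsCritical : Prop := ∀ (W : Finset V) (F : Finset E), G.IsSub W F → (W ≠ univ ∨ F ≠ univ) →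
  G.chi F < G.chi univ

/-- the maximum degree -/
noncomputable def maxDeg : ℕ := univ.sup G.deg

/-- the multiplicity: the largest number of parallel edges joining two vertices -/
noncomputable def multiplicity : ℕ := univ.sup fun p : V × V => G.mult p.1 p.2

/-- `Δ`-critical: critical with chromatic index `Δ + 1` -/
def IsDeltaCritical : Prop := G.IsCritical ∧ G.chi univ = G.maxDeg + 1

/-- the average degree `2 |E| / |V|` -/
noncomputable def avgDeg (_ : MGraph V E) : ℝ := 2 * (Fintype.card E : ℝ) / Fintype.card V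

variable {G}

theorem chi_set_nonempty (F : Finset E) : {k | ∃ c, G.IsColoring F k c}.Nonempty := by
  refine ⟨Fintype.card E, fun e => (Fintype.equivFin E e : ℕ), fun e _ => (Fintype.equivFin E e).2,
    ?_⟩
  intro e _ f _ hef _ h
  exact hef ((Fintype.equivFin E).injective (Fin.ext h))

theorem exists_coloring (F : Finset E) : ∃ c, G.IsColoring F (G.chi F) c :=
  Nat.sInf_mem (chi_set_nonempty F)

theorem chi_le {F : Finset E} {k : ℕ} {c : E → ℕ} (h : G.IsColoring F k c) : G.chi F ≤ k :=
  Nat.sInf_le ⟨c, h⟩

theorem IsColoring.mono {F : Finset E} {k l : ℕ} {c : E → ℕ} (h : G.IsColoring F k c)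
    (hkl : k ≤ l) : G.IsColoring F l c :=
  ⟨fun e he => lt_of_lt_of_le (h.1 e he) hkl, h.2⟩

theorem sum_deg (G : MGraph V E) : ∑ v, G.deg v = 2 * Fintype.card E := by
  have h1 : ∀ v, G.deg v = ∑ f : E, if v ∈ G.ends f then 1 else 0 := by
    intro v
    unfold deg inc
    rw [card_filter]
  have h2 : ∀ f : E, (∑ v : V, if v ∈ G.ends f then 1 else 0) = 2 := by
    intro f
    have hd := G.loopless f
    induction h : G.ends f using Sym2.ind with
    | _ a b =>
      rw [h] at hd
      have hab : a ≠ b := fun h' => hd (Sym2.mk_isDiag_iff.mpr h')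
      rw [← card_filter]
      have : (univ.filter fun v => v ∈ s(a, b)) = {a, b} := by
        ext v; simp
      rw [this, card_pair hab]
  calc ∑ v, G.deg v = ∑ v, ∑ f : E, if v ∈ G.ends f then 1 else 0 := sum_congr rfl fun v _ => h1 v
    _ = ∑ f : E, ∑ v : V, if v ∈ G.ends f then 1 else 0 := sum_comm
    _ = ∑ _f : E, 2 := sum_congr rfl fun f _ => h2 f
    _ = 2 * Fintype.card E := by simp [mul_comm]

theorem IsDeltaCritical.critG (h : G.IsDeltaCritical) : CritG G G.maxDeg where
  deg_le := fun v => le_sup (mem_univ v)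
  deg_pos := by
    intro v
    by_contra h0
    have h0' : G.inc v = ∅ := by
      have : G.deg v = 0 := by omega
      unfold deg at this
      exact card_eq_zero.mp this
    have hsub : G.IsSub (univ.erase v) univ := by
      intro e _ u hu
      rw [mem_erase]
      refine ⟨?_, mem_univ u⟩
      intro huv
      have : e ∈ G.inc v := mem_inc.mpr (huv ▸ hu)
      rw [h0'] at this
      simp at this
    have := h.1 (univ.erase v) univ hsub (Or.inl (by
      intro h'
      have : v ∈ univ.erase v := by rw [h']; exact mem_univ v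
      simp at this))
    exact lt_irrefl _ this
  nocol := by
    rintro ⟨ψ, hψ, hall⟩
    choose c hcψ using fun e => Option.ne_none_iff_exists'.mp (hall e)
    have hc : G.IsColoring univ G.maxDeg (fun e => (c e : ℕ)) := by
      refine ⟨fun e _ => Fin.is_lt _, ?_⟩
      intro e _ f _ hef ⟨v, hve, hvf⟩ heq
      have h1 : c e = c f := Fin.ext heq
      exact hef (hψ e f v (c e) hve hvf (hcψ e) (by rw [hcψ f, h1]))
    have := chi_le hc
    rw [h.2] at this
    omega
  col := by
    intro e
    have hsub : G.IsSub univ (univ.erase e) := fun _ _ v _ => mem_univ v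
    have hlt := h.1 univ (univ.erase e) hsub (Or.inr (by
      intro h'
      have : e ∈ univ.erase e := by rw [h']; exact mem_univ e
      simp at this))
    rw [h.2] at hlt
    obtain ⟨c, hc⟩ := G.exists_coloring (univ.erase e)
    have hc' := hc.mono (show G.chi (univ.erase e) ≤ G.maxDeg by omega)
    have hmem : ∀ f, f ≠ e → f ∈ univ.erase e := fun f hf => by simp [hf]
    refine ⟨fun f => if hf : f = e then none else some ⟨c f, hc'.1 f (hmem f hf)⟩, ?_, ?_, ?_⟩
    · intro f g v a hf hg hfa hga
      by_contra hfg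
      by_cases h1 : f = e
      · simp [h1] at hfa
      · by_cases h2 : g = e
        · simp [h2] at hga
        · simp only [h1, h2, dif_neg, not_false_eq_true, Option.some.injEq] at hfa hga
          refine hc'.2 f (hmem f h1) g (hmem g h2) hfg ⟨v, hf, hg⟩ ?_
          have := hfa.trans hga.symm
          exact congrArg Fin.val this
    · simp
    · intro f hf
      simp [hf]

theorem mult_le_multiplicity (G : MGraph V E) (u v : V) : G.mult u v ≤ G.multiplicity :=
  le_sup (f := fun p : V × V => G.mult p.1 p.2) (mem_univ (u, v))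

end MGraph

open MGraph

/-- the data of Part B from the fans -/
theorem exists_data (hFan : StFan) {V E : Type} [Fintype V] [Fintype E] {G : MGraph V E} {D : ℕ}
    (h : CritG G D) : Nonempty (Data G D G.multiplicity) := by
  have hany := hFan V E G D h
  have hmin : ∀ u : V, ∃ f ∈ G.inc u, ∀ g ∈ G.inc u, G.deg (G.opp u f) ≤ G.deg (G.opp u g) := by
    intro u
    have hne : (G.inc u).Nonempty := card_pos.mp (h.deg_pos u)
    exact exists_min_image (G.inc u) (fun f => G.deg (G.opp u f)) hne
  choose ee hee hmin' using hmin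
  have hends : ∀ u, G.ends (ee u) = s(G.opp u (ee u), u) := by
    intro u
    rw [Sym2.eq_swap]
    exact opp_spec (mem_inc.mp (hee u))
  choose FF hFF using fun u => hany (ee u) (G.opp u (ee u)) u (hends u)
  exact ⟨⟨h.deg_le, G.mult_le_multiplicity, hany, fun u => G.opp u (ee u), ee, FF, hends, hmin',
    hFF⟩⟩

/-- the average degree from the discharging -/
theorem avg_of (hFan : StFan) (hSum : StSum) {V E : Type} [Fintype V] [Fintype E]
    {G : MGraph V E} (hG : G.IsDeltaCritical) (hD : 9 ≤ G.maxDeg)
    (hμ : 6 * G.multiplicity ≤ G.maxDeg + 4) {X : ℝ} (hX : 0 ≤ X)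
    (hFI : FIok G.maxDeg G.multiplicity X) :
    (2 * (G.maxDeg : ℝ) + 2) / 3 - X ≤ G.avgDeg := by
  obtain ⟨dt⟩ := exists_data hFan hG.critG
  have h1 := hSum V E G G.maxDeg G.multiplicity dt X hD hμ hX hFI
  have h2 : ∑ v : V, ((G.deg v : ℝ) - (2 * (G.maxDeg : ℝ) + 2) / 3) =
      2 * (Fintype.card E : ℝ) - (Fintype.card V : ℝ) * ((2 * (G.maxDeg : ℝ) + 2) / 3) := by
    rw [sum_sub_distrib, sum_const, card_univ, nsmul_eq_mul]
    congr 1
    have := sum_deg G
    exact_mod_cast this
  have hV : 0 < Fintype.card V := by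
    by_contra h0
    have : Fintype.card V = 0 := by omega
    have hemp : IsEmpty V := Fintype.card_eq_zero_iff.mp this
    have : G.maxDeg = 0 := by
      unfold maxDeg
      rw [univ_eq_empty, sup_empty]; rfl
    omega
  have hV' : (0 : ℝ) < Fintype.card V := by exact_mod_cast hV
  rw [h2] at h1
  unfold avgDeg
  rw [le_div_iff₀ hV']
  nlinarith

/-- Q1 for small multiplicity -/
theorem final_exact (hFan : StFan) (hSum : StSum) (hA : StFIA) (h2 : StFI2) {V E : Type}
    [Fintype V] [Fintype E] (G : MGraph V E) (hG : G.IsDeltaCritical) (hD : 9 ≤ G.maxDeg)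
    (hμ : G.multiplicity ≤ 2 ∨ 25 * (G.multiplicity + 1) ^ 2 ≤ 16 * (G.maxDeg + 1)) :
    (2 * (G.maxDeg : ℝ) + 2) / 3 ≤ G.avgDeg := by
  have hμ1 : 1 ≤ G.multiplicity := by
    by_contra h0
    have h0' : G.multiplicity = 0 := by omega
    have hdeg : ∀ v, G.deg v = 0 := by
      intro v
      unfold deg
      rw [card_eq_zero, eq_empty_iff_forall_notMem]
      intro f hf
      have h3 := G.mult_le_multiplicity v (G.opp v f)
      rw [h0'] at h3
      have h4 : G.mult v (G.opp v f) = 0 := by omega
      unfold mult at h4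
      rw [card_eq_zero, eq_empty_iff_forall_notMem] at h4
      apply h4 f
      rw [mem_filter]
      exact ⟨mem_univ f, opp_spec (mem_inc.mp hf)⟩
    have : G.maxDeg = 0 := by
      unfold maxDeg
      apply le_antisymm _ (Nat.zero_le _)
      apply Finset.sup_le
      intro v _
      rw [hdeg v]
    omega
  have key : ∀ X : ℝ, X = 0 → FIok G.maxDeg G.multiplicity X →
      6 * G.multiplicity ≤ G.maxDeg + 4 → (2 * (G.maxDeg : ℝ) + 2) / 3 ≤ G.avgDeg := by
    intro X hX hFI h6
    have := avg_of hFan hSum hG hD h6 (le_of_eq hX.symm) hFI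
    rw [hX, sub_zero] at this
    exact this
  rcases hμ with h | h
  · rcases (show G.multiplicity = 1 ∨ G.multiplicity = 2 by omega) with h1 | h1
    · exact key 0 rfl (hA G.maxDeg G.multiplicity hD hμ1 (by rw [h1]; omega)) (by omega)
    · refine key 0 rfl ?_ (by omega)
      rw [h1]
      exact h2 G.maxDeg hD
  · refine key 0 rfl (hA G.maxDeg G.multiplicity hD hμ1 h) ?_
    have h3 : 25 * (G.multiplicity + 1) ^ 2 ≤ 16 * (G.maxDeg + 1) := h
    generalize G.multiplicity = m at *
    generalize G.maxDeg = D at *
    by_contra hcon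
    have h4 : D + 5 ≤ 6 * m := by omega
    have h5 : 25 * (m + 1) ^ 2 ≤ 16 * (6 * m) := by nlinarith
    nlinarith [sq_nonneg ((m : ℤ) - 1)]

/-- the bound for multiplicity up to `Δ / 6` -/
theorem final_linear (hFan : StFan) (hSum : StSum) (hB : StFIB) {V E : Type} [Fintype V]
    [Fintype E] (G : MGraph V E) (hG : G.IsDeltaCritical) (hD : 9 ≤ G.maxDeg)
    (hμ : 6 * G.multiplicity ≤ G.maxDeg + 4) :
    (2 * (G.maxDeg : ℝ) + 2) / 3 - G.multiplicity ≤ G.avgDeg := by
  have hμ1 : 1 ≤ G.multiplicity := by
    by_contra h0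
    have h0' : G.multiplicity = 0 := by omega
    have hdeg : ∀ v, G.deg v = 0 := by
      intro v
      unfold deg
      rw [card_eq_zero, eq_empty_iff_forall_notMem]
      intro f hf
      have h3 := G.mult_le_multiplicity v (G.opp v f)
      rw [h0'] at h3
      have h4 : G.mult v (G.opp v f) = 0 := by omega
      unfold mult at h4
      rw [card_eq_zero, eq_empty_iff_forall_notMem] at h4
      apply h4 f
      rw [mem_filter]
      exact ⟨mem_univ f, opp_spec (mem_inc.mp hf)⟩
    have : G.maxDeg = 0 := by
      unfold maxDeg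
      apply le_antisymm _ (Nat.zero_le _)
      apply Finset.sup_le
      intro v _
      rw [hdeg v]
    omega
  exact avg_of hFan hSum hG hD hμ (by positivity) (hB G.maxDeg G.multiplicity hD hμ1 hμ)

end Pool.Agent.Helper82.EC
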