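import Pool.Agent.Helper82.EC.Crit

/-!
# MP_47b98d_co : the exact bound under one condition on the multiplicity
-/

set_option autoImplicit false

open Finset
open scoped Classical

namespace Pool.Agent.Helper82.EC

open MGraph

theorem one_le_multiplicity {V E : Type} [Fintype V] [Fintype E] (G : MGraph V E)
    (hD : 1 ≤ G.maxDeg) : 1 ≤ G.multiplicity := by
  by_contra h0
  have h0' : G.multiplicity = 0 := by omega
  have hdeg : ∀ v, G.deg v = 0 := by
    intro v
    unfold deg
    rw [card_eq_zero, eq_empty_iff_forall_notMem]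
    intro f hf
    have h3 := G.mult_le_multiplicity v (G.opp v f)
    rw [h0'] at h3
    have h4 : G.mult v (G.opp v f) = 0 := by omega
    unfold mult at h4
    rw [card_eq_zero, eq_empty_iff_forall_notMem] at h4
    apply h4 f
    rw [mem_filter]
    exact ⟨mem_univ f, opp_spec (mem_inc.mp hf)⟩
  have : G.maxDeg = 0 := by
    unfold maxDeg
    apply le_antisymm _ (Nat.zero_le _)
    apply Finset.sup_le
    intro v _
    rw [hdeg v]
  omega

/-- Q1 for small multiplicity, from the numerical condition -/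
theorem final_exact2 (hFan : StFan) (hSum : StSum)
    (hA : ∀ D μ : ℕ, 9 ≤ D → 1 ≤ μ → 25 * (2 * μ + 1) ^ 2 ≤ 64 * (D + 1) → FIok D μ 0)
    {V E : Type} [Fintype V] [Fintype E] (G : MGraph V E) (hG : G.IsDeltaCritical)
    (hD : 9 ≤ G.maxDeg)
    (hμ : 25 * (2 * G.multiplicity + 1) ^ 2 ≤ 64 * (G.maxDeg + 1)) :
    (2 * (G.maxDeg : ℝ) + 2) / 3 ≤ G.avgDeg := by
  have hμ1 : 1 ≤ G.multiplicity := one_le_multiplicity G (by omega)
  have h6 : 6 * G.multiplicity ≤ G.maxDeg + 4 := by
    generalize G.multiplicity = m at *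
    generalize G.maxDeg = D at *
    by_contra hcon
    have h4 : D + 5 ≤ 6 * m := by omega
    have h5 : 25 * (2 * m + 1) ^ 2 + 256 ≤ 64 * (6 * m) := by omega
    rcases (show m = 1 ∨ m = 2 ∨ 3 ≤ m by omega) with h | h | h
    · subst h; omega
    · subst h; omega
    · obtain ⟨k, rfl⟩ := Nat.exists_eq_add_of_le h
      nlinarith
  have := avg_of hFan hSum hG hD h6 le_rfl (hA G.maxDeg G.multiplicity hD hμ1 hμ)
  rw [sub_zero] at this
  exact this

end Pool.Agent.Helper82.EC
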