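import Mathlib

/-!
# Edge colouring of multigraphs: definitions (MP_47b98d_co)

`MGraph V E` is a loopless multigraph with vertex type `V` and edge type `E` (finite graphs: both
types are finite). A colouring with `D` colours is a map `φ : E → Option (Fin D)`; `none` means
uncoloured.
-/

set_option autoImplicit false

open Finset
open scoped Classical

namespace Pool.Agent.Helper82.EC

/-- A loopless multigraph: every edge has an unordered pair of two different ends; parallel edges
are allowed. -/
structure MGraph (V E : Type) where
  /-- the two ends of an edge -/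
  ends : E → Sym2 V
  /-- there are no loops -/
  loopless : ∀ e, ¬ (ends e).IsDiag

namespace MGraph

variable {V E : Type} (G : MGraph V E)

/-- the end of `f` different from `v` (junk value `v` if `v` is not an end of `f`) -/
noncomputable def opp (v : V) (f : E) : V :=
  if h : v ∈ G.ends f then Sym2.Mem.other h else v

/-! ### colourings -/

/-- no two different edges with a common end have the same colour -/
def Proper {D : ℕ} (φ : E → Option (Fin D)) : Prop :=
  ∀ e f v c, v ∈ G.ends e → v ∈ G.ends f → φ e = some c → φ f = some c → e = f

/-- the colour `c` is missing at `v` -/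
def Miss {D : ℕ} (φ : E → Option (Fin D)) (v : V) (c : Fin D) : Prop :=
  ∀ e, v ∈ G.ends e → φ e ≠ some c

/-- the graph of the edges with colour `a` or `b` -/
def KG {D : ℕ} (φ : E → Option (Fin D)) (a b : Fin D) : SimpleGraph V where
  Adj u v := u ≠ v ∧ ∃ e, G.ends e = s(u, v) ∧ (φ e = some a ∨ φ e = some b)
  symm := ⟨by
    rintro u v ⟨h, e, he, hc⟩
    exact ⟨h.symm, e, by rw [he, Sym2.eq_swap], hc⟩⟩
  loopless := ⟨fun u h => h.1 rfl⟩

/-- exchange the colours `a` and `b` on the component of `w` in the graph of the edges coloured `a`
or `b` -/
noncomputable def swapC {D : ℕ} (φ : E → Option (Fin D)) (a b : Fin D) (w : V) :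
    E → Option (Fin D) :=
  fun e => if ∃ v ∈ G.ends e, (G.KG φ a b).Reachable w v then (φ e).map (Equiv.swap a b) else φ e

/-- there is no proper colouring of all edges with `D` colours -/
def NoCol (D : ℕ) : Prop := ¬ ∃ ψ : E → Option (Fin D), G.Proper ψ ∧ ∀ e, ψ e ≠ none

/-- `φ` is a proper colouring with `D` colours of all edges except the edge `e`, whose ends are `x`
and `y`, and the whole graph has no proper colouring with `D` colours -/
structure Crit (D : ℕ) (φ : E → Option (Fin D)) (e : E) (x y : V) : Prop where
  ends_eq : G.ends e = s(x, y)
  proper : G.Proper φ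
  unc : φ e = none
  col : ∀ f, f ≠ e → φ f ≠ none
  nocol : G.NoCol D

/-! ### degrees -/

variable [Fintype V] [Fintype E]

/-- the edges at the vertex `v` -/
noncomputable def inc (v : V) : Finset E := univ.filter fun f => v ∈ G.ends f

/-- the degree of `v` -/
noncomputable def deg (v : V) : ℕ := (G.inc v).card

/-- the number of edges joining `u` and `v` -/
noncomputable def mult (u v : V) : ℕ := (univ.filter fun f => G.ends f = s(u, v)).card

/-- the number of edges joining `v` to a vertex of `P` -/
noncomputable def degTo (v : V) (P : Finset V) : ℕ :=
  ((G.inc v).filter fun f => G.opp v f ∈ P).card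

/-- the set of the colours missing at `v` -/
noncomputable def miss {D : ℕ} (φ : E → Option (Fin D)) (v : V) : Finset (Fin D) :=
  univ.filter fun c => G.Miss φ v c

end MGraph

end Pool.Agent.Helper82.EC
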