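import Pool.Agent.Helper82.EC.St

/-!
# MP_47b98d_co : the numerical condition for multiplicity 2
-/

set_option autoImplicit false

open Finset
open scoped Classical

namespace Pool.Agent.Helper82.EC

namespace FIx

/-- the factor of `3 D` in the main estimate -/
noncomputable def L3 (D μ s j t w c X : ℝ) : ℝ :=
  2 * (s - 1) - j + 3 + 6 * ((D + 1) / 3 - s) * (1 + j + t) / s - 2 * μ - 3 * w -
    2 * μ * (j - 1 + w) / c + 2 * μ * w / s + 3 * X

/-- the remainder in the main estimate -/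
noncomputable def C3 (μ s j t w : ℝ) : ℝ :=
  2 * (s - 1 + j) + 3 * (s - 6) * (j - 1 + w) + μ * (5 * j + 3 * w + 3 * t + 1 - s)

/-- positivity forces `2 (j + t) + 3 ≤ s` -/
lemma two_k (D s m j t : ℕ) (hs : m + j + t + 1 = s) (h3 : 3 * s ≤ D)
    (hpos : 0 < m * gg D s + t + al D * j - ((D : ℝ) - 2) / 3) : 2 * (j + t) + 3 ≤ s := by
  by_contra hcon
  have hle : s ≤ 2 * (j + t) + 2 := by omega
  have hle' : (s : ℝ) ≤ 2 * (j + t) + 2 := by exact_mod_cast hle
  have hs1 : (1:ℝ) ≤ s := by exact_mod_cast (by omega : 1 ≤ s)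
  have hs0 : (0:ℝ) < s := by linarith
  have hD3 : 3 * (s : ℝ) ≤ D := by exact_mod_cast h3
  have hD0 : (0:ℝ) < D := by linarith
  have hm : (m : ℝ) = s - 1 - j - t := by
    have : (m : ℝ) + j + t + 1 = s := by exact_mod_cast hs
    linarith
  have hj0 : (0:ℝ) ≤ j := by positivity
  have e1 : (m : ℝ) * gg D s + t + al D * j - ((D : ℝ) - 2) / 3 =
      ((D + 1 : ℝ) / 3 - s) * (s - 2 - 2 * (j + t)) / s - j * (2 / 3 + 2 / (3 * D)) := by
    rw [hm]
    unfold gg al
    field_simp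
    ring
  rw [e1] at hpos
  have h1 : ((D + 1 : ℝ) / 3 - s) * (s - 2 - 2 * (j + t)) / s ≤ 0 := by
    apply div_nonpos_of_nonpos_of_nonneg _ hs0.le
    apply mul_nonpos_of_nonneg_of_nonpos
    · linarith
    · linarith
  have h2 : 0 ≤ (j : ℝ) * (2 / 3 + 2 / (3 * D)) := by positivity
  linarith

lemma ph_eq (D c : ℕ) (hD : 10 ≤ D) (hc : 2 ≤ c) (hcD : 3 * c ≤ D) :
    ph D c ≤ 2 / (3 * c) - 2 / (3 * D) := by
  have hc' : (2:ℝ) ≤ c := by exact_mod_cast hc
  have hD3 : 3 * (c : ℝ) ≤ D := by exact_mod_cast hcD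
  have hD0 : (0:ℝ) < D := by linarith
  have hc0 : (0:ℝ) < c := by linarith
  have hden : (0:ℝ) < (D : ℝ) - c + 1 := by linarith
  have e1 : ph D c = 2 / (3 * c) - 2 * ((D : ℝ) - 1) / (3 * D * ((D : ℝ) - c + 1)) := by
    unfold ph gg al
    field_simp
    ring
  rw [e1]
  have h2 : 2 / (3 * (D : ℝ)) ≤ 2 * ((D : ℝ) - 1) / (3 * D * ((D : ℝ) - c + 1)) := by
    rw [div_le_div_iff₀ (by positivity) (by positivity)]
    nlinarith
  linarith

lemma om_eq (D : ℕ) (hD : 10 ≤ D) : om D = (1 + 5 / (D : ℝ)) / D := by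
  unfold om
  rw [if_neg (by omega)]

/-- the main reduction -/
lemma master (D μ : ℕ) (X : ℝ) (hD : 10 ≤ D) (s m j t w : ℕ) (hs : m + j + t + 1 = s)
    (h3 : 3 * s ≤ D) (hw1 : 1 ≤ w) (hwm : w ≤ m) (_ : w ≤ μ) (hk : 2 * (j + t) + 3 ≤ s)
    (hG : 0 ≤ (D : ℝ) * L3 D μ s j t w (min s (m + 2) : ℕ) X + C3 μ s j t w) :
    (m * gg D s + t + al D * j - ((D : ℝ) - 2) / 3) +
      (om D * ((D : ℝ) - s + 1) * ((j : ℝ) - 1 + w) +
        max 0 (ph D (min s (m + 2)) - om D) * (μ * ((j : ℝ) - 1 + w)) +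
        ph D s * (μ * ((s : ℝ) - w)) + μ * ((s : ℝ) - 2 - t) / D) ≤
    ((D : ℝ) - s + 1) * al D + X := by
  have hs3 : (3:ℝ) ≤ s := by exact_mod_cast (by omega : 3 ≤ s)
  have hs0 : (0:ℝ) < s := by linarith
  have hD3 : 3 * (s : ℝ) ≤ D := by exact_mod_cast h3
  have hD10 : (10:ℝ) ≤ D := by exact_mod_cast hD
  have hD0 : (0:ℝ) < D := by linarith
  have hm : (m : ℝ) = s - 1 - j - t := by
    have : (m : ℝ) + j + t + 1 = s := by exact_mod_cast hs
    linarith
  have hj0 : (0:ℝ) ≤ j := by positivity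
  have hw1' : (1:ℝ) ≤ w := by exact_mod_cast hw1
  have hws : (w : ℝ) ≤ s := by exact_mod_cast (by omega : w ≤ s)
  have hμ0 : (0:ℝ) ≤ μ := by positivity
  have hn : (0:ℝ) ≤ (j : ℝ) - 1 + w := by linarith
  set c : ℕ := min s (m + 2) with hc
  have hc2 : 2 ≤ c := by omega
  have hcD : 3 * c ≤ D := by omega
  have hc2' : (2:ℝ) ≤ c := by exact_mod_cast hc2
  have hcD' : 3 * (c : ℝ) ≤ D := by exact_mod_cast hcD
  have hc0 : (0:ℝ) < c := by linarith
  -- bound for om
  have b1 : om D * ((D : ℝ) - s + 1) ≤ 1 + (6 - s) / D := by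
    rw [om_eq D hD]
    have e : 1 + (6 - (s : ℝ)) / D - (1 + 5 / (D : ℝ)) / D * ((D : ℝ) - s + 1) =
        5 * ((s : ℝ) - 1) / D ^ 2 := by
      field_simp
      ring
    have : 0 ≤ 5 * ((s : ℝ) - 1) / D ^ 2 := by
      apply div_nonneg _ (by positivity)
      linarith
    linarith
  have b2 : max 0 (ph D c - om D) ≤ 2 / (3 * c) - 5 / (3 * D) := by
    have h1 := ph_eq D c hD hc2 hcD
    have h2 : 1 / (D : ℝ) ≤ om D := by
      rw [om_eq D hD]
      apply div_le_div_of_nonneg_right _ hD0.le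
      have : (0:ℝ) ≤ 5 / D := by positivity
      linarith
    have h3 : 5 / (3 * (D : ℝ)) = 2 / (3 * D) + 1 / D := by field_simp; ring
    have h4 : 2 / (D : ℝ) ≤ 2 / (3 * c) :=
      div_le_div_of_nonneg_left (by norm_num) (by positivity) hcD'
    have h5 : 5 / (3 * (D : ℝ)) ≤ 2 / D := by
      rw [div_le_div_iff₀ (by positivity) hD0]
      nlinarith
    apply max_le
    · linarith
    · linarith
  have b3 : ph D s ≤ 2 / (3 * s) - 2 / (3 * D) := ph_eq D s hD (by omega) h3
  have t1 : om D * ((D : ℝ) - s + 1) * ((j : ℝ) - 1 + w) ≤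
      (1 + (6 - s) / D) * ((j : ℝ) - 1 + w) := mul_le_mul_of_nonneg_right b1 hn
  have t2 : max 0 (ph D c - om D) * (μ * ((j : ℝ) - 1 + w)) ≤
      (2 / (3 * c) - 5 / (3 * D)) * (μ * ((j : ℝ) - 1 + w)) :=
    mul_le_mul_of_nonneg_right b2 (mul_nonneg hμ0 hn)
  have t3 : ph D s * (μ * ((s : ℝ) - w)) ≤ (2 / (3 * s) - 2 / (3 * D)) * (μ * ((s : ℝ) - w)) :=
    mul_le_mul_of_nonneg_right b3 (mul_nonneg hμ0 (by linarith))
  have key : (((D : ℝ) - s + 1) * al D + X) - ((m * gg D s + t + al D * j - ((D : ℝ) - 2) / 3) +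
      ((1 + (6 - s) / D) * ((j : ℝ) - 1 + w) +
        (2 / (3 * c) - 5 / (3 * D)) * (μ * ((j : ℝ) - 1 + w)) +
        (2 / (3 * s) - 2 / (3 * D)) * (μ * ((s : ℝ) - w)) + μ * ((s : ℝ) - 2 - t) / D)) =
      ((D : ℝ) * L3 D μ s j t w c X + C3 μ s j t w) / (3 * D) := by
    rw [hm]
    unfold gg al L3 C3
    field_simp
    ring
  have hfin : 0 ≤ ((D : ℝ) * L3 D μ s j t w c X + C3 μ s j t w) / (3 * D) := by
    positivity
  linarith

end FIx

open FIx in
theorem stFI2 : StFI2 := by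
  intro D hD9 s m j t w hs h3 hw1 hwμ hwm hpos
  have hk := two_k D s m j t hs h3 hpos
  rcases Nat.lt_or_ge D 11 with hDs | hDs
  · -- D = 9 or D = 10
    have hs3 : s = 3 := by omega
    have hj : j = 0 := by omega
    have ht : t = 0 := by omega
    have hm : m = 2 := by omega
    subst hs3 hj ht hm
    have hDD : D = 9 ∨ D = 10 := by omega
    have hww : w = 1 ∨ w = 2 := by omega
    rcases hDD with rfl | rfl
    · have hmax : max 0 (ph 9 (min 3 (2 + 2)) - om 9) = 0 := by
        have : ph 9 (min 3 (2 + 2)) - om 9 = 0 := by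
          unfold ph om gg al
          norm_num
        rw [this, max_self]
      rw [hmax]
      unfold ph om gg al
      rcases hww with rfl | rfl <;> norm_num
    · have hmax : max 0 (ph 10 (min 3 (2 + 2)) - om 10) ≤ 1 / 60 := by
        have : ph 10 (min 3 (2 + 2)) - om 10 ≤ 1 / 60 := by
          unfold ph om gg al
          norm_num
        exact max_le (by norm_num) this
      have hn : (0:ℝ) ≤ ((2 : ℕ) : ℝ) * (((0 : ℕ) : ℝ) - 1 + w) := by
        have : (1:ℝ) ≤ w := by exact_mod_cast hw1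
        have h2 : (0:ℝ) ≤ ((0 : ℕ) : ℝ) - 1 + w := by push_cast; linarith
        positivity
      have hmul := mul_le_mul_of_nonneg_right hmax hn
      have hrest : (((2 : ℕ) : ℝ) * gg 10 3 + ((0 : ℕ) : ℝ) + al 10 * ((0 : ℕ) : ℝ) -
          (((10 : ℕ) : ℝ) - 2) / 3) +
          (om 10 * (((10 : ℕ) : ℝ) - ((3 : ℕ) : ℝ) + 1) * (((0 : ℕ) : ℝ) - 1 + w) +
          1 / 60 * (((2 : ℕ) : ℝ) * (((0 : ℕ) : ℝ) - 1 + w)) +
          ph 10 3 * (((2 : ℕ) : ℝ) * (((3 : ℕ) : ℝ) - w)) +
          ((2 : ℕ) : ℝ) * (((3 : ℕ) : ℝ) - 2 - ((0 : ℕ) : ℝ)) / ((10 : ℕ) : ℝ)) ≤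
          (((10 : ℕ) : ℝ) - ((3 : ℕ) : ℝ) + 1) * al 10 + 0 := by
        unfold ph om gg al
        rcases hww with rfl | rfl <;> norm_num
      linarith
  · -- D ≥ 11
    refine master D 2 0 (by omega) s m j t w hs h3 hw1 hwm hwμ hk ?_
    have hs3 : (3:ℝ) ≤ s := by exact_mod_cast (by omega : 3 ≤ s)
    have hs0 : (0:ℝ) < s := by linarith
    have hD3 : 3 * (s : ℝ) ≤ D := by exact_mod_cast h3
    have hD11 : (11:ℝ) ≤ D := by exact_mod_cast hDs
    have hD0 : (0:ℝ) < D := by linarith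
    have hj0 : (0:ℝ) ≤ j := by positivity
    have ht0 : (0:ℝ) ≤ t := by positivity
    have hk' : 2 * ((j : ℝ) + t) + 3 ≤ s := by exact_mod_cast hk
    have hh : 1 / 3 ≤ ((D : ℝ) + 1) / 3 - s := by linarith
    have hww : w = 1 ∨ w = 2 := by omega
    rcases Nat.eq_zero_or_pos (j + t) with h0 | h0
    · -- k = 0
      have hj : j = 0 := by omega
      have ht : t = 0 := by omega
      subst hj ht
      have hmin : min s (m + 2) = s := by omega
      rw [hmin]
      unfold L3 C3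
      rcases hww with rfl | rfl
      · push_cast
        have e : (D : ℝ) * (2 * ((s : ℝ) - 1) - 0 + 3 + 6 * (((D : ℝ) + 1) / 3 - s) * (1 + 0 + 0) / s -
            2 * 2 - 3 * 1 - 2 * 2 * (0 - 1 + 1) / s + 2 * 2 * 1 / s + 3 * 0) +
            (2 * ((s : ℝ) - 1 + 0) + 3 * ((s : ℝ) - 6) * (0 - 1 + 1) +
              2 * (5 * 0 + 3 * 1 + 3 * 0 + 1 - s)) =
            (D : ℝ) * (2 * ((s : ℝ) - 3) + (6 * (((D : ℝ) + 1) / 3 - s) + 4) / s) + 6 := by
          field_simp
          ring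
        rw [e]
        have : 0 ≤ (6 * (((D : ℝ) + 1) / 3 - s) + 4) / s := by
          apply div_nonneg _ hs0.le
          linarith
        have h5 : 0 ≤ 2 * ((s : ℝ) - 3) + (6 * (((D : ℝ) + 1) / 3 - s) + 4) / s := by linarith
        positivity
      · push_cast
        have e : (D : ℝ) * (2 * ((s : ℝ) - 1) - 0 + 3 + 6 * (((D : ℝ) + 1) / 3 - s) * (1 + 0 + 0) / s -
            2 * 2 - 3 * 2 - 2 * 2 * (0 - 1 + 2) / s + 2 * 2 * 2 / s + 3 * 0) +
            (2 * ((s : ℝ) - 1 + 0) + 3 * ((s : ℝ) - 6) * (0 - 1 + 2) +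
              2 * (5 * 0 + 3 * 2 + 3 * 0 + 1 - s)) =
            (D : ℝ) * ((2 * s ^ 2 - 9 * s + 6 * (((D : ℝ) + 1) / 3 - s) + 4) / s) +
              3 * (s - 2) := by
          field_simp
          ring
        rw [e]
        have h6 : 0 ≤ 2 * (s : ℝ) ^ 2 - 9 * s + 6 * (((D : ℝ) + 1) / 3 - s) + 4 := by
          rcases Nat.lt_or_ge s 4 with hs4 | hs4
          · have : s = 3 := by omega
            subst this
            push_cast
            linarith
          · have hs4' : (4:ℝ) ≤ s := by exact_mod_cast hs4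
            nlinarith
        have h7 : 0 ≤ (2 * (s : ℝ) ^ 2 - 9 * s + 6 * (((D : ℝ) + 1) / 3 - s) + 4) / s :=
          div_nonneg h6 hs0.le
        have h8 : 0 ≤ 3 * ((s : ℝ) - 2) := by linarith
        positivity
    · -- k ≥ 1
      have hmin : min s (m + 2) = m + 2 := by omega
      rw [hmin]
      have hc : ((m + 2 : ℕ) : ℝ) = s + 1 - (j + t) := by
        have : (m : ℝ) + j + t + 1 = s := by exact_mod_cast hs
        push_cast
        linarith
      rw [hc]
      have hc5 : (5:ℝ) ≤ s + 1 - (j + t) := by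
        rw [← hc]
        exact_mod_cast (by omega : 5 ≤ m + 2)
      have hcj : (j : ℝ) + 4 ≤ s + 1 - (j + t) := by linarith
      have hc0 : (0:ℝ) < s + 1 - (j + t) := by linarith
      have hk1 : (1:ℝ) ≤ (j : ℝ) + t := by exact_mod_cast h0
      have hC : 0 ≤ ((s : ℝ) - 2) * j := by
        apply mul_nonneg _ hj0
        linarith
      unfold L3 C3
      rcases hww with rfl | rfl
      · push_cast
        have e : (D : ℝ) * (2 * ((s : ℝ) - 1) - j + 3 + 6 * (((D : ℝ) + 1) / 3 - s) * (1 + j + t) / s -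
            2 * 2 - 3 * 1 - 2 * 2 * (j - 1 + 1) / (s + 1 - (j + t)) + 2 * 2 * 1 / s + 3 * 0) +
            (2 * ((s : ℝ) - 1 + j) + 3 * ((s : ℝ) - 6) * (j - 1 + 1) +
              2 * (5 * j + 3 * 1 + 3 * t + 1 - s)) =
            (D : ℝ) * ((2 * s - j - 6 - 4 * j / (s + 1 - (j + t))) +
              (6 * (((D : ℝ) + 1) / 3 - s) * (1 + j + t) + 4) / s) +
              (3 * ((s : ℝ) - 2) * j + 6 + 6 * t) := by
          field_simp
          ring
        rw [e]
        have h1 : 4 * (j : ℝ) / (s + 1 - (j + t)) ≤ j := by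
          rw [div_le_iff₀ hc0]
          nlinarith
        have h2 : 0 ≤ 2 * (s : ℝ) - j - 6 - 4 * j / (s + 1 - (j + t)) := by linarith
        have h3 : 0 ≤ (6 * (((D : ℝ) + 1) / 3 - s) * (1 + j + t) + 4) / s := by
          apply div_nonneg _ hs0.le
          have : 0 ≤ (((D : ℝ) + 1) / 3 - s) * (1 + j + t) :=
            mul_nonneg (by linarith) (by linarith)
          linarith
        have h4 : 0 ≤ 3 * ((s : ℝ) - 2) * j + 6 + 6 * t := by linarith
        have h5 := mul_nonneg hD0.le (add_nonneg h2 h3)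
        linarith
      · push_cast
        have e : (D : ℝ) * (2 * ((s : ℝ) - 1) - j + 3 + 6 * (((D : ℝ) + 1) / 3 - s) * (1 + j + t) / s -
            2 * 2 - 3 * 2 - 2 * 2 * (j - 1 + 2) / (s + 1 - (j + t)) + 2 * 2 * 2 / s + 3 * 0) +
            (2 * ((s : ℝ) - 1 + j) + 3 * ((s : ℝ) - 6) * (j - 1 + 2) +
              2 * (5 * j + 3 * 2 + 3 * t + 1 - s)) =
            (D : ℝ) * ((2 * s - j - 9 - 4 * (j + 1) / (s + 1 - (j + t))) +
              (6 * (((D : ℝ) + 1) / 3 - s) * (1 + j + t) + 8) / s) +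
              (3 * ((s : ℝ) - 2) * (j + 1) + 6 * t) := by
          field_simp
          ring
        rw [e]
        have h3 : 8 / (s : ℝ) ≤ (6 * (((D : ℝ) + 1) / 3 - s) * (1 + j + t) + 8) / s := by
          apply div_le_div_of_nonneg_right _ hs0.le
          have : 0 ≤ (((D : ℝ) + 1) / 3 - s) * (1 + j + t) :=
            mul_nonneg (by linarith) (by linarith)
          linarith
        have h4 : 0 ≤ 3 * ((s : ℝ) - 2) * (j + 1) + 6 * t := by
          have : 0 ≤ (s : ℝ) - 2 := by linarith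
          positivity
        have h2 : 0 ≤ (2 * (s : ℝ) - j - 9 - 4 * (j + 1) / (s + 1 - (j + t))) + 8 / s := by
          rcases Nat.eq_zero_or_pos j with hj | hj
          · subst hj
            have ht1 : (1:ℝ) ≤ t := by exact_mod_cast (by omega : 1 ≤ t)
            have h6 : 4 * (((0 : ℕ) : ℝ) + 1) / (s + 1 - (((0 : ℕ) : ℝ) + t)) ≤ 1 := by
              rw [div_le_one hc0]
              push_cast at hc5 ⊢
              linarith
            have h7 : 0 ≤ 8 / (s : ℝ) := by positivity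
            push_cast at h6 hk' ⊢
            linarith
          · rcases Nat.lt_or_ge j 2 with hj2 | hj2
            · have hj1 : j = 1 := by omega
              subst hj1
              push_cast at hc5 hcj hk' ⊢
              -- 2 s - 10 - 8 / c + 8 / s, s = c + t
              rcases Nat.lt_or_ge s 6 with hs6 | hs6
              · have hs5 : s = 5 := by omega
                have ht : t = 0 := by omega
                subst hs5 ht
                norm_num
              · have hs6' : (6:ℝ) ≤ s := by exact_mod_cast hs6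
                have h6 : 4 * ((1:ℝ) + 1) / (s + 1 - (1 + t)) ≤ 2 := by
                  rw [div_le_iff₀ (by linarith)]
                  linarith
                have h7 : 0 ≤ 8 / (s : ℝ) := by positivity
                linarith
            · have hj2' : (2:ℝ) ≤ j := by exact_mod_cast hj2
              have h6 : 4 * ((j : ℝ) + 1) / (s + 1 - (j + t)) ≤ 3 * j - 3 := by
                rw [div_le_iff₀ hc0]
                nlinarith
              have h7 : 0 ≤ 8 / (s : ℝ) := by positivity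
              linarith
        have h5 : 0 ≤ (2 * (s : ℝ) - j - 9 - 4 * (j + 1) / (s + 1 - (j + t))) +
            (6 * (((D : ℝ) + 1) / 3 - s) * (1 + j + t) + 8) / s := by linarith
        have h6 := mul_nonneg hD0.le h5
        linarith

end Pool.Agent.Helper82.EC
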