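import Pool.Agent.Helper82.EC.St

/-!
# MP_47b98d_co, module FIA: the numerical inequality in the range `25 (μ + 1) ^ 2 ≤ 16 (D + 1)`
-/

set_option autoImplicit false

namespace Pool.Agent.Helper82.EC

namespace FIA

/-- the numerator of the simplified expression, integers -/
def NN (D μ s j t : ℤ) : ℤ :=
  (s + 5) * (5 * (μ + 1) * s * D - 2 * D * (s ^ 2 + D + 1) - 2 * μ * D -
    s * (s * (2 * μ - 1) + 3 * μ ^ 2 - 17 * μ + 16)) -
  t * ((s + 5) * (2 * (D + 1 - 3 * s) * D + 3 * μ * s)) -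
  j * ((s + 5) * (2 * (D + 1 - 3 * s) * D - (D + 1 - 3 * s + 15) * s + 5 * μ * s)) +
  4 * μ * D * (j * s + (μ - 1) * (j + t))

/-- the numerator of the simplified expression, real numbers -/
def NR (D μ s j t : ℝ) : ℝ :=
  (s + 5) * (5 * (μ + 1) * s * D - 2 * D * (s ^ 2 + D + 1) - 2 * μ * D -
    s * (s * (2 * μ - 1) + 3 * μ ^ 2 - 17 * μ + 16)) -
  t * ((s + 5) * (2 * (D + 1 - 3 * s) * D + 3 * μ * s)) -
  j * ((s + 5) * (2 * (D + 1 - 3 * s) * D - (D + 1 - 3 * s + 15) * s + 5 * μ * s)) +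
  4 * μ * D * (j * s + (μ - 1) * (j + t))

/-- one case of the finite check -/
def Good (D μ s j t : ℕ) : Prop :=
  2 * (t : ℤ) * ((D : ℤ) + 1 - 3 * s) * D + j * (2 * ((D : ℤ) + 1 - 3 * s) * D + 2 * s * (D + 1)) <
    ((s : ℤ) - 2) * ((D : ℤ) + 1 - 3 * s) * D → NN D μ s j t ≤ 0

instance (D μ s j t : ℕ) : Decidable (Good D μ s j t) := by unfold Good; infer_instance

/-- cases with given `j + t` -/
def Good1 (D μ s k : ℕ) : Prop := 2 * k + 2 < s → ∀ j < k + 1, Good D μ s j (k - j)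

instance (D μ s k : ℕ) : Decidable (Good1 D μ s k) := by unfold Good1; infer_instance

/-- cases with given `s` -/
def Good2 (D μ s : ℕ) : Prop := 2 ≤ s ∧ 3 * s ≤ D → ∀ k < 10, Good1 D μ s k

instance (D μ s : ℕ) : Decidable (Good2 D μ s) := by unfold Good2; infer_instance

/-- cases with given `D` and `μ` -/
def Good3 (D μ : ℕ) : Prop := 1 ≤ μ ∧ 25 * (μ + 1) ^ 2 ≤ 16 * (D + 1) → ∀ s < 21, Good2 D μ s

instance (D μ : ℕ) : Decidable (Good3 D μ) := by unfold Good3; infer_instance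

theorem fin_check : ∀ D < 63, ∀ μ < 6, Good3 D μ := by
  decide +kernel

/-- the coefficient of `t` -/
theorem coefT (R D μ s : ℝ) (hR : R ^ 2 = D + 1) (hR8 : 8 ≤ R) (hμ1 : 1 ≤ μ)
    (hμ : 5 * (μ + 1) ≤ 4 * R) (hs2 : 2 ≤ s) (hsD : 3 * s ≤ D) :
    0 ≤ (s + 5) * (2 * (D + 1 - 3 * s) * D + 3 * μ * s) - 4 * μ * (μ - 1) * D := by
  have hD : 0 < D := by linarith
  have hH : 1 ≤ D + 1 - 3 * s := by linarith
  have hμR : μ ≤ 4 / 5 * R - 1 := by linarith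
  have hμ2 : μ * (μ - 1) ≤ 16 / 25 * R ^ 2 := by nlinarith
  rcases le_or_gt (6 * s) (R ^ 2) with h | h
  · have h1 : R ^ 2 ≤ 2 * (D + 1 - 3 * s) := by linarith
    have h2 : 7 * R ^ 2 ≤ (s + 5) * (2 * (D + 1 - 3 * s)) := by nlinarith
    have h3 : 4 * (μ * (μ - 1)) ≤ (s + 5) * (2 * (D + 1 - 3 * s)) := by nlinarith
    have h4 : 0 ≤ (s + 5) * (3 * μ * s) := by positivity
    nlinarith
  · have hsμ : μ - 1 ≤ s + 5 := by nlinarith
    rcases le_or_gt (2 * μ) (D + 1 - 3 * s) with h1 | h1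
    · have h2 : 4 * (μ * (μ - 1)) ≤ (s + 5) * (2 * (D + 1 - 3 * s)) := by nlinarith
      have h4 : 0 ≤ (s + 5) * (3 * μ * s) := by positivity
      nlinarith
    · have h2 : 2 * μ ≤ 1 / 5 * R ^ 2 := by nlinarith
      have h3 : 4 / 5 * R ^ 2 ≤ 3 * s := by linarith
      have h4 : R ^ 2 * (16 / 75 * R ^ 2 + 4) ≤ 3 * s * (s + 5) := by nlinarith [sq_nonneg R]
      have h5 : 4 * (μ - 1) * D ≤ R ^ 2 * (16 / 5 * R - 8) := by
        have : 4 * (μ - 1) ≤ 16 / 5 * R - 8 := by linarith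
        have h6 : 0 ≤ 4 * (μ - 1) := by linarith
        have h7 : D ≤ R ^ 2 := by linarith
        nlinarith
      have h6 : R ^ 2 * (16 / 5 * R - 8) ≤ R ^ 2 * (16 / 75 * R ^ 2 + 4) := by
        have : 16 / 5 * R - 8 ≤ 16 / 75 * R ^ 2 + 4 := by nlinarith [sq_nonneg (R - 15 / 2)]
        exact mul_le_mul_of_nonneg_left this (sq_nonneg R)
      have h7 : 4 * (μ - 1) * D ≤ 3 * s * (s + 5) := h5.trans (h6.trans h4)
      have h8 : 0 ≤ (s + 5) * (2 * (D + 1 - 3 * s) * D) := by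
        have : 0 ≤ s + 5 := by linarith
        positivity
      nlinarith

theorem aux1 (R : ℝ) (h : 8 ≤ R) : 0 ≤ 5 / 6 * R ^ 2 - 16 / 5 * R - 1 := by nlinarith

theorem aux2 (R : ℝ) (h : 8 ≤ R) :
    64 / 25 * R ^ 2 ≤ 7 * (5 / 6 * R ^ 2 - 16 / 5 * R - 1) := by nlinarith

theorem aux3 (R μ : ℝ) (h : 8 ≤ R) (h1 : 6 < μ) (h2 : μ ≤ 4 / 5 * R - 1) :
    4 * μ * (μ - 6) ≤ 4 * (4 / 5 * R - 1) * (4 / 5 * R - 7) := by
  have h3 : 0 ≤ μ - 6 := by linarith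
  have h4 : μ - 6 ≤ 4 / 5 * R - 7 := by linarith
  have h5 : 0 ≤ 4 * (4 / 5 * R - 1) := by linarith
  have h6 : 4 * μ ≤ 4 * (4 / 5 * R - 1) := by linarith
  exact mul_le_mul h6 h4 h3 h5

theorem aux4 (R : ℝ) (h : 8 ≤ R) :
    4 * (4 / 5 * R - 1) * (4 / 5 * R - 7) ≤ (R ^ 2 + 30) / 6 * (1 / 2 * R - 1) := by
  nlinarith [mul_nonneg (by linarith : (0 : ℝ) ≤ R) (sq_nonneg (R - 818 / 50))]

theorem aux5 (R μ s : ℝ) (h : 8 ≤ R) (h1 : 1 ≤ μ) (h2 : μ ≤ 4 / 5 * R - 1) (hs : R ^ 2 < 6 * s) :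
    4 * μ * (μ - 6) ≤ (s + 5) * (1 / 2 * R - 1) := by
  have h5 : (R ^ 2 + 30) / 6 * (1 / 2 * R - 1) ≤ (s + 5) * (1 / 2 * R - 1) := by
    apply mul_le_mul_of_nonneg_right _ (by linarith)
    linarith
  refine le_trans ?_ h5
  rcases le_or_gt μ 6 with h6 | h6
  · have h7 : 4 * μ * (μ - 6) ≤ 0 := mul_nonpos_of_nonneg_of_nonpos (by linarith) (by linarith)
    have h8 : 0 ≤ (R ^ 2 + 30) / 6 * (1 / 2 * R - 1) := by
      have : 0 ≤ 1 / 2 * R - 1 := by linarith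
      positivity
    linarith
  · exact (aux3 R μ h h6 h2).trans (aux4 R h)

theorem aux6 (R s H : ℝ) (h : 8 ≤ R) (hH : 1 ≤ H) (hs : 3 * s = R ^ 2 - H) :
    -(4 * (s - R) ^ 2) ≤ H * (5 / 3 * H - 37 / 10 * R) := by
  have e : 9 * (s - R) ^ 2 = (R ^ 2 - H - 3 * R) ^ 2 := by
    have : R ^ 2 - H - 3 * R = 3 * (s - R) := by linarith
    rw [this]
    ring
  rcases le_or_gt (222 / 100 * R) H with h7 | h7
  · have h8 : 0 ≤ H * (5 / 3 * H - 37 / 10 * R) := mul_nonneg (by linarith) (by linarith)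
    have h9 : 0 ≤ 4 * (s - R) ^ 2 := by positivity
    linarith
  · have h8 : 278 / 100 * R ≤ R ^ 2 - H - 3 * R := by nlinarith
    have h9 : (278 / 100 * R) ^ 2 ≤ (R ^ 2 - H - 3 * R) ^ 2 :=
      pow_le_pow_left₀ (by linarith) h8 2
    have h10 := sq_nonneg (H - 111 / 100 * R)
    have h11 := sq_nonneg R
    nlinarith only [h9, e, h10, h11]

/-- the bound for the coefficient of `j` -/
theorem aux7 (R μ s H : ℝ) (h : 8 ≤ R) (hH : 1 ≤ H) (hs : 3 * s = R ^ 2 - H) (hs2 : 2 ≤ s)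
    (h1 : 1 ≤ μ) (h2 : μ ≤ 4 / 5 * R - 1) :
    -(4 * (s + 5) * (s - R) ^ 2) ≤ H * ((s + 5) * (5 / 3 * H - 5 - 4 * μ) - 4 * μ * (μ - 6)) := by
  rcases le_or_gt (6 * s) (R ^ 2) with h0 | h0
  · have h4 : R ^ 2 ≤ 2 * H := by linarith
    have h5 : 0 ≤ (s + 5) * (5 / 3 * H - 5 - 4 * μ) - 4 * μ * (μ - 6) := by
      have h6 : 5 / 6 * R ^ 2 - 16 / 5 * R - 1 ≤ 5 / 3 * H - 5 - 4 * μ := by linarith
      have h7 := aux1 R h
      have h8 : 7 * (5 / 6 * R ^ 2 - 16 / 5 * R - 1) ≤ (s + 5) * (5 / 3 * H - 5 - 4 * μ) :=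
        mul_le_mul (by linarith) h6 h7 (by linarith)
      have h9 : 4 * μ * (μ - 6) ≤ 64 / 25 * R ^ 2 := by
        have h10 : μ ^ 2 ≤ (4 / 5 * R) ^ 2 := pow_le_pow_left₀ (by linarith) (by linarith) 2
        nlinarith only [h10, h1]
      have h10 := aux2 R h
      linarith
    have h6 := mul_nonneg (by linarith : 0 ≤ H) h5
    have h7 : 0 ≤ 4 * (s + 5) * (s - R) ^ 2 := by positivity
    linarith
  · have h4 := aux5 R μ s h h1 h2 h0
    have h5 : (s + 5) * (5 / 3 * H - 37 / 10 * R) ≤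
        (s + 5) * (5 / 3 * H - 5 - 4 * μ) - 4 * μ * (μ - 6) := by
      have h6 : 5 / 3 * H - 37 / 10 * R ≤ 5 / 3 * H - 5 - 4 * μ - (1 / 2 * R - 1) := by linarith
      have h7 : (s + 5) * (5 / 3 * H - 37 / 10 * R) ≤
          (s + 5) * (5 / 3 * H - 5 - 4 * μ - (1 / 2 * R - 1)) :=
        mul_le_mul_of_nonneg_left h6 (by linarith)
      have h8 : (s + 5) * (5 / 3 * H - 5 - 4 * μ - (1 / 2 * R - 1)) =
          (s + 5) * (5 / 3 * H - 5 - 4 * μ) - (s + 5) * (1 / 2 * R - 1) := by ring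
      linarith
    have h6 := aux6 R s H h hH hs
    have h7 := mul_le_mul_of_nonneg_left h5 (by linarith : 0 ≤ H)
    have h8 := mul_le_mul_of_nonneg_left h6 (by linarith : 0 ≤ s + 5)
    nlinarith only [h7, h8]

/-- the coefficient of `j` -/
theorem coefJ (R D μ s j : ℝ) (hR : R ^ 2 = D + 1) (hR8 : 8 ≤ R) (hμ1 : 1 ≤ μ)
    (hμ : 5 * (μ + 1) ≤ 4 * R) (hs2 : 2 ≤ s) (hsD : 3 * s ≤ D) (hj : 0 ≤ j)
    (hjH : 2 * j ≤ D + 1 - 3 * s) :
    - (2 * D * (s + 5) * (s - R) ^ 2) ≤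
      j * ((s + 5) * (2 * (D + 1 - 3 * s) * D - (D + 1 - 3 * s + 15) * s + 5 * μ * s) -
        4 * μ * D * (s + μ - 1)) := by
  have hD : 0 < D := by linarith
  obtain ⟨H, hH⟩ : ∃ H, H = D + 1 - 3 * s := ⟨_, rfl⟩
  rw [← hH]
  rw [← hH] at hjH
  have hH1 : 1 ≤ H := by linarith
  obtain ⟨J, hJ⟩ : ∃ J, J = (s + 5) * (2 * H * D - (H + 15) * s + 5 * μ * s) -
    4 * μ * D * (s + μ - 1) := ⟨_, rfl⟩
  rw [← hJ]
  have hneg : -(2 * D * (s + 5) * (s - R) ^ 2) ≤ 0 := by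
    have : 0 ≤ 2 * D * (s + 5) * (s - R) ^ 2 := by positivity
    linarith
  rcases le_or_gt 0 J with h0 | h0
  · exact hneg.trans (mul_nonneg hj h0)
  · -- `J` is negative
    have h1 : H / 2 * J ≤ j * J := mul_le_mul_of_nonpos_right (by linarith) h0.le
    refine le_trans ?_ h1
    obtain ⟨J1, hJ1⟩ : ∃ J1, J1 = (s + 5) * (5 / 3 * H - 5 - 4 * μ) - 4 * μ * (μ - 6) := ⟨_, rfl⟩
    have h2 : D * J1 ≤ J := by
      have e1 : J - D * J1 = (s + 5) * ((H + 15) * (D / 3 - s) + 5 * μ * s) := by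
        rw [hJ, hJ1]
        ring
      have e2 : 0 ≤ (s + 5) * ((H + 15) * (D / 3 - s) + 5 * μ * s) := by
        have : 0 ≤ D / 3 - s := by linarith
        have h15 : 0 ≤ H + 15 := by linarith
        have h5 : 0 ≤ s + 5 := by linarith
        positivity
      linarith
    have h3 : -(4 * (s + 5) * (s - R) ^ 2) ≤ H * J1 := by
      rw [hJ1]
      exact aux7 R μ s H hR8 hH1 (by linarith) hs2 hμ1 (by linarith)
    have h4 : H * (D * J1) ≤ H * J := mul_le_mul_of_nonneg_left h2 (by linarith)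
    have h5 : D * -(4 * (s + 5) * (s - R) ^ 2) ≤ D * (H * J1) := mul_le_mul_of_nonneg_left h3 hD.le
    nlinarith only [h4, h5]

/-- the simplified inequality for large `D` -/
theorem main_real (R D μ s j t : ℝ) (hR : R ^ 2 = D + 1) (hR8 : 8 ≤ R) (hμ1 : 1 ≤ μ)
    (hμ : 5 * (μ + 1) ≤ 4 * R) (hs2 : 2 ≤ s) (hsD : 3 * s ≤ D) (hj : 0 ≤ j) (ht : 0 ≤ t)
    (hyp : 2 * t * (D + 1 - 3 * s) * D + j * (2 * (D + 1 - 3 * s) * D + 2 * s * (D + 1)) <
      (s - 2) * (D + 1 - 3 * s) * D) : NR D μ s j t ≤ 0 := by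
  have hD : 0 < D := by linarith
  have hH1 : 1 ≤ D + 1 - 3 * s := by linarith
  have hjH : 2 * j ≤ D + 1 - 3 * s := by
    by_contra hc
    push Not at hc
    have h1 : 0 ≤ 2 * t * (D + 1 - 3 * s) * D := by positivity
    have h2 : 0 ≤ j * (2 * (D + 1 - 3 * s) * D) := by positivity
    have h3 : (D + 1 - 3 * s) * (s * D) ≤ 2 * j * (s * D) :=
      mul_le_mul_of_nonneg_right hc.le (by positivity)
    have h4 : 0 ≤ 2 * (D + 1 - 3 * s) * D := by positivity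
    have h5 : 0 ≤ j * s := by positivity
    nlinarith
  have hT := coefT R D μ s hR hR8 hμ1 hμ hs2 hsD
  have hJ := coefJ R D μ s j hR hR8 hμ1 hμ hs2 hsD hj hjH
  have hB : 0 ≤ (s + 5) * (2 * μ * D + s * (s * (2 * μ - 1) + 3 * μ ^ 2 - 17 * μ + 16)) := by
    apply mul_nonneg (by linarith)
    have h1 : -1 ≤ s * (2 * μ - 1) + 3 * μ ^ 2 - 17 * μ + 16 := by
      nlinarith [sq_nonneg (6 * μ - 13)]
    nlinarith
  have hS : 0 ≤ (s + 5) * (s * D * (4 * R - 5 * (μ + 1))) := by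
    have : 0 ≤ 4 * R - 5 * (μ + 1) := by linarith
    positivity
  have e : NR D μ s j t = -((s + 5) * (s * D * (4 * R - 5 * (μ + 1)))) -
      2 * D * (s + 5) * (s - R) ^ 2 -
      (s + 5) * (2 * μ * D + s * (s * (2 * μ - 1) + 3 * μ ^ 2 - 17 * μ + 16)) -
      t * ((s + 5) * (2 * (D + 1 - 3 * s) * D + 3 * μ * s) - 4 * μ * (μ - 1) * D) -
      j * ((s + 5) * (2 * (D + 1 - 3 * s) * D - (D + 1 - 3 * s + 15) * s + 5 * μ * s) -
        4 * μ * D * (s + μ - 1)) + 2 * D * (s + 5) * (R ^ 2 - (D + 1)) := by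
    unfold NR
    ring
  have hTt := mul_nonneg ht hT
  rw [e, hR]
  nlinarith

/-- the simplified inequality -/
theorem NR_le (D μ s j t : ℕ) (hD : 10 ≤ D) (hμ1 : 1 ≤ μ) (hμ : 25 * (μ + 1) ^ 2 ≤ 16 * (D + 1))
    (hs2 : 2 ≤ s) (hsD : 3 * s ≤ D)
    (hyp : 2 * (t : ℝ) * ((D : ℝ) + 1 - 3 * s) * D +
      j * (2 * ((D : ℝ) + 1 - 3 * s) * D + 2 * s * (D + 1)) < ((s : ℝ) - 2) * ((D : ℝ) + 1 - 3 * s) * D)
    (hk : 2 * (j + t) + 2 < s) :
    NR D μ s j t ≤ 0 := by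
  rcases Nat.lt_or_ge D 63 with h | h
  · have hμ6 : μ < 6 := by
      by_contra hc
      push Not at hc
      have : 7 ^ 2 ≤ (μ + 1) ^ 2 := Nat.pow_le_pow_left (by omega) 2
      omega
    have h1 := fin_check D h μ hμ6 ⟨hμ1, hμ⟩ s (by omega) ⟨hs2, hsD⟩ (j + t) (by omega) hk j
      (by omega)
    have h2 : j + t - j = t := by omega
    rw [h2] at h1
    have h3 : NN D μ s j t ≤ 0 := by
      apply h1
      exact_mod_cast hyp
    have h4 : ((NN D μ s j t : ℤ) : ℝ) ≤ 0 := by exact_mod_cast h3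
    have h5 : ((NN D μ s j t : ℤ) : ℝ) = NR D μ s j t := by
      unfold NN NR
      push_cast
      ring
    rw [h5] at h4
    exact h4
  · have hDr : (63 : ℝ) ≤ D := by exact_mod_cast h
    have hR : (Real.sqrt ((D : ℝ) + 1)) ^ 2 = (D : ℝ) + 1 := Real.sq_sqrt (by positivity)
    have hR8 : 8 ≤ Real.sqrt ((D : ℝ) + 1) := by
      apply Real.le_sqrt_of_sq_le
      linarith
    have hμr : 5 * ((μ : ℝ) + 1) ≤ 4 * Real.sqrt ((D : ℝ) + 1) := by
      have h1 : 25 * ((μ : ℝ) + 1) ^ 2 ≤ 16 * ((D : ℝ) + 1) := by exact_mod_cast hμ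
      have h2 : (5 * ((μ : ℝ) + 1)) ^ 2 ≤ (4 * Real.sqrt ((D : ℝ) + 1)) ^ 2 := by
        rw [mul_pow, mul_pow, hR]
        linarith
      exact le_of_sq_le_sq h2 (by positivity)
    exact main_real (Real.sqrt ((D : ℝ) + 1)) D μ s j t hR hR8 (by exact_mod_cast hμ1) hμr
      (by exact_mod_cast hs2) (by exact_mod_cast hsD) (by positivity) (by positivity) hyp

/-- the bound for `ph` -/
theorem ph_le (D k : ℕ) (hD : 10 ≤ D) (hk : 2 ≤ k) (hkD : 3 * k ≤ D) :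
    ph D k ≤ 2 / 3 * (1 / k - 1 / D) := by
  have h1 : (2 : ℝ) ≤ k := by exact_mod_cast hk
  have h2 : 3 * (k : ℝ) ≤ D := by exact_mod_cast hkD
  have h3 : (10 : ℝ) ≤ D := by exact_mod_cast hD
  have h4 : (0 : ℝ) < (D : ℝ) - k + 1 := by linarith
  have e : 2 / 3 * (1 / (k : ℝ) - 1 / D) - ph D k =
      2 / 3 * ((k : ℝ) - 2) / (D * ((D : ℝ) - k + 1)) := by
    unfold ph gg al
    field_simp
    ring
  have h5 : 0 ≤ 2 / 3 * ((k : ℝ) - 2) / (D * ((D : ℝ) - k + 1)) := by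
    have : 0 ≤ (k : ℝ) - 2 := by linarith
    positivity
  linarith

/-- comparison of `1 / c` with `2 / (s + 5)` -/
theorem frac_le (s k j w u c : ℝ) (hs : 2 ≤ s) (hj : 0 ≤ j) (hw : 1 ≤ w) (hwu : w ≤ u)
    (hc : c = s + 1 - k) (hk : 1 ≤ k) (hks : 2 * k + 3 ≤ s) :
    (j - 1 + w) / c ≤ (w - 1) / s + 2 * (j + (u - 1) * k / s) / (s + 5) := by
  have hc0 : 0 < c := by linarith
  have hs5 : s + 5 ≤ 2 * c := by linarith
  have h1 : (j - 1 + w) / c = j / c + ((w - 1) / s + (w - 1) * (k - 1) / (s * c)) := by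
    rw [hc]
    have : s + 1 - k ≠ 0 := by linarith
    field_simp
    ring
  have h2 : j / c ≤ 2 * j / (s + 5) := by
    rw [div_le_div_iff₀ hc0 (by linarith)]
    nlinarith
  have h3 : (w - 1) * (k - 1) / (s * c) ≤ 2 * ((u - 1) * k) / (s * (s + 5)) := by
    rw [div_le_div_iff₀ (by positivity) (by positivity)]
    have h4 : (w - 1) * (k - 1) ≤ (u - 1) * k :=
      mul_le_mul (by linarith) (by linarith) (by linarith) (by linarith)
    have h5 : s * (s + 5) ≤ 2 * (s * c) := by nlinarith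
    have h6 : 0 ≤ (w - 1) * (k - 1) := mul_nonneg (by linarith) (by linarith)
    calc (w - 1) * (k - 1) * (s * (s + 5)) ≤ (w - 1) * (k - 1) * (2 * (s * c)) :=
          mul_le_mul_of_nonneg_left h5 h6
      _ ≤ (u - 1) * k * (2 * (s * c)) := mul_le_mul_of_nonneg_right h4 (by positivity)
      _ = 2 * ((u - 1) * k) * (s * c) := by ring
  have h4 : 2 * (j + (u - 1) * k / s) / (s + 5) =
      2 * j / (s + 5) + 2 * ((u - 1) * k) / (s * (s + 5)) := by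
    field_simp
  rw [h1, h4]
  linarith

/-- the final expression -/
theorem final_eq (D μ s j t : ℝ) (hD : 10 ≤ D) (hs : 2 ≤ s) :
    ((s - 1 - j - t) * ((2 * D + 2) / (3 * s) - 1) + t + (D - 2) / (3 * D) * j - (D - 2) / 3) +
      ((1 + (6 - s) / D) * (j - 1 + μ) +
        μ * (2 / 3 * ((μ - 1) / s + 2 * (j + (μ - 1) * (j + t) / s) / (s + 5)) -
          5 / 3 * (j - 1 + μ) / D) +
        2 / 3 * (1 / s - 1 / D) * (μ * (s - μ)) + μ * (s - 2 - t) / D) -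
      (D - s + 1) * ((D - 2) / (3 * D)) = NR D μ s j t / (3 * s * D * (s + 5)) := by
  unfold NR
  have h1 : s + 5 ≠ 0 := by linarith
  have h2 : D ≠ 0 := by linarith
  have h3 : s ≠ 0 := by linarith
  field_simp
  ring

/-- the case `D ≥ 10` -/
theorem large (D μ s m j t w : ℕ) (hD : 10 ≤ D) (hμ1 : 1 ≤ μ)
    (hμ : 25 * (μ + 1) ^ 2 ≤ 16 * (D + 1)) (hm : m + j + t + 1 = s) (hs : 3 * s ≤ D) (hw : 1 ≤ w)
    (hwμ : w ≤ μ) (hwm : w ≤ m)
    (hpos : 0 < m * gg D s + t + al D * j - ((D : ℝ) - 2) / 3) :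
    (m * gg D s + t + al D * j - ((D : ℝ) - 2) / 3) +
      (om D * ((D : ℝ) - s + 1) * ((j : ℝ) - 1 + w) +
        max 0 (ph D (min s (m + 2)) - om D) * (μ * ((j : ℝ) - 1 + w)) +
        ph D s * (μ * ((s : ℝ) - w)) + μ * ((s : ℝ) - 2 - t) / D) ≤
    ((D : ℝ) - s + 1) * al D := by
  have hs2 : 2 ≤ s := by omega
  have hDr : (10 : ℝ) ≤ D := by exact_mod_cast hD
  have hsr : (2 : ℝ) ≤ s := by exact_mod_cast hs2
  have hsDr : 3 * (s : ℝ) ≤ D := by exact_mod_cast hs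
  have hwr : (1 : ℝ) ≤ w := by exact_mod_cast hw
  have hwμr : (w : ℝ) ≤ μ := by exact_mod_cast hwμ
  have hμr : (1 : ℝ) ≤ μ := by exact_mod_cast hμ1
  have hj0 : (0 : ℝ) ≤ j := by positivity
  have ht0 : (0 : ℝ) ≤ t := by positivity
  have hmr : (m : ℝ) = s - 1 - j - t := by
    have : (m : ℝ) + j + t + 1 = s := by exact_mod_cast hm
    linarith
  have hwsr : (w : ℝ) ≤ s := by
    have : w ≤ s := by omega
    exact_mod_cast this
  have hH : 1 ≤ (D : ℝ) + 1 - 3 * s := by linarith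
  -- the hypothesis
  have hyp : 2 * (t : ℝ) * ((D : ℝ) + 1 - 3 * s) * D +
      j * (2 * ((D : ℝ) + 1 - 3 * s) * D + 2 * s * (D + 1)) <
        ((s : ℝ) - 2) * ((D : ℝ) + 1 - 3 * s) * D := by
    have e : 3 * s * D * (m * gg D s + t + al D * j - ((D : ℝ) - 2) / 3) =
        ((s : ℝ) - 2) * ((D : ℝ) + 1 - 3 * s) * D -
          (2 * (t : ℝ) * ((D : ℝ) + 1 - 3 * s) * D +
            j * (2 * ((D : ℝ) + 1 - 3 * s) * D + 2 * s * (D + 1))) := by
      rw [hmr]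
      unfold gg al
      field_simp
      ring
    have h1 : 0 < 3 * s * D * (m * gg D s + t + al D * j - ((D : ℝ) - 2) / 3) :=
      mul_pos (by positivity) hpos
    linarith
  have hk : 2 * (j + t) + 2 < s := by
    by_contra hc
    push Not at hc
    have h1 : (s : ℝ) ≤ 2 * ((j : ℝ) + t) + 2 := by exact_mod_cast hc
    have h2 : ((s : ℝ) - 2) * (((D : ℝ) + 1 - 3 * s) * D) ≤
        (2 * ((j : ℝ) + t)) * (((D : ℝ) + 1 - 3 * s) * D) :=
      mul_le_mul_of_nonneg_right (by linarith) (by positivity)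
    have h3 : (0 : ℝ) ≤ j * (2 * s * (D + 1)) := by positivity
    nlinarith only [h2, h3, hyp]
  have hN := NR_le D μ s j t hD hμ1 hμ hs2 hs hyp hk
  -- the four terms
  have hn0 : 0 ≤ (j : ℝ) - 1 + w := by linarith
  have hom : om D = (1 + 5 / (D : ℝ)) / D := by
    unfold om
    rw [if_neg (by omega)]
  have hE1 : om D * ((D : ℝ) - s + 1) * ((j : ℝ) - 1 + w) ≤
      (1 + (6 - (s : ℝ)) / D) * ((j : ℝ) - 1 + w) := by
    apply mul_le_mul_of_nonneg_right _ hn0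
    rw [hom]
    have e : 1 + (6 - (s : ℝ)) / D - (1 + 5 / (D : ℝ)) / D * ((D : ℝ) - s + 1) =
        5 * ((s : ℝ) - 1) / (D * D) := by
      field_simp
      ring
    have : 0 ≤ 5 * ((s : ℝ) - 1) / (D * D) := by
      have : 0 ≤ (s : ℝ) - 1 := by linarith
      positivity
    linarith
  have hE2 : max 0 (ph D (min s (m + 2)) - om D) * (μ * ((j : ℝ) - 1 + w)) ≤
      μ * (2 / 3 * (((w : ℝ) - 1) / s + 2 * ((j : ℝ) + (μ - 1) * (j + t) / s) / (s + 5)) -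
          5 / 3 * ((j : ℝ) - 1 + w) / D) := by
    obtain ⟨c, hc⟩ : ∃ c, c = min s (m + 2) := ⟨_, rfl⟩
    rw [← hc]
    have hc2 : 2 ≤ c := by omega
    have hcs : c ≤ s := by omega
    have hcr : (2 : ℝ) ≤ c := by exact_mod_cast hc2
    have hcD : 3 * (c : ℝ) ≤ D := by
      have : (c : ℝ) ≤ s := by exact_mod_cast hcs
      linarith
    have h1 := ph_le D c hD hc2 (by omega)
    have h2 : max 0 (ph D c - om D) ≤ 2 / 3 / c - 5 / 3 / D := by
      have h3 : 2 / (D : ℝ) ≤ 2 / 3 / c := by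
        rw [div_div, div_le_div_iff₀ (by positivity) (by positivity)]
        linarith
      have h4 : 5 / 3 / (D : ℝ) ≤ 2 / D := by
        rw [div_div, div_le_div_iff₀ (by positivity) (by positivity)]
        linarith
      apply max_le
      · linarith
      · have h5 : 1 / (D : ℝ) ≤ om D := by
          rw [hom]
          apply div_le_div_of_nonneg_right _ (by linarith)
          have : 0 ≤ 5 / (D : ℝ) := by positivity
          linarith
        have e1 : 2 / 3 * (1 / (c : ℝ) - 1 / D) = 2 / 3 / c - 2 / 3 / D := by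
          field_simp
        have e2 : 5 / 3 / (D : ℝ) = 2 / 3 / D + 1 / D := by
          field_simp
          norm_num
        linarith
    have h3 : max 0 (ph D c - om D) * (μ * ((j : ℝ) - 1 + w)) ≤
        (2 / 3 / c - 5 / 3 / D) * (μ * ((j : ℝ) - 1 + w)) :=
      mul_le_mul_of_nonneg_right h2 (by positivity)
    refine h3.trans ?_
    have h4 : ((j : ℝ) - 1 + w) / c ≤
        ((w : ℝ) - 1) / s + 2 * ((j : ℝ) + (μ - 1) * (j + t) / s) / (s + 5) := by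
      rcases Nat.eq_zero_or_pos (j + t) with h0 | h0
      · have hj' : j = 0 := by omega
        have ht' : t = 0 := by omega
        have hcs' : c = s := by omega
        rw [hcs', hj', ht']
        apply le_of_eq
        push_cast
        ring
      · have hc' : c + (j + t) = s + 1 := by omega
        have hc'' : (c : ℝ) = s + 1 - (j + t) := by
          have : (c : ℝ) + (j + t) = s + 1 := by exact_mod_cast hc'
          linarith
        have hk1 : (1 : ℝ) ≤ (j : ℝ) + t := by exact_mod_cast h0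
        have hk2 : 2 * ((j : ℝ) + t) + 3 ≤ s := by exact_mod_cast hk
        exact frac_le s (j + t) j w μ c hsr hj0 hwr hwμr hc'' hk1 hk2
    have e : (2 / 3 / (c : ℝ) - 5 / 3 / D) * (μ * ((j : ℝ) - 1 + w)) =
        μ * (2 / 3 * (((j : ℝ) - 1 + w) / c) - 5 / 3 * ((j : ℝ) - 1 + w) / D) := by
      field_simp
    rw [e]
    apply mul_le_mul_of_nonneg_left _ (by linarith)
    linarith
  have hE3 : ph D s * (μ * ((s : ℝ) - w)) ≤ 2 / 3 * (1 / (s : ℝ) - 1 / D) * (μ * ((s : ℝ) - w)) := by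
    apply mul_le_mul_of_nonneg_right (ph_le D s hD hs2 hs)
    have : 0 ≤ (s : ℝ) - w := by linarith
    positivity
  -- monotone in `w`
  have hmono : (1 + (6 - (s : ℝ)) / D) * ((j : ℝ) - 1 + w) +
      μ * (2 / 3 * (((w : ℝ) - 1) / s + 2 * ((j : ℝ) + (μ - 1) * (j + t) / s) / (s + 5)) -
          5 / 3 * ((j : ℝ) - 1 + w) / D) +
      2 / 3 * (1 / (s : ℝ) - 1 / D) * (μ * ((s : ℝ) - w)) ≤
      (1 + (6 - (s : ℝ)) / D) * ((j : ℝ) - 1 + μ) +
      μ * (2 / 3 * (((μ : ℝ) - 1) / s + 2 * ((j : ℝ) + (μ - 1) * (j + t) / s) / (s + 5)) -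
          5 / 3 * ((j : ℝ) - 1 + μ) / D) +
      2 / 3 * (1 / (s : ℝ) - 1 / D) * (μ * ((s : ℝ) - μ)) := by
    have e : (1 + (6 - (s : ℝ)) / D) * ((j : ℝ) - 1 + μ) +
      μ * (2 / 3 * (((μ : ℝ) - 1) / s + 2 * ((j : ℝ) + (μ - 1) * (j + t) / s) / (s + 5)) -
          5 / 3 * ((j : ℝ) - 1 + μ) / D) +
      2 / 3 * (1 / (s : ℝ) - 1 / D) * (μ * ((s : ℝ) - μ)) -
      ((1 + (6 - (s : ℝ)) / D) * ((j : ℝ) - 1 + w) +
      μ * (2 / 3 * (((w : ℝ) - 1) / s + 2 * ((j : ℝ) + (μ - 1) * (j + t) / s) / (s + 5)) -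
          5 / 3 * ((j : ℝ) - 1 + w) / D) +
      2 / 3 * (1 / (s : ℝ) - 1 / D) * (μ * ((s : ℝ) - w))) =
      (μ - w) * ((D + 6 - s - μ) / D) := by
      field_simp
      ring
    have h1 : 0 ≤ (μ - w : ℝ) * (((D : ℝ) + 6 - s - μ) / D) := by
      have h2 : (0 : ℝ) ≤ μ - w := by linarith
      have h3 : (μ : ℝ) ≤ D / 2 := by
        have h4 : 2 * μ ≤ D := by nlinarith
        have h5 : 2 * (μ : ℝ) ≤ D := by exact_mod_cast h4
        linarith
      have h4 : (0 : ℝ) ≤ (D : ℝ) + 6 - s - μ := by linarith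
      positivity
    linarith
  have hfin := final_eq D μ s j t hDr hsr
  have hle : NR D μ s j t / (3 * s * D * (s + 5)) ≤ 0 :=
    div_nonpos_of_nonpos_of_nonneg hN (by positivity)
  have e1 : (m : ℝ) * gg D s + t + al D * j - ((D : ℝ) - 2) / 3 =
      ((s - 1 - j - t) * ((2 * D + 2) / (3 * s) - 1) + t + (D - 2) / (3 * D) * j -
        ((D : ℝ) - 2) / 3) := by
    rw [hmr]
    rfl
  have e2 : ((D : ℝ) - s + 1) * al D = ((D : ℝ) - s + 1) * ((D - 2) / (3 * D)) := rfl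
  rw [e1, e2]
  linarith

/-- the case `D = 9` -/
theorem nine (μ s m j t w : ℕ)
    (hμ : 25 * (μ + 1) ^ 2 ≤ 16 * (9 + 1)) (hm : m + j + t + 1 = s) (hs : 3 * s ≤ 9) (hw : 1 ≤ w)
    (hwμ : w ≤ μ) (hwm : w ≤ m)
    (hpos : 0 < m * gg 9 s + t + al 9 * j - (((9 : ℕ) : ℝ) - 2) / 3) :
    (m * gg 9 s + t + al 9 * j - (((9 : ℕ) : ℝ) - 2) / 3) +
      (om 9 * (((9 : ℕ) : ℝ) - s + 1) * ((j : ℝ) - 1 + w) +
        max 0 (ph 9 (min s (m + 2)) - om 9) * (μ * ((j : ℝ) - 1 + w)) +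
        ph 9 s * (μ * ((s : ℝ) - w)) + μ * ((s : ℝ) - 2 - t) / (9 : ℕ)) ≤
    (((9 : ℕ) : ℝ) - s + 1) * al 9 := by
  have hμ2 : μ = 1 := by
    have : μ < 2 := by
      by_contra hc
      push Not at hc
      have : 3 ^ 2 ≤ (μ + 1) ^ 2 := Nat.pow_le_pow_left (by omega) 2
      omega
    omega
  have hw1 : w = 1 := by omega
  have hcases : (s = 2 ∧ m = 1 ∧ j = 0 ∧ t = 0) ∨ (s = 3 ∧ m = 2 ∧ j = 0 ∧ t = 0) ∨
      (s = 3 ∧ m = 1 ∧ j = 1 ∧ t = 0) ∨ (s = 3 ∧ m = 1 ∧ j = 0 ∧ t = 1) := by omega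
  subst hμ2 hw1
  rcases hcases with ⟨h1, h2, h3, h4⟩ | ⟨h1, h2, h3, h4⟩ | ⟨h1, h2, h3, h4⟩ | ⟨h1, h2, h3, h4⟩
  · subst h1 h2 h3 h4
    norm_num [gg, al, om, ph]
  · subst h1 h2 h3 h4
    norm_num [gg, al, om, ph]
  · subst h1 h2 h3 h4
    norm_num [gg, al, om, ph]
  · subst h1 h2 h3 h4
    norm_num [gg, al, om, ph]

end FIA

/-- Module FIA -/
theorem stFIA : StFIA := by
  intro D μ hD hμ1 hμ s m j t w hm hs hw hwμ hwm hpos
  rw [add_zero]
  rcases Nat.lt_or_ge 9 D with h | h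
  · exact FIA.large D μ s m j t w h hμ1 hμ hm hs hw hwμ hwm hpos
  · have h9 : D = 9 := by omega
    subst h9
    exact FIA.nine μ s m j t w hμ hm hs hw hwμ hwm hpos

end Pool.Agent.Helper82.EC
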