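import Pool.Agent.Helper82.EC.M_FIA

/-!
# MP_47b98d_co, module FIA2: the numerical inequality in the range `25 (2 μ + 1) ^ 2 ≤ 64 (D + 1)`
-/

set_option autoImplicit false

namespace Pool.Agent.Helper82.EC

namespace FIA2

open FIA

/-- the value at `j = t = 0` -/
def N0 (D μ s : ℤ) : ℤ :=
  (s + 5) * (5 * (μ + 1) * s * D - 2 * D * (s ^ 2 + D + 1) - 2 * μ * D -
    s * (s * (2 * μ - 1) + 3 * μ ^ 2 - 17 * μ + 16))

/-- the coefficient of `-t` -/
def CT (D μ s : ℤ) : ℤ :=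
  (s + 5) * (2 * (D + 1 - 3 * s) * D + 3 * μ * s) - 4 * μ * (μ - 1) * D

/-- the coefficient of `-j` -/
def CJ (D μ s : ℤ) : ℤ :=
  (s + 5) * (2 * (D + 1 - 3 * s) * D - (D + 1 - 3 * s + 15) * s + 5 * μ * s) -
    4 * μ * D * (s + μ - 1)

/-- the three vertices of the region -/
def Vert (D μ s : ℕ) : Prop :=
  2 ≤ s ∧ 3 * s ≤ D → N0 D μ s ≤ 0 ∧ 2 * N0 D μ s - ((s : ℤ) - 2) * CT D μ s ≤ 0 ∧
    N0 D μ s * (2 * ((D : ℤ) + 1 - 3 * s) * D + 2 * s * (D + 1)) -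
      ((s : ℤ) - 2) * ((D : ℤ) + 1 - 3 * s) * D * CJ D μ s ≤ 0

instance (D μ s : ℕ) : Decidable (Vert D μ s) := by unfold Vert; infer_instance

/-- all vertices for given `D` and `μ` -/
def Vert2 (D μ : ℕ) : Prop :=
  11 ≤ D ∧ 1 ≤ μ ∧ 25 * (2 * μ + 1) ^ 2 ≤ 64 * (D + 1) → ∀ s < 48, Vert D μ s

instance (D μ : ℕ) : Decidable (Vert2 D μ) := by unfold Vert2; infer_instance

theorem vert_check : ∀ D < 143, ∀ μ < 10, Vert2 D μ := by
  decide +kernel

theorem NR_le_of_vert (D μ s j t : ℕ) (hs2 : 2 ≤ s) (hsD : 3 * s ≤ D) (h : Vert D μ s)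
    (hyp : 2 * (t : ℝ) * ((D : ℝ) + 1 - 3 * s) * D +
      j * (2 * ((D : ℝ) + 1 - 3 * s) * D + 2 * s * (D + 1)) <
        ((s : ℝ) - 2) * ((D : ℝ) + 1 - 3 * s) * D) :
    NR D μ s j t ≤ 0 := by
  obtain ⟨h0, h1, h2⟩ := h ⟨hs2, hsD⟩
  have hs2r : (2 : ℝ) ≤ s := by exact_mod_cast hs2
  have hsDr : 3 * (s : ℝ) ≤ D := by exact_mod_cast hsD
  obtain ⟨n0, hn0⟩ : ∃ n0 : ℝ, n0 = ((N0 D μ s : ℤ) : ℝ) := ⟨_, rfl⟩
  obtain ⟨ct, hct⟩ : ∃ ct : ℝ, ct = ((CT D μ s : ℤ) : ℝ) := ⟨_, rfl⟩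
  obtain ⟨cj, hcj⟩ : ∃ cj : ℝ, cj = ((CJ D μ s : ℤ) : ℝ) := ⟨_, rfl⟩
  obtain ⟨P, hP⟩ : ∃ P : ℝ, P = ((D : ℝ) + 1 - 3 * s) * D := ⟨_, rfl⟩
  obtain ⟨Q, hQ⟩ : ∃ Q : ℝ, Q = 2 * ((D : ℝ) + 1 - 3 * s) * D + 2 * s * (D + 1) := ⟨_, rfl⟩
  have hP0 : 0 < P := by
    rw [hP]
    have : 0 < (D : ℝ) + 1 - 3 * s := by linarith
    have : 0 < (D : ℝ) := by linarith
    positivity
  have hQ0 : 0 < Q := by
    rw [hQ]
    have : 0 < (D : ℝ) + 1 - 3 * s := by linarith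
    have : 0 < (D : ℝ) := by linarith
    positivity
  have e : NR D μ s j t = n0 - t * ct - j * cj := by
    rw [hn0, hct, hcj]
    unfold NR N0 CT CJ
    push_cast
    ring
  have g0 : n0 ≤ 0 := by
    rw [hn0]
    exact_mod_cast h0
  have g1 : 2 * n0 - ((s : ℝ) - 2) * ct ≤ 0 := by
    rw [hn0, hct]
    exact_mod_cast h1
  have g2 : n0 * Q - ((s : ℝ) - 2) * P * cj ≤ 0 := by
    rw [hn0, hcj, hQ, hP]
    have : ((N0 D μ s * (2 * ((D : ℤ) + 1 - 3 * s) * D + 2 * s * (D + 1)) -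
      ((s : ℤ) - 2) * ((D : ℤ) + 1 - 3 * s) * D * CJ D μ s : ℤ) : ℝ) ≤ 0 := by exact_mod_cast h2
    push_cast at this
    linarith
  have hyp' : 2 * (t : ℝ) * P + j * Q < ((s : ℝ) - 2) * P := by
    rw [hP, hQ]
    linarith
  have ht0 : (0 : ℝ) ≤ t := by positivity
  have hj0 : (0 : ℝ) ≤ j := by positivity
  have hs0 : 0 < (s : ℝ) - 2 := by
    by_contra hc
    push Not at hc
    have h3 : ((s : ℝ) - 2) * P ≤ 0 := mul_nonpos_of_nonpos_of_nonneg hc hP0.le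
    have h4 : 0 ≤ 2 * (t : ℝ) * P + j * Q := by positivity
    linarith
  rw [e]
  -- multiply by `(s - 2) P`
  have k1 : (t : ℝ) * P * (2 * n0 - ((s : ℝ) - 2) * ct) ≤ 0 :=
    mul_nonpos_of_nonneg_of_nonpos (by positivity) g1
  have k2 : (j : ℝ) * (n0 * Q - ((s : ℝ) - 2) * P * cj) ≤ 0 :=
    mul_nonpos_of_nonneg_of_nonpos hj0 g2
  have k3 : (((s : ℝ) - 2) * P - (2 * (t : ℝ) * P + j * Q)) * n0 ≤ 0 :=
    mul_nonpos_of_nonneg_of_nonpos (by linarith) g0
  have k4 : (((s : ℝ) - 2) * P) * (n0 - t * ct - j * cj) ≤ 0 := by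
    have e2 : (((s : ℝ) - 2) * P) * (n0 - t * ct - j * cj) =
        (t : ℝ) * P * (2 * n0 - ((s : ℝ) - 2) * ct) + (j : ℝ) * (n0 * Q - ((s : ℝ) - 2) * P * cj) +
          (((s : ℝ) - 2) * P - (2 * (t : ℝ) * P + j * Q)) * n0 := by ring
    rw [e2]
    linarith
  by_contra hc
  push Not at hc
  have : 0 < (((s : ℝ) - 2) * P) * (n0 - t * ct - j * cj) := by positivity
  linarith

/-! ### large `D` -/

theorem coefT2 (R D μ s : ℝ) (hR : R ^ 2 = D + 1) (hR12 : 12 ≤ R) (hμ1 : 1 ≤ μ)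
    (hμR : μ ≤ 4 / 5 * R - 1 / 2) (hs2 : 2 ≤ s) (hsD : 3 * s ≤ D) :
    0 ≤ (s + 5) * (2 * (D + 1 - 3 * s) * D + 3 * μ * s) - 4 * μ * (μ - 1) * D := by
  have hD : 0 < D := by linarith
  have hH : 1 ≤ D + 1 - 3 * s := by linarith
  have hμ2 : μ * (μ - 1) ≤ 16 / 25 * R ^ 2 := by nlinarith
  rcases le_or_gt (6 * s) (R ^ 2) with h | h
  · have h1 : R ^ 2 ≤ 2 * (D + 1 - 3 * s) := by linarith
    have h2 : 7 * R ^ 2 ≤ (s + 5) * (2 * (D + 1 - 3 * s)) := by nlinarith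
    have h3 : 4 * (μ * (μ - 1)) ≤ (s + 5) * (2 * (D + 1 - 3 * s)) := by nlinarith
    have h4 : 0 ≤ (s + 5) * (3 * μ * s) := by positivity
    have h5 := mul_le_mul_of_nonneg_right h3 hD.le
    linarith
  · have hsμ : μ - 1 ≤ s + 5 := by nlinarith
    rcases le_or_gt (2 * μ) (D + 1 - 3 * s) with h1 | h1
    · have h2 : 4 * (μ * (μ - 1)) ≤ (s + 5) * (2 * (D + 1 - 3 * s)) := by nlinarith
      have h4 : 0 ≤ (s + 5) * (3 * μ * s) := by positivity
      have h5 := mul_le_mul_of_nonneg_right h2 hD.le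
      linarith
    · have h2 : 2 * μ ≤ 1 / 5 * R ^ 2 := by nlinarith
      have h3 : 4 / 5 * R ^ 2 ≤ 3 * s := by linarith
      have h4 : R ^ 2 * (16 / 75 * R ^ 2 + 4) ≤ 3 * s * (s + 5) := by
        have h5 : 0 ≤ 3 * s - 4 / 5 * R ^ 2 := by linarith
        have h6 : 0 ≤ (3 * s - 4 / 5 * R ^ 2) * (s + 5 + 4 / 15 * R ^ 2) := by
          have := sq_nonneg R
          apply mul_nonneg h5
          linarith
        nlinarith [sq_nonneg R]
      have h5 : 4 * (μ - 1) * D ≤ R ^ 2 * (16 / 5 * R - 6) := by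
        have h6 : 4 * (μ - 1) ≤ 16 / 5 * R - 6 := by linarith
        have h7 : 0 ≤ 4 * (μ - 1) := by linarith
        have h8 : D ≤ R ^ 2 := by linarith
        calc 4 * (μ - 1) * D ≤ (16 / 5 * R - 6) * R ^ 2 :=
              mul_le_mul h6 h8 hD.le (by linarith)
          _ = _ := by ring
      have h6 : R ^ 2 * (16 / 5 * R - 6) ≤ R ^ 2 * (16 / 75 * R ^ 2 + 4) := by
        have : 16 / 5 * R - 6 ≤ 16 / 75 * R ^ 2 + 4 := by nlinarith
        exact mul_le_mul_of_nonneg_left this (sq_nonneg R)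
      have h7 : 4 * (μ - 1) * D ≤ 3 * s * (s + 5) := h5.trans (h6.trans h4)
      have h8 : 0 ≤ (s + 5) * (2 * (D + 1 - 3 * s) * D) := by
        have : 0 ≤ s + 5 := by linarith
        positivity
      have h9 := mul_le_mul_of_nonneg_left h7 (by linarith : 0 ≤ μ)
      linarith

/-- the term `B` -/
theorem B_lower (R μ s : ℝ) (hR12 : 12 ≤ R) (hμ0 : 4 / 5 * R - 1 ≤ μ) (hs2 : 2 ≤ s) :
    s * (8 / 5 * R - 3) + 48 / 25 * R ^ 2 - 92 / 5 * R + 36 ≤
      s * (2 * μ - 1) + 3 * μ ^ 2 - 17 * μ + 16 := by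
  have h1 : s * (8 / 5 * R - 3) ≤ s * (2 * μ - 1) :=
    mul_le_mul_of_nonneg_left (by linarith) (by linarith)
  have h2 : 48 / 25 * R ^ 2 - 92 / 5 * R + 36 ≤ 3 * μ ^ 2 - 17 * μ + 16 := by
    have h3 : 0 ≤ (μ - (4 / 5 * R - 1)) * (3 * (μ + (4 / 5 * R - 1)) - 17) :=
      mul_nonneg (by linarith) (by linarith)
    nlinarith only [h3]
  linarith

/-- the value at `j = t = 0` -/
theorem phi_nonneg (R D μ s : ℝ) (hR : R ^ 2 = D + 1) (hR12 : 12 ≤ R)
    (hμ0 : 4 / 5 * R - 1 ≤ μ) (hs2 : 2 ≤ s) :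
    0 ≤ 2 * D * (s - R) ^ 2 + 2 * μ * D +
      s * (s * (2 * μ - 1) + 3 * μ ^ 2 - 17 * μ + 16) - 5 / 2 * (s * D) := by
  have hB := mul_le_mul_of_nonneg_left (B_lower R μ s hR12 hμ0 hs2) (by linarith : 0 ≤ s)
  have hD : D = R ^ 2 - 1 := by linarith
  have hD0 : 0 ≤ D := by nlinarith
  have hμD : 2 * (4 / 5 * R - 1) * D ≤ 2 * μ * D :=
    mul_le_mul_of_nonneg_right (by linarith) hD0
  obtain ⟨u, hu⟩ : ∃ u, u = s - R := ⟨_, rfl⟩
  have hs : s = R + u := by linarith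
  have key : 0 ≤ (2 * R ^ 2 + 8 / 5 * R - 5) * u ^ 2 +
      u * (131 / 50 * R ^ 2 - 122 / 5 * R + 77 / 2) +
      (131 / 50 * R ^ 3 - 117 / 5 * R ^ 2 + 369 / 10 * R + 2) := by
    have h1 : 0 ≤ 131 / 50 * R ^ 2 - 122 / 5 * R + 77 / 2 := by nlinarith
    have h2 : 131 / 50 * R ^ 2 - 122 / 5 * R + 77 / 2 ≤ 131 / 50 * R ^ 2 := by linarith
    have h3 : 9 / 10 * R ^ 3 ≤ 131 / 50 * R ^ 3 - 117 / 5 * R ^ 2 + 369 / 10 * R + 2 := by
      have h4 : 0 ≤ R * ((R - 12) * (43 / 25 * R - 69 / 25)) := by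
        apply mul_nonneg (by linarith)
        apply mul_nonneg (by linarith) (by linarith)
      nlinarith only [h4, hR12]
    have h4 : (2 * R ^ 2 + 8 / 5 * R - 5) * u ^ 2 ≥ 2 * R ^ 2 * u ^ 2 := by
      apply mul_le_mul_of_nonneg_right (by linarith) (sq_nonneg u)
    have h5 : -(u * (131 / 50 * R ^ 2 - 122 / 5 * R + 77 / 2)) ≤ |u| * (131 / 50 * R ^ 2) := by
      have h6 : -u ≤ |u| := neg_le_abs u
      calc -(u * (131 / 50 * R ^ 2 - 122 / 5 * R + 77 / 2)) =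
            (-u) * (131 / 50 * R ^ 2 - 122 / 5 * R + 77 / 2) := by ring
        _ ≤ |u| * (131 / 50 * R ^ 2 - 122 / 5 * R + 77 / 2) := mul_le_mul_of_nonneg_right h6 h1
        _ ≤ |u| * (131 / 50 * R ^ 2) := mul_le_mul_of_nonneg_left h2 (abs_nonneg u)
    have h6 : 0 ≤ R ^ 2 * (2 * |u| ^ 2 - 131 / 50 * |u| + 9 / 10 * R) := by
      apply mul_nonneg (sq_nonneg R)
      nlinarith [sq_nonneg (|u| - 131 / 200)]
    rw [sq_abs] at h6
    nlinarith only [h3, h4, h5, h6]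
  rw [hs] at hB ⊢
  rw [hD] at hμD ⊢
  nlinarith only [hB, hμD, key]

/-- the simplified inequality for large `D` and large `μ` -/
theorem main_real2 (R D μ s j t : ℝ) (hR : R ^ 2 = D + 1) (hR12 : 12 ≤ R)
    (hμ0 : 4 / 5 * R - 1 ≤ μ) (hμR : μ ≤ 4 / 5 * R - 1 / 2) (hs2 : 2 ≤ s) (hsD : 3 * s ≤ D)
    (hj : 0 ≤ j) (ht : 0 ≤ t)
    (hyp : 2 * t * (D + 1 - 3 * s) * D + j * (2 * (D + 1 - 3 * s) * D + 2 * s * (D + 1)) <
      (s - 2) * (D + 1 - 3 * s) * D) : NR D μ s j t ≤ 0 := by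
  have hD : 0 < D := by linarith
  have hμ1 : 1 ≤ μ := by linarith
  have hT := mul_nonneg ht (coefT2 R D μ s hR hR12 hμ1 hμR hs2 hsD)
  have hφ := phi_nonneg R D μ s hR hR12 hμ0 hs2
  obtain ⟨φ, hφd⟩ : ∃ φ, φ = 2 * D * (s - R) ^ 2 + 2 * μ * D +
      s * (s * (2 * μ - 1) + 3 * μ ^ 2 - 17 * μ + 16) - 5 / 2 * (s * D) := ⟨_, rfl⟩
  rw [← hφd] at hφ
  obtain ⟨H, hH⟩ : ∃ H, H = D + 1 - 3 * s := ⟨_, rfl⟩
  have hH1 : 1 ≤ H := by linarith
  have hjH : 2 * j ≤ H := by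
    rw [← hH] at hyp
    by_contra hc
    push Not at hc
    have h1 : 0 ≤ 2 * t * H * D := by positivity
    have h2 : 0 ≤ j * (2 * H * D) := by positivity
    have h3 : H * (s * D) ≤ 2 * j * (s * D) :=
      mul_le_mul_of_nonneg_right hc.le (by positivity)
    have h4 : 0 ≤ 2 * H * D := by positivity
    have h5 : 0 ≤ j * s := by positivity
    nlinarith only [hyp, h1, h2, h3, h4, h5]
  obtain ⟨J, hJ⟩ : ∃ J, J = (s + 5) * (2 * H * D - (H + 15) * s + 5 * μ * s) -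
    4 * μ * D * (s + μ - 1) := ⟨_, rfl⟩
  have hmain : 0 ≤ (s + 5) * φ + j * J := by
    rcases le_or_gt 0 J with h0 | h0
    · have h1 := mul_nonneg hj h0
      have h2 : 0 ≤ (s + 5) * φ := mul_nonneg (by linarith) hφ
      linarith
    · have h1 : H / 2 * J ≤ j * J := mul_le_mul_of_nonpos_right (by linarith) h0.le
      obtain ⟨J1, hJ1⟩ : ∃ J1, J1 = (s + 5) * (5 / 3 * H - 5 - 4 * μ) - 4 * μ * (μ - 6) :=
        ⟨_, rfl⟩
      have h2 : D * J1 ≤ J := by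
        have e1 : J - D * J1 = (s + 5) * ((H + 15) * (D / 3 - s) + 5 * μ * s) := by
          rw [hJ, hJ1]
          ring
        have e2 : 0 ≤ (s + 5) * ((H + 15) * (D / 3 - s) + 5 * μ * s) := by
          have : 0 ≤ D / 3 - s := by linarith
          have h15 : 0 ≤ H + 15 := by linarith
          have h5 : 0 ≤ s + 5 := by linarith
          positivity
        linarith
      have hs : 3 * s = R ^ 2 - H := by linarith
      have h3 : H / 2 * (D * J1) ≤ H / 2 * J := mul_le_mul_of_nonneg_left h2 (by linarith)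
      suffices hsuf : 0 ≤ (s + 5) * φ + H / 2 * (D * J1) by linarith
      rcases le_or_gt 0 J1 with h4 | h4
      · have h5 : 0 ≤ (s + 5) * φ := mul_nonneg (by linarith) hφ
        have h6 : 0 ≤ H / 2 * (D * J1) := by positivity
        linarith
      · -- `s` is large
        have hs6 : R ^ 2 < 6 * s := by
          by_contra hc
          push Not at hc
          have h5 : R ^ 2 ≤ 2 * H := by linarith
          have h6 : 5 / 6 * R ^ 2 - 16 / 5 * R - 3 ≤ 5 / 3 * H - 5 - 4 * μ := by linarith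
          have h7 : 0 ≤ 5 / 6 * R ^ 2 - 16 / 5 * R - 3 := by nlinarith
          have h8 : 7 * (5 / 6 * R ^ 2 - 16 / 5 * R - 3) ≤ (s + 5) * (5 / 3 * H - 5 - 4 * μ) :=
            mul_le_mul (by linarith) h6 h7 (by linarith)
          have h9 : 4 * μ * (μ - 6) ≤ 64 / 25 * R ^ 2 := by
            have h10 : μ ^ 2 ≤ (4 / 5 * R) ^ 2 := pow_le_pow_left₀ (by linarith) (by linarith) 2
            nlinarith only [h10, hμ1]
          have h10 : 64 / 25 * R ^ 2 ≤ 7 * (5 / 6 * R ^ 2 - 16 / 5 * R - 3) := by nlinarith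
          rw [hJ1] at h4
          linarith
        have h5 : 4 * μ * (μ - 6) ≤ (s + 5) * (1 / 2 * R - 1) := by
          have h6 : (R ^ 2 + 30) / 6 * (1 / 2 * R - 1) ≤ (s + 5) * (1 / 2 * R - 1) := by
            apply mul_le_mul_of_nonneg_right _ (by linarith)
            linarith
          refine le_trans ?_ h6
          have h7 : 4 * μ * (μ - 6) ≤ 4 * (4 / 5 * R - 1 / 2) * (4 / 5 * R - 13 / 2) := by
            have h8 : 0 ≤ (4 / 5 * R - 1 / 2 - μ) * (4 / 5 * R - 1 / 2 + μ - 6) :=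
              mul_nonneg (by linarith) (by linarith)
            nlinarith only [h8]
          have h8 : 4 * (4 / 5 * R - 1 / 2) * (4 / 5 * R - 13 / 2) ≤
              (R ^ 2 + 30) / 6 * (1 / 2 * R - 1) := by
            have h9 := mul_nonneg (by linarith : (0 : ℝ) ≤ R) (sq_nonneg (R - 818 / 50))
            nlinarith only [h9, hR12]
          linarith
        have h6 : (s + 5) * (5 / 3 * H - 37 / 10 * R - 2) ≤ J1 := by
          have h7 : 5 / 3 * H - 37 / 10 * R - 2 ≤ 5 / 3 * H - 5 - 4 * μ - (1 / 2 * R - 1) := by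
            linarith
          have h8 : (s + 5) * (5 / 3 * H - 37 / 10 * R - 2) ≤
              (s + 5) * (5 / 3 * H - 5 - 4 * μ - (1 / 2 * R - 1)) :=
            mul_le_mul_of_nonneg_left h7 (by linarith)
          rw [hJ1]
          linarith
        have h7 : H / 2 * (D * ((s + 5) * (5 / 3 * H - 37 / 10 * R - 2))) ≤ H / 2 * (D * J1) := by
          apply mul_le_mul_of_nonneg_left _ (by linarith)
          exact mul_le_mul_of_nonneg_left h6 hD.le
        refine le_trans ?_ (add_le_add_right h7 _)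
        have h8 : 0 ≤ φ + H / 2 * (D * (5 / 3 * H - 37 / 10 * R - 2)) := by
          rcases le_or_gt (222 / 100 * R + 6 / 5) H with h9 | h9
          · have : 0 ≤ H / 2 * (D * (5 / 3 * H - 37 / 10 * R - 2)) := by
              have : 0 ≤ 5 / 3 * H - 37 / 10 * R - 2 := by linarith
              positivity
            linarith
          · have h10 : 222 / 100 * R ≤ s - R := by
              have : 668 / 100 * R ≤ R ^ 2 - H - 3 * R := by nlinarith only [h9, hR12]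
              linarith
            have h11 : (222 / 100 * R) ^ 2 ≤ (s - R) ^ 2 :=
              pow_le_pow_left₀ (by linarith) h10 2
            have h12 : 0 ≤ s * (s * (2 * μ - 1) + 3 * μ ^ 2 - 17 * μ + 16) := by
              have h13 := B_lower R μ s hR12 hμ0 hs2
              have h14 : 0 ≤ s * (8 / 5 * R - 3) + 48 / 25 * R ^ 2 - 92 / 5 * R + 36 := by
                have h15 : 0 ≤ s * (8 / 5 * R - 3) := mul_nonneg (by linarith) (by linarith)
                nlinarith only [h15, hR12]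
              exact mul_nonneg (by linarith) (by linarith)
            have h13 : 0 ≤ 2 * μ * D := by positivity
            have h14 : 5 / 2 * s ≤ 5 / 6 * R ^ 2 := by linarith
            have h15 : -(H / 2 * (5 / 3 * H - 37 / 10 * R - 2)) ≤ 3 / 40 * (37 / 10 * R + 2) ^ 2 := by
              nlinarith only [sq_nonneg (H - 3 / 10 * (37 / 10 * R + 2))]
            have h16 : 3 / 40 * (37 / 10 * R + 2) ^ 2 + 5 / 6 * R ^ 2 ≤ 2 * (222 / 100 * R) ^ 2 := by
              nlinarith only [hR12]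
            have h17 : 0 ≤ 2 * (s - R) ^ 2 - 5 / 2 * s + H / 2 * (5 / 3 * H - 37 / 10 * R - 2) := by
              linarith
            have h18 := mul_nonneg hD.le h17
            rw [hφd]
            linarith
        have h9 : (s + 5) * φ + H / 2 * (D * ((s + 5) * (5 / 3 * H - 37 / 10 * R - 2))) =
            (s + 5) * (φ + H / 2 * (D * (5 / 3 * H - 37 / 10 * R - 2))) := by ring
        rw [h9]
        exact mul_nonneg (by linarith) h8
  have hρ : 0 ≤ (s + 5) * (s * D * (4 * R + 5 / 2 - 5 * (μ + 1))) := by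
    have : 0 ≤ 4 * R + 5 / 2 - 5 * (μ + 1) := by linarith
    positivity
  have e : NR D μ s j t = -((s + 5) * (s * D * (4 * R + 5 / 2 - 5 * (μ + 1)))) -
      ((s + 5) * φ + j * J) -
      t * ((s + 5) * (2 * (D + 1 - 3 * s) * D + 3 * μ * s) - 4 * μ * (μ - 1) * D) +
      2 * D * (s + 5) * (R ^ 2 - (D + 1)) := by
    rw [hφd, hJ, hH]
    unfold NR
    ring
  rw [e, hR]
  linarith

/-- the reduction for `D ≥ 10` -/
theorem large2 (D μ s m j t w : ℕ) (hD : 10 ≤ D) (hμ1 : 1 ≤ μ)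
    (hμD : 2 * μ ≤ D)
    (hNR : 2 * (t : ℝ) * ((D : ℝ) + 1 - 3 * s) * D +
      j * (2 * ((D : ℝ) + 1 - 3 * s) * D + 2 * s * (D + 1)) <
        ((s : ℝ) - 2) * ((D : ℝ) + 1 - 3 * s) * D → NR D μ s j t ≤ 0) (hm : m + j + t + 1 = s) (hs : 3 * s ≤ D) (hw : 1 ≤ w)
    (hwμ : w ≤ μ) (hwm : w ≤ m)
    (hpos : 0 < m * gg D s + t + al D * j - ((D : ℝ) - 2) / 3) :
    (m * gg D s + t + al D * j - ((D : ℝ) - 2) / 3) +
      (om D * ((D : ℝ) - s + 1) * ((j : ℝ) - 1 + w) +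
        max 0 (ph D (min s (m + 2)) - om D) * (μ * ((j : ℝ) - 1 + w)) +
        ph D s * (μ * ((s : ℝ) - w)) + μ * ((s : ℝ) - 2 - t) / D) ≤
    ((D : ℝ) - s + 1) * al D := by
  have hs2 : 2 ≤ s := by omega
  have hDr : (10 : ℝ) ≤ D := by exact_mod_cast hD
  have hsr : (2 : ℝ) ≤ s := by exact_mod_cast hs2
  have hsDr : 3 * (s : ℝ) ≤ D := by exact_mod_cast hs
  have hwr : (1 : ℝ) ≤ w := by exact_mod_cast hw
  have hwμr : (w : ℝ) ≤ μ := by exact_mod_cast hwμ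
  have hμr : (1 : ℝ) ≤ μ := by exact_mod_cast hμ1
  have hj0 : (0 : ℝ) ≤ j := by positivity
  have ht0 : (0 : ℝ) ≤ t := by positivity
  have hmr : (m : ℝ) = s - 1 - j - t := by
    have : (m : ℝ) + j + t + 1 = s := by exact_mod_cast hm
    linarith
  have hwsr : (w : ℝ) ≤ s := by
    have : w ≤ s := by omega
    exact_mod_cast this
  have hH : 1 ≤ (D : ℝ) + 1 - 3 * s := by linarith
  -- the hypothesis
  have hyp : 2 * (t : ℝ) * ((D : ℝ) + 1 - 3 * s) * D +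
      j * (2 * ((D : ℝ) + 1 - 3 * s) * D + 2 * s * (D + 1)) <
        ((s : ℝ) - 2) * ((D : ℝ) + 1 - 3 * s) * D := by
    have e : 3 * s * D * (m * gg D s + t + al D * j - ((D : ℝ) - 2) / 3) =
        ((s : ℝ) - 2) * ((D : ℝ) + 1 - 3 * s) * D -
          (2 * (t : ℝ) * ((D : ℝ) + 1 - 3 * s) * D +
            j * (2 * ((D : ℝ) + 1 - 3 * s) * D + 2 * s * (D + 1))) := by
      rw [hmr]
      unfold gg al
      field_simp
      ring
    have h1 : 0 < 3 * s * D * (m * gg D s + t + al D * j - ((D : ℝ) - 2) / 3) :=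
      mul_pos (by positivity) hpos
    linarith
  have hk : 2 * (j + t) + 2 < s := by
    by_contra hc
    push Not at hc
    have h1 : (s : ℝ) ≤ 2 * ((j : ℝ) + t) + 2 := by exact_mod_cast hc
    have h2 : ((s : ℝ) - 2) * (((D : ℝ) + 1 - 3 * s) * D) ≤
        (2 * ((j : ℝ) + t)) * (((D : ℝ) + 1 - 3 * s) * D) :=
      mul_le_mul_of_nonneg_right (by linarith) (by positivity)
    have h3 : (0 : ℝ) ≤ j * (2 * s * (D + 1)) := by positivity
    nlinarith only [h2, h3, hyp]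
  have hN := hNR hyp
  -- the four terms
  have hn0 : 0 ≤ (j : ℝ) - 1 + w := by linarith
  have hom : om D = (1 + 5 / (D : ℝ)) / D := by
    unfold om
    rw [if_neg (by omega)]
  have hE1 : om D * ((D : ℝ) - s + 1) * ((j : ℝ) - 1 + w) ≤
      (1 + (6 - (s : ℝ)) / D) * ((j : ℝ) - 1 + w) := by
    apply mul_le_mul_of_nonneg_right _ hn0
    rw [hom]
    have e : 1 + (6 - (s : ℝ)) / D - (1 + 5 / (D : ℝ)) / D * ((D : ℝ) - s + 1) =
        5 * ((s : ℝ) - 1) / (D * D) := by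
      field_simp
      ring
    have : 0 ≤ 5 * ((s : ℝ) - 1) / (D * D) := by
      have : 0 ≤ (s : ℝ) - 1 := by linarith
      positivity
    linarith
  have hE2 : max 0 (ph D (min s (m + 2)) - om D) * (μ * ((j : ℝ) - 1 + w)) ≤
      μ * (2 / 3 * (((w : ℝ) - 1) / s + 2 * ((j : ℝ) + (μ - 1) * (j + t) / s) / (s + 5)) -
          5 / 3 * ((j : ℝ) - 1 + w) / D) := by
    obtain ⟨c, hc⟩ : ∃ c, c = min s (m + 2) := ⟨_, rfl⟩
    rw [← hc]
    have hc2 : 2 ≤ c := by omega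
    have hcs : c ≤ s := by omega
    have hcr : (2 : ℝ) ≤ c := by exact_mod_cast hc2
    have hcD : 3 * (c : ℝ) ≤ D := by
      have : (c : ℝ) ≤ s := by exact_mod_cast hcs
      linarith
    have h1 := ph_le D c hD hc2 (by omega)
    have h2 : max 0 (ph D c - om D) ≤ 2 / 3 / c - 5 / 3 / D := by
      have h3 : 2 / (D : ℝ) ≤ 2 / 3 / c := by
        rw [div_div, div_le_div_iff₀ (by positivity) (by positivity)]
        linarith
      have h4 : 5 / 3 / (D : ℝ) ≤ 2 / D := by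
        rw [div_div, div_le_div_iff₀ (by positivity) (by positivity)]
        linarith
      apply max_le
      · linarith
      · have h5 : 1 / (D : ℝ) ≤ om D := by
          rw [hom]
          apply div_le_div_of_nonneg_right _ (by linarith)
          have : 0 ≤ 5 / (D : ℝ) := by positivity
          linarith
        have e1 : 2 / 3 * (1 / (c : ℝ) - 1 / D) = 2 / 3 / c - 2 / 3 / D := by
          field_simp
        have e2 : 5 / 3 / (D : ℝ) = 2 / 3 / D + 1 / D := by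
          field_simp
          norm_num
        linarith
    have h3 : max 0 (ph D c - om D) * (μ * ((j : ℝ) - 1 + w)) ≤
        (2 / 3 / c - 5 / 3 / D) * (μ * ((j : ℝ) - 1 + w)) :=
      mul_le_mul_of_nonneg_right h2 (by positivity)
    refine h3.trans ?_
    have h4 : ((j : ℝ) - 1 + w) / c ≤
        ((w : ℝ) - 1) / s + 2 * ((j : ℝ) + (μ - 1) * (j + t) / s) / (s + 5) := by
      rcases Nat.eq_zero_or_pos (j + t) with h0 | h0
      · have hj' : j = 0 := by omega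
        have ht' : t = 0 := by omega
        have hcs' : c = s := by omega
        rw [hcs', hj', ht']
        apply le_of_eq
        push_cast
        ring
      · have hc' : c + (j + t) = s + 1 := by omega
        have hc'' : (c : ℝ) = s + 1 - (j + t) := by
          have : (c : ℝ) + (j + t) = s + 1 := by exact_mod_cast hc'
          linarith
        have hk1 : (1 : ℝ) ≤ (j : ℝ) + t := by exact_mod_cast h0
        have hk2 : 2 * ((j : ℝ) + t) + 3 ≤ s := by exact_mod_cast hk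
        exact frac_le s (j + t) j w μ c hsr hj0 hwr hwμr hc'' hk1 hk2
    have e : (2 / 3 / (c : ℝ) - 5 / 3 / D) * (μ * ((j : ℝ) - 1 + w)) =
        μ * (2 / 3 * (((j : ℝ) - 1 + w) / c) - 5 / 3 * ((j : ℝ) - 1 + w) / D) := by
      field_simp
    rw [e]
    apply mul_le_mul_of_nonneg_left _ (by linarith)
    linarith
  have hE3 : ph D s * (μ * ((s : ℝ) - w)) ≤ 2 / 3 * (1 / (s : ℝ) - 1 / D) * (μ * ((s : ℝ) - w)) := by
    apply mul_le_mul_of_nonneg_right (ph_le D s hD hs2 hs)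
    have : 0 ≤ (s : ℝ) - w := by linarith
    positivity
  -- monotone in `w`
  have hmono : (1 + (6 - (s : ℝ)) / D) * ((j : ℝ) - 1 + w) +
      μ * (2 / 3 * (((w : ℝ) - 1) / s + 2 * ((j : ℝ) + (μ - 1) * (j + t) / s) / (s + 5)) -
          5 / 3 * ((j : ℝ) - 1 + w) / D) +
      2 / 3 * (1 / (s : ℝ) - 1 / D) * (μ * ((s : ℝ) - w)) ≤
      (1 + (6 - (s : ℝ)) / D) * ((j : ℝ) - 1 + μ) +
      μ * (2 / 3 * (((μ : ℝ) - 1) / s + 2 * ((j : ℝ) + (μ - 1) * (j + t) / s) / (s + 5)) -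
          5 / 3 * ((j : ℝ) - 1 + μ) / D) +
      2 / 3 * (1 / (s : ℝ) - 1 / D) * (μ * ((s : ℝ) - μ)) := by
    have e : (1 + (6 - (s : ℝ)) / D) * ((j : ℝ) - 1 + μ) +
      μ * (2 / 3 * (((μ : ℝ) - 1) / s + 2 * ((j : ℝ) + (μ - 1) * (j + t) / s) / (s + 5)) -
          5 / 3 * ((j : ℝ) - 1 + μ) / D) +
      2 / 3 * (1 / (s : ℝ) - 1 / D) * (μ * ((s : ℝ) - μ)) -
      ((1 + (6 - (s : ℝ)) / D) * ((j : ℝ) - 1 + w) +
      μ * (2 / 3 * (((w : ℝ) - 1) / s + 2 * ((j : ℝ) + (μ - 1) * (j + t) / s) / (s + 5)) -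
          5 / 3 * ((j : ℝ) - 1 + w) / D) +
      2 / 3 * (1 / (s : ℝ) - 1 / D) * (μ * ((s : ℝ) - w))) =
      (μ - w) * ((D + 6 - s - μ) / D) := by
      field_simp
      ring
    have h1 : 0 ≤ (μ - w : ℝ) * (((D : ℝ) + 6 - s - μ) / D) := by
      have h2 : (0 : ℝ) ≤ μ - w := by linarith
      have h3 : (μ : ℝ) ≤ D / 2 := by
        have h5 : 2 * (μ : ℝ) ≤ D := by exact_mod_cast hμD
        linarith
      have h4 : (0 : ℝ) ≤ (D : ℝ) + 6 - s - μ := by linarith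
      positivity
    linarith
  have hfin := final_eq D μ s j t hDr hsr
  have hle : NR D μ s j t / (3 * s * D * (s + 5)) ≤ 0 :=
    div_nonpos_of_nonpos_of_nonneg hN (by positivity)
  have e1 : (m : ℝ) * gg D s + t + al D * j - ((D : ℝ) - 2) / 3 =
      ((s - 1 - j - t) * ((2 * D + 2) / (3 * s) - 1) + t + (D - 2) / (3 * D) * j -
        ((D : ℝ) - 2) / 3) := by
    rw [hmr]
    rfl
  have e2 : ((D : ℝ) - s + 1) * al D = ((D : ℝ) - s + 1) * ((D - 2) / (3 * D)) := rfl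
  rw [e1, e2]
  linarith

/-- the small cases -/
theorem small (D μ s m j t w : ℕ) (hD : D = 9 ∨ D = 10) (hμ1 : 1 ≤ μ)
    (hμ : 25 * (2 * μ + 1) ^ 2 ≤ 64 * (D + 1)) (hm : m + j + t + 1 = s) (hs : 3 * s ≤ D) (hw : 1 ≤ w)
    (hwμ : w ≤ μ) (hwm : w ≤ m)
    (hpos : 0 < m * gg D s + t + al D * j - ((D : ℝ) - 2) / 3) :
    (m * gg D s + t + al D * j - ((D : ℝ) - 2) / 3) +
      (om D * ((D : ℝ) - s + 1) * ((j : ℝ) - 1 + w) +
        max 0 (ph D (min s (m + 2)) - om D) * (μ * ((j : ℝ) - 1 + w)) +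
        ph D s * (μ * ((s : ℝ) - w)) + μ * ((s : ℝ) - 2 - t) / D) ≤
    ((D : ℝ) - s + 1) * al D := by
  have hμ2 : μ = 1 ∨ μ = 2 := by
    have : μ < 3 := by
      by_contra hc
      push Not at hc
      have : 7 ^ 2 ≤ (2 * μ + 1) ^ 2 := Nat.pow_le_pow_left (by omega) 2
      omega
    omega
  have hcases : (s = 2 ∧ m = 1 ∧ j = 0 ∧ t = 0 ∧ w = 1) ∨ (s = 3 ∧ m = 2 ∧ j = 0 ∧ t = 0 ∧ w = 1) ∨
      (s = 3 ∧ m = 2 ∧ j = 0 ∧ t = 0 ∧ w = 2) ∨
      (s = 3 ∧ m = 1 ∧ j = 1 ∧ t = 0 ∧ w = 1) ∨ (s = 3 ∧ m = 1 ∧ j = 0 ∧ t = 1 ∧ w = 1) := by omega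
  rcases hcases with ⟨h1, h2, h3, h4, h5⟩ | ⟨h1, h2, h3, h4, h5⟩ | ⟨h1, h2, h3, h4, h5⟩ |
    ⟨h1, h2, h3, h4, h5⟩ | ⟨h1, h2, h3, h4, h5⟩ <;> subst h1 h2 h3 h4 h5 <;>
    rcases hD with h6 | h6 <;> subst h6 <;> rcases hμ2 with h7 | h7 <;> subst h7 <;>
    first
      | (norm_num [gg, al, om, ph] at hpos; done)
      | (norm_num at hwμ; done)
      | (norm_num [gg, al, om, ph]; done)

end FIA2

/-- Module FIA2 -/
theorem stFIA2 : ∀ D μ : ℕ, 9 ≤ D → 1 ≤ μ → 25 * (2 * μ + 1) ^ 2 ≤ 64 * (D + 1) → FIok D μ 0 := by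
  intro D μ hD hμ1 hμ s m j t w hm hs hw hwμ hwm hpos
  rw [add_zero]
  rcases Nat.lt_or_ge D 11 with h | h
  · exact FIA2.small D μ s m j t w (by omega) hμ1 hμ hm hs hw hwμ hwm hpos
  · have hs2 : 2 ≤ s := by omega
    apply FIA2.large2 D μ s m j t w (by omega) hμ1 _ _ hm hs hw hwμ hwm hpos
    · nlinarith
    · intro hyp
      rcases Nat.lt_or_ge D 143 with h1 | h1
      · have hμ10 : μ < 10 := by
          by_contra hc
          push Not at hc
          have : 21 ^ 2 ≤ (2 * μ + 1) ^ 2 := Nat.pow_le_pow_left (by omega) 2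
          omega
        exact FIA2.NR_le_of_vert D μ s j t hs2 hs
          (FIA2.vert_check D h1 μ hμ10 ⟨h, hμ1, hμ⟩ s (by omega)) hyp
      · have hDr : (143 : ℝ) ≤ D := by exact_mod_cast h1
        have hR : (Real.sqrt ((D : ℝ) + 1)) ^ 2 = (D : ℝ) + 1 := Real.sq_sqrt (by positivity)
        have hR12 : 12 ≤ Real.sqrt ((D : ℝ) + 1) := by
          apply Real.le_sqrt_of_sq_le
          linarith
        have hμr : 5 * (2 * (μ : ℝ) + 1) ≤ 8 * Real.sqrt ((D : ℝ) + 1) := by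
          have h2 : 25 * (2 * (μ : ℝ) + 1) ^ 2 ≤ 64 * ((D : ℝ) + 1) := by exact_mod_cast hμ
          have h3 : (5 * (2 * (μ : ℝ) + 1)) ^ 2 ≤ (8 * Real.sqrt ((D : ℝ) + 1)) ^ 2 := by
            rw [mul_pow, mul_pow, hR]
            linarith
          exact le_of_sq_le_sq h3 (by positivity)
        have hsr : (2 : ℝ) ≤ s := by exact_mod_cast hs2
        have hsDr : 3 * (s : ℝ) ≤ D := by exact_mod_cast hs
        have hμ1r : (1 : ℝ) ≤ μ := by exact_mod_cast hμ1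
        rcases le_or_gt (5 * ((μ : ℝ) + 1)) (4 * Real.sqrt ((D : ℝ) + 1)) with h2 | h2
        · exact FIA.main_real (Real.sqrt ((D : ℝ) + 1)) D μ s j t hR (by linarith) hμ1r h2 hsr hsDr
            (by positivity) (by positivity) hyp
        · exact FIA2.main_real2 (Real.sqrt ((D : ℝ) + 1)) D μ s j t hR hR12 (by linarith)
            (by linarith) hsr hsDr (by positivity) (by positivity) hyp

end Pool.Agent.Helper82.EC
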