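import Pool.Agent.Helper82.EC.M_FI2

/-!
# MP_47b98d_co : the numerical condition in the range up to `D / 6`
-/

set_option autoImplicit false

open Finset
open scoped Classical

namespace Pool.Agent.Helper82.EC

open FIx in
theorem stFIB : StFIB := by
  intro D μ hD9 hμ1 hμ6 s m j t w hs h3 hw1 hwμ hwm hpos
  have hk := two_k D s m j t hs h3 hpos
  rcases Nat.lt_or_ge D 10 with hDs | hDs
  · -- D = 9
    have hD : D = 9 := by omega
    have hs3 : s = 3 := by omega
    have hj : j = 0 := by omega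
    have ht : t = 0 := by omega
    have hm : m = 2 := by omega
    subst hD hs3 hj ht hm
    have hmax : max 0 (ph 9 (min 3 (2 + 2)) - om 9) = 0 := by
      have : ph 9 (min 3 (2 + 2)) - om 9 = 0 := by
        unfold ph om gg al
        norm_num
      rw [this, max_self]
    rw [hmax]
    have hww : (w = 1 ∧ μ = 1) ∨ (w = 1 ∧ μ = 2) ∨ (w = 2 ∧ μ = 2) := by omega
    unfold ph om gg al
    rcases hww with ⟨rfl, rfl⟩ | ⟨rfl, rfl⟩ | ⟨rfl, rfl⟩ <;> norm_num
  · refine master D μ μ hDs s m j t w hs h3 hw1 hwm hwμ hk ?_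
    have hs3 : (3:ℝ) ≤ s := by exact_mod_cast (by omega : 3 ≤ s)
    have hs0 : (0:ℝ) < s := by linarith
    have hD3 : 3 * (s : ℝ) ≤ D := by exact_mod_cast h3
    have hD10 : (10:ℝ) ≤ D := by exact_mod_cast hDs
    have hD0 : (0:ℝ) < D := by linarith
    have hj0 : (0:ℝ) ≤ j := by positivity
    have ht0 : (0:ℝ) ≤ t := by positivity
    have hk' : 2 * ((j : ℝ) + t) + 3 ≤ s := by exact_mod_cast hk
    have hw1' : (1:ℝ) ≤ w := by exact_mod_cast hw1
    have hwμ' : (w:ℝ) ≤ μ := by exact_mod_cast hwμ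
    have hwm' : (w:ℝ) ≤ m := by exact_mod_cast hwm
    have hμ6' : 6 * (μ : ℝ) ≤ D + 4 := by exact_mod_cast hμ6
    have hm : (m : ℝ) = s - 1 - j - t := by
      have : (m : ℝ) + j + t + 1 = s := by exact_mod_cast hs
      linarith
    have hμ0 : (0:ℝ) ≤ μ := by positivity
    have hμD : (μ : ℝ) ≤ D := by linarith
    rcases Nat.eq_zero_or_pos (j + t) with h0 | h0
    · -- k = 0
      have hj : j = 0 := by omega
      have ht : t = 0 := by omega
      subst hj ht
      have hmin : min s (m + 2) = s := by omega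
      rw [hmin]
      unfold L3 C3
      push_cast at hm ⊢
      have e : (D : ℝ) * (2 * ((s : ℝ) - 1) - 0 + 3 + 6 * (((D : ℝ) + 1) / 3 - s) * (1 + 0 + 0) / s -
          2 * μ - 3 * w - 2 * μ * (0 - 1 + w) / s + 2 * μ * w / s + 3 * μ) +
          (2 * ((s : ℝ) - 1 + 0) + 3 * ((s : ℝ) - 6) * (0 - 1 + w) +
            μ * (5 * 0 + 3 * w + 3 * 0 + 1 - s)) =
          (D : ℝ) * ((6 * (((D : ℝ) + 1) / 3 - s) + 2 * μ) / s) + D * (μ - w) +
            (D - μ) * (m - w) + D * (m - w) + 3 * D + 2 * (s - 1) + 3 * (s - 6) * (w - 1) +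
            2 * μ * w := by
        rw [hm]
        field_simp
        ring
      rw [e]
      have p1 : 0 ≤ (D : ℝ) * ((6 * (((D : ℝ) + 1) / 3 - s) + 2 * μ) / s) := by
        apply mul_nonneg hD0.le
        apply div_nonneg _ hs0.le
        linarith
      have p2 : 0 ≤ (D : ℝ) * (μ - w) := mul_nonneg hD0.le (by linarith)
      have p3 : 0 ≤ ((D : ℝ) - μ) * (m - w) := mul_nonneg (by linarith) (by linarith)
      have p4 : 0 ≤ (D : ℝ) * (m - w) := mul_nonneg hD0.le (by linarith)
      have p5 : -12 ≤ 3 * ((s : ℝ) - 6) * (w - 1) := by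
        have : 0 ≤ ((s : ℝ) - 1 - w) * (w - 1) := mul_nonneg (by linarith) (by linarith)
        nlinarith [sq_nonneg ((w : ℝ) - 3)]
      have p6 : 0 ≤ 2 * (μ : ℝ) * w := by positivity
      linarith
    · -- k ≥ 1
      have hmin : min s (m + 2) = m + 2 := by omega
      rw [hmin]
      have hc : ((m + 2 : ℕ) : ℝ) = s + 1 - (j + t) := by
        push_cast
        linarith
      rw [hc]
      have hk1 : (1:ℝ) ≤ (j : ℝ) + t := by exact_mod_cast h0
      obtain ⟨h, hh⟩ : ∃ h : ℝ, h = ((D : ℝ) + 1) / 3 - s := ⟨_, rfl⟩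
      have hh3 : 1 / 3 ≤ h := by rw [hh]; linarith
      have hDh : (D : ℝ) = 3 * (h + s) - 1 := by rw [hh]; ring
      obtain ⟨c, hcc⟩ : ∃ c : ℝ, c = (s : ℝ) + 1 - (j + t) := ⟨_, rfl⟩
      have hc0 : 0 < c := by rw [hcc]; linarith
      have hcw : (w : ℝ) ≤ c := by rw [hcc]; linarith
      have hcs : (s : ℝ) ≤ 2 * c := by rw [hcc]; linarith
      rw [← hcc]
      have hfrac : ((j : ℝ) - 1 + w) / c - w / s ≤ (3 * j + t - 1) / s := by
        rw [div_sub_div _ _ hc0.ne' hs0.ne', div_le_div_iff₀ (by positivity) hs0]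
        have e1 : ((j : ℝ) - 1 + w) * s - c * w = s * (j - 1) + w * (j + t - 1) := by
          rw [hcc]; ring
        rw [e1]
        have h1 : (s : ℝ) * (j - 1) + w * (j + t - 1) ≤ c * (3 * j + t - 1) := by
          have h2 : (w : ℝ) * (j + t - 1) ≤ c * (j + t - 1) :=
            mul_le_mul_of_nonneg_right hcw (by linarith)
          have h3 : (s : ℝ) * j ≤ 2 * c * j := mul_le_mul_of_nonneg_right hcs hj0
          nlinarith
        calc ((s : ℝ) * (j - 1) + w * (j + t - 1)) * s ≤ (c * (3 * j + t - 1)) * s :=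
              mul_le_mul_of_nonneg_right h1 hs0.le
          _ = (3 * (j : ℝ) + t - 1) * (c * s) := by ring
      have h3jt : (0:ℝ) ≤ 3 * j + t - 1 := by linarith
      have hneg : 2 * (μ : ℝ) * (j - 1 + w) / c - 2 * μ * w / s ≤
          (h + s + 1) * ((3 * j + t - 1) / s) := by
        have e1 : 2 * (μ : ℝ) * (j - 1 + w) / c - 2 * μ * w / s =
            2 * μ * (((j : ℝ) - 1 + w) / c - w / s) := by ring
        rw [e1]
        have h1 : 2 * (μ : ℝ) * (((j : ℝ) - 1 + w) / c - w / s) ≤
            2 * μ * ((3 * j + t - 1) / s) := mul_le_mul_of_nonneg_left hfrac (by positivity)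
        have h2 : 2 * (μ : ℝ) * ((3 * j + t - 1) / s) ≤ (h + s + 1) * ((3 * j + t - 1) / s) := by
          apply mul_le_mul_of_nonneg_right _ (by positivity)
          rw [hh]; linarith
        exact h1.trans h2
      -- lower bound for L3
      have hL : 2 * ((m : ℝ) - w) - 2 * j + 5 / 2 + 3 * j * h / s ≤
          L3 D μ s j t w c μ := by
        have e1 : L3 D μ s j t w c μ = 2 * (m - w) + (μ - w) + (j + 2 * t) + 3 +
            6 * h * (1 + j + t) / s - (2 * (μ : ℝ) * (j - 1 + w) / c - 2 * μ * w / s) := by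
          unfold L3
          rw [hm, hh]
          ring
        rw [e1]
        have e2 : (h + s + 1) * ((3 * j + t - 1) / s) =
            (3 * j + t - 1) + h * (3 * j + t - 1) / s + (3 * (j : ℝ) + t - 1) / s := by
          field_simp
          ring
        rw [e2] at hneg
        have h1 : (3 * (j : ℝ) + t - 1) / s ≤ 3 / 2 := by
          rw [div_le_iff₀ hs0]
          linarith
        have h2 : 3 * j * h / s + h * (3 * j + t - 1) / s ≤ 6 * h * (1 + j + t) / s := by
          rw [← add_div]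
          apply div_le_div_of_nonneg_right _ hs0.le
          have : 0 ≤ h * t := by positivity
          nlinarith
        linarith
      have hDL : (D : ℝ) * (2 * ((m : ℝ) - w) - 2 * j + 5 / 2) + 9 * j * h ≤
          D * L3 D μ s j t w c μ := by
        have h1 := mul_le_mul_of_nonneg_left hL hD0.le
        have h2 : 9 * j * h ≤ (D : ℝ) * (3 * j * h / s) := by
          have : (D : ℝ) * (3 * j * h / s) = 3 * j * h * (D / s) := by ring
          rw [this]
          have h3 : (3:ℝ) ≤ D / s := by rw [le_div_iff₀ hs0]; exact hD3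
          have h4 : 0 ≤ 3 * j * h := by positivity
          nlinarith
        linarith
      have hC : C3 μ s j t w = 2 * (s - 1 + j) + 3 * (s - 6) * (j - 1 + w) +
          μ * (2 * w + 4 * j + 2 * t - (m - w)) := by
        unfold C3
        rw [hm]
        ring
      rw [hC]
      have hmw : 0 ≤ (m : ℝ) - w := by linarith
      have q1 : (μ : ℝ) * (m - w) ≤ D * (m - w) := mul_le_mul_of_nonneg_right hμD hmw
      have q2 : 3 * (s : ℝ) * (m - w) ≤ D * (m - w) := mul_le_mul_of_nonneg_right hD3 hmw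
      have q3 : (w : ℝ) * (2 * w + 4 * j) ≤ μ * (2 * w + 4 * j) :=
        mul_le_mul_of_nonneg_right hwμ' (by positivity)
      have q4 : 0 ≤ (μ : ℝ) * (2 * t) := by positivity
      have q5 : (D : ℝ) * j = 3 * (h * j) + 3 * (s * j) - j := by rw [hDh]; ring
      have q6 : 0 ≤ h * j := by positivity
      have q7 : 3 * (s : ℝ) ≤ 3 * (s * (m - j - 1)) := by
        have : (1:ℝ) ≤ m - j - 1 := by rw [hm]; linarith
        nlinarith
      have q8 : 0 ≤ (w : ℝ) * j := by positivity
      have q9 := sq_nonneg ((w : ℝ) - 9 / 2)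
      nlinarith

end Pool.Agent.Helper82.EC
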