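import Pool.Agent.Helper82.EC.Defs

/-!
# MP_47b98d_co : statements of the modules
-/

set_option autoImplicit false

open Finset
open scoped Classical

namespace Pool.Agent.Helper82.EC

open MGraph

/-! ## Part A: Kempe changes -/

/-- The outcome of Part A for an edge `e` with ends `x`, `y`: a set `F` of edges at `y` (the edges
whose colours are missing at `x`). -/
structure Fan {V E : Type} [Fintype V] [Fintype E] (G : MGraph V E) (D : ℕ) (e : E) (x y : V)
    (F : Finset E) : Prop where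
  sub : F ⊆ G.inc y
  card_eq : F.card + G.deg x = D + 1
  not_mem : e ∉ F
  opp_ne : ∀ f ∈ F, G.opp y f ≠ x
  sum_le : ∑ v ∈ F.image (G.opp y), (D - G.deg v) + D + 2 ≤ G.deg x + G.deg y
  cnt : ∀ P : Finset V, y ∉ P → (∀ p ∈ P, G.deg x + G.deg p ≤ D) →
    ∀ v ∈ F.image (G.opp y),
      G.degTo v (P.erase x) + G.degTo y (P.erase x) + D + 2 ≤ G.deg x + G.deg y
  cntS : ∀ P S : Finset V, S ⊆ P → y ∉ P → (∀ p ∈ P, G.deg x + G.deg p ≤ D) →
    (∀ p ∈ S, ∀ q ∈ S, G.deg x + G.deg p + G.deg q + 2 ≤ D) →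
      ∑ v ∈ F.image (G.opp y), G.degTo v (S.erase x) + G.degTo y (P.erase x) + D + 2 ≤
        G.deg x + G.deg y
  two : ∀ z ∈ F.image (G.opp y), ∃ F2 : Finset E, F2 ⊆ G.inc y ∧ F2.card + G.deg z = D ∧
    Disjoint F F2 ∧ e ∉ F2 ∧ ∀ f ∈ F2, G.opp y f ≠ x → G.opp y f ≠ z →
      (D - G.deg (G.opp y f)) + (D - G.deg z) + D + 2 ≤ G.deg x + G.deg y

/-- the properties of a critical graph that are used -/
structure CritG {V E : Type} [Fintype V] [Fintype E] (G : MGraph V E) (D : ℕ) : Prop where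
  deg_le : ∀ v, G.deg v ≤ D
  deg_pos : ∀ v, 0 < G.deg v
  nocol : G.NoCol D
  col : ∀ e, ∃ φ : E → Option (Fin D), G.Proper φ ∧ φ e = none ∧ ∀ f, f ≠ e → φ f ≠ none

/-- Part A -/
def StFan : Prop := ∀ (V E : Type) [Fintype V] [Fintype E] (G : MGraph V E) (D : ℕ),
  CritG G D → ∀ e x y, G.ends e = s(x, y) → ∃ F, Fan G D e x y F

/-! ## Part B: discharging -/

/-- `(D - 2) / (3 D)` -/
noncomputable def al (D : ℕ) : ℝ := ((D : ℝ) - 2) / (3 * D)

/-- what a small vertex of degree `k` asks on each of its edges -/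
noncomputable def gg (D k : ℕ) : ℝ := (2 * (D : ℝ) + 2) / (3 * k) - 1

/-- the payment of a vertex of degree `du` to an adjacent vertex of degree `dp`, per edge: `0` unless
the first is rich (`2 D + 2 ≤ 3 du`) and the second is poor -/
noncomputable def pay (D du dp : ℕ) : ℝ :=
  if 2 * D + 2 ≤ 3 * du ∧ 3 * dp < 2 * D + 2 then
    if 3 * dp ≤ D then gg D dp
    else (((D : ℝ) - 2) / 3 - ((D : ℝ) - du)) / ((dp : ℝ) - 1 - ((D : ℝ) - du))
  else 0

/-- `(gg k - al) / (D - k + 1)` -/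
noncomputable def ph (D k : ℕ) : ℝ := (gg D k - al D) / ((D : ℝ) - k + 1)

/-- bound for the loss per edge to a poor vertex that is not strictly small -/
noncomputable def om (D : ℕ) : ℝ := if D = 9 then 26 / 189 else (1 + 5 / (D : ℝ)) / D

/-- a graph with fans, together with a choice of an edge `ee u` joining each vertex `u` to a
neighbour `xx u` of minimum degree, and of a fan `FF u` for this edge -/
structure Data {V E : Type} [Fintype V] [Fintype E] (G : MGraph V E) (D μ : ℕ) where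
  deg_le : ∀ v, G.deg v ≤ D
  mult_le : ∀ u v, G.mult u v ≤ μ
  anyfan : ∀ e x y, G.ends e = s(x, y) → ∃ F, Fan G D e x y F
  xx : V → V
  ee : V → E
  FF : V → Finset E
  ends_eq : ∀ u, G.ends (ee u) = s(xx u, u)
  min_deg : ∀ u, ∀ f ∈ G.inc u, G.deg (xx u) ≤ G.deg (G.opp u f)
  fan : ∀ u, Fan G D (ee u) (xx u) u (FF u)

namespace Data

variable {V E : Type} [Fintype V] [Fintype E] {G : MGraph V E} {D μ : ℕ} (dt : Data G D μ)

/-- rich vertices -/
def Rich (_ : Data G D μ) (u : V) : Prop := 2 * D + 2 ≤ 3 * G.deg u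

/-- `u` has a small neighbour -/
def Sm (u : V) : Prop := 3 * G.deg (dt.xx u) ≤ D

/-- total payment of `u` -/
noncomputable def Q (_ : Data G D μ) (u : V) : ℝ :=
  ∑ f ∈ G.inc u, pay D (G.deg u) (G.deg (G.opp u f))

/-- number of edges at `u` to poor vertices -/
noncomputable def mm (u : V) : ℕ := ((G.inc u).filter fun f => ¬ dt.Rich (G.opp u f)).card

/-- number of edges at `u` to rich vertices that are not in the fan -/
noncomputable def jj (u : V) : ℕ :=
  ((G.inc u).filter fun f => f ∉ dt.FF u ∧ dt.Rich (G.opp u f)).card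

/-- poor vertices different from `x` -/
noncomputable def P0 (_ : Data G D μ) : Finset V := univ.filter fun p => 3 * G.deg p < 2 * D + 2

/-- strictly small vertices -/
noncomputable def S0 (_ : Data G D μ) : Finset V := univ.filter fun p => 3 * G.deg p + 2 ≤ D

/-- what `u` has left after its payments and after the reserve `al D` for each of its rich edges
outside the fan (the reserve is only made by vertices with a small neighbour) -/
noncomputable def spare (u : V) : ℝ :=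
  ((D : ℝ) - 2) / 3 - (dt.Q u + ((D : ℝ) - G.deg u)) - if dt.Sm u then al D * dt.jj u else 0

/-- what `u` gives on each edge of its fan (on each of its edges if it has no small neighbour) -/
noncomputable def kap (u : V) : ℝ :=
  if dt.Sm u then max 0 (dt.spare u) / ((D : ℝ) - G.deg (dt.xx u) + 1) else dt.spare u / D

/-- what the vertex `w` gets over the edge `f ∈ FF w` -/
noncomputable def tau (w : V) (f : E) : ℝ :=
  if dt.Sm (G.opp w f) ∧ f ∉ dt.FF (G.opp w f) then al D else dt.kap (G.opp w f)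

end Data

/-- double counting -/
def StDart : Prop := ∀ (V E : Type) [Fintype V] [Fintype E] (G : MGraph V E) (q : V → E → ℝ),
  ∑ v, ∑ f ∈ G.inc v, q v f = ∑ v, ∑ f ∈ G.inc v, q (G.opp v f) f

/-- every poor vertex receives enough -/
def StRec : Prop := ∀ (V E : Type) [Fintype V] [Fintype E] (G : MGraph V E) (D μ : ℕ)
  (_ : Data G D μ), 2 ≤ D → ∀ p : V, 3 * G.deg p < 2 * D + 2 →
    (2 * (D : ℝ) + 2) / 3 - G.deg p ≤ ∑ f ∈ G.inc p, pay D (G.deg (G.opp p f)) (G.deg p)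

/-- a rich vertex without small neighbours can pay (needs a bound on the multiplicity) -/
def StMp : Prop := ∀ (V E : Type) [Fintype V] [Fintype E] (G : MGraph V E) (D μ : ℕ)
  (dt : Data G D μ), 2 ≤ D → 6 * μ ≤ D + 4 → ∀ u : V, dt.Rich u → ¬ dt.Sm u →
    dt.Q u + ((D : ℝ) - G.deg u) ≤ ((D : ℝ) - 2) / 3

/-- counts at a rich vertex `w` with a small neighbour -/
def StAc : Prop := ∀ (V E : Type) [Fintype V] [Fintype E] (G : MGraph V E) (D μ : ℕ)
  (dt : Data G D μ), 2 ≤ D → ∀ w : V, dt.Rich w → dt.Sm w →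
    (∀ f ∈ dt.FF w, dt.Rich (G.opp w f)) ∧
    dt.mm w + dt.jj w + (D - G.deg w) + 1 = G.deg (dt.xx w) ∧
    1 ≤ G.mult (dt.xx w) w ∧ G.mult (dt.xx w) w ≤ dt.mm w ∧
    (∀ v ∈ (dt.FF w).image (G.opp w),
      G.degTo v (dt.P0.erase (dt.xx w)) + 1 ≤ dt.jj w + G.mult (dt.xx w) w) ∧
    ∑ v ∈ (dt.FF w).image (G.opp w), G.degTo v (dt.S0.erase (dt.xx w)) + 1 ≤
      dt.jj w + G.mult (dt.xx w) w ∧
    ∑ v ∈ (dt.FF w).image (G.opp w), G.mult (dt.xx w) v + G.mult (dt.xx w) w ≤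
      G.deg (dt.xx w) ∧
    ∑ v ∈ (dt.FF w).image (G.opp w), (D - G.deg v) + 2 + (D - G.deg w) ≤ G.deg (dt.xx w) ∧
    (∀ v ∈ (dt.FF w).image (G.opp w), G.deg (dt.xx w) < G.deg (dt.xx v) →
      dt.mm v + 2 ≤ G.deg (dt.xx w))

/-- the loss on one edge `f ∈ FF w`, `u = opp w f` -/
def StLoss : Prop := ∀ (V E : Type) [Fintype V] [Fintype E] (G : MGraph V E) (D μ : ℕ)
  (dt : Data G D μ), 9 ≤ D → 6 * μ ≤ D + 4 → ∀ w : V, dt.Rich w → dt.Sm w → ∀ f ∈ dt.FF w,
    al D - dt.tau w f ≤ om D * G.degTo (G.opp w f) (dt.P0.erase (dt.xx w)) +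
      max 0 (ph D (min (G.deg (dt.xx w)) (dt.mm w + 2)) - om D) *
        G.degTo (G.opp w f) (dt.S0.erase (dt.xx w)) +
      ph D (G.deg (dt.xx w)) * G.mult (dt.xx w) (G.opp w f) +
      ((D : ℝ) - G.deg (G.opp w f)) / D

/-- the numerical condition: `X` suffices for graphs with multiplicity `μ` -/
def FIok (D μ : ℕ) (X : ℝ) : Prop := ∀ s m j t w : ℕ, m + j + t + 1 = s → 3 * s ≤ D → 1 ≤ w →
  w ≤ μ → w ≤ m → 0 < m * gg D s + t + al D * j - ((D : ℝ) - 2) / 3 →
    (m * gg D s + t + al D * j - ((D : ℝ) - 2) / 3) +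
      (om D * ((D : ℝ) - s + 1) * ((j : ℝ) - 1 + w) +
        max 0 (ph D (min s (m + 2)) - om D) * (μ * ((j : ℝ) - 1 + w)) +
        ph D s * (μ * ((s : ℝ) - w)) + μ * ((s : ℝ) - 2 - t) / D) ≤
    ((D : ℝ) - s + 1) * al D + X

/-- a rich vertex with a small neighbour ends with at least `- X` -/
def StDebt : Prop := ∀ (V E : Type) [Fintype V] [Fintype E] (G : MGraph V E) (D μ : ℕ)
  (dt : Data G D μ) (X : ℝ), 9 ≤ D → 6 * μ ≤ D + 4 → FIok D μ X → ∀ w : V, dt.Rich w → dt.Sm w →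
    dt.spare w < 0 → -X ≤ dt.spare w + ∑ f ∈ dt.FF w, dt.tau w f

/-- the whole discharging -/
def StSum : Prop := ∀ (V E : Type) [Fintype V] [Fintype E] (G : MGraph V E) (D μ : ℕ)
  (_ : Data G D μ) (X : ℝ), 9 ≤ D → 6 * μ ≤ D + 4 → 0 ≤ X → FIok D μ X →
    - (X * Fintype.card V) ≤ ∑ v : V, ((G.deg v : ℝ) - (2 * (D : ℝ) + 2) / 3)

/-! ## the numerical conditions -/

/-- exact range -/
def StFIA : Prop := ∀ D μ : ℕ, 9 ≤ D → 1 ≤ μ → 25 * (μ + 1) ^ 2 ≤ 16 * (D + 1) → FIok D μ 0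

/-- multiplicity 2 -/
def StFI2 : Prop := ∀ D : ℕ, 9 ≤ D → FIok D 2 0

/-- the range up to `D / 6` -/
def StFIB : Prop := ∀ D μ : ℕ, 9 ≤ D → 1 ≤ μ → 6 * μ ≤ D + 4 → FIok D μ μ

end Pool.Agent.Helper82.EC
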