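import Pool.Agent.Helper82.EC.St
import Pool.Agent.Helper82.EC.Basic

/-!
# MP_47b98d_co : statements of the modules of Part A (Kempe changes)
-/

set_option autoImplicit false

open Finset
open scoped Classical

namespace Pool.Agent.Helper82.EC

open MGraph

/-- three different vertices of one Kempe component cannot all miss one of the two colours -/
def StEnd : Prop := ∀ (V E : Type) [Fintype V] (G : MGraph V E) (D : ℕ)
  (φ : E → Option (Fin D)) (a b : Fin D), G.Proper φ → ∀ u₁ u₂ u₃ : V, u₁ ≠ u₂ → u₁ ≠ u₃ →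
    u₂ ≠ u₃ → (G.KG φ a b).Reachable u₁ u₂ → (G.KG φ a b).Reachable u₁ u₃ →
    (G.Miss φ u₁ a ∨ G.Miss φ u₁ b) → (G.Miss φ u₂ a ∨ G.Miss φ u₂ b) →
    (G.Miss φ u₃ a ∨ G.Miss φ u₃ b) → False

/-- the number of missing colours -/
def StCard : Prop := ∀ (V E : Type) [Fintype V] [Fintype E] (G : MGraph V E) (D : ℕ)
  (φ : E → Option (Fin D)) (e : E) (x y : V), G.Crit D φ e x y →
    (G.miss φ x).card + G.deg x = D + 1 ∧ (G.miss φ y).card + G.deg y = D + 1 ∧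
    ∀ v, v ≠ x → v ≠ y → (G.miss φ v).card + G.deg v = D

/-- first neighbours in the fan: `yv` has a colour missing at `x` -/
def StF1 : Prop := ∀ (V E : Type) [Fintype V] [Fintype E] (G : MGraph V E) (D : ℕ)
  (φ : E → Option (Fin D)) (e : E) (x y : V), G.Crit D φ e x y → G.deg y ≤ D →
    ∀ (β : Fin D) (f : E) (v : V), G.Miss φ x β → G.ends f = s(y, v) → φ f = some β →
      ∀ c, G.Miss φ v c → ¬ G.Miss φ x c ∧ ¬ G.Miss φ y c

/-- `y` and a first neighbour `v` are linked -/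
def StFL : Prop := ∀ (V E : Type) [Fintype V] (G : MGraph V E) (D : ℕ)
  (φ : E → Option (Fin D)) (e : E) (x y : V), G.Crit D φ e x y →
    ∀ (β : Fin D) (f : E) (v : V), G.Miss φ x β → G.ends f = s(y, v) → φ f = some β →
      ∀ c α, G.Miss φ v c → G.Miss φ y α → (G.KG φ α c).Reachable y v

/-- two different first neighbours have no common missing colour -/
def StFD : Prop := ∀ (V E : Type) [Fintype V] [Fintype E] (G : MGraph V E) (D : ℕ)
  (φ : E → Option (Fin D)) (e : E) (x y : V), G.Crit D φ e x y → G.deg y ≤ D →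
    ∀ (β₁ β₂ : Fin D) (f₁ f₂ : E) (v₁ v₂ : V), v₁ ≠ v₂ → G.Miss φ x β₁ → G.Miss φ x β₂ →
      G.ends f₁ = s(y, v₁) → G.ends f₂ = s(y, v₂) → φ f₁ = some β₁ → φ f₂ = some β₂ →
      ∀ c, G.Miss φ v₁ c → ¬ G.Miss φ v₂ c

/-- second neighbours in the fan: `yz` has a colour missing at `x`, `yu` a colour missing at `z` -/
def StF2 : Prop := ∀ (V E : Type) [Fintype V] [Fintype E] (G : MGraph V E) (D : ℕ)
  (φ : E → Option (Fin D)) (e : E) (x y : V), G.Crit D φ e x y → G.deg y ≤ D →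
    ∀ (β c : Fin D) (f g : E) (z u : V), G.Miss φ x β → G.ends f = s(y, z) → φ f = some β →
      G.Miss φ z c → G.ends g = s(y, u) → φ g = some c → u ≠ x → u ≠ z →
      ∀ c', G.Miss φ u c' → ¬ G.Miss φ x c' ∧ ¬ G.Miss φ y c' ∧ ¬ G.Miss φ z c'

/-- Lemma K -/
def StK : Prop := ∀ (V E : Type) [Fintype V] [Fintype E] (G : MGraph V E) (D : ℕ)
  (φ : E → Option (Fin D)) (e : E) (x y : V), G.Crit D φ e x y → G.deg y ≤ D →
    ∀ (β τ : Fin D) (f g : E) (v w : V), G.Miss φ x β → G.ends f = s(y, v) → φ f = some β →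
      G.ends g = s(v, w) → φ g = some τ → w ≠ x → w ≠ y → (G.Miss φ x τ ∨ G.Miss φ y τ) →
      ∀ δ₁ δ₂, δ₁ ≠ δ₂ → G.Miss φ w δ₁ → G.Miss φ w δ₂ → (G.Miss φ x δ₁ ∨ G.Miss φ y δ₁) →
        (G.Miss φ x δ₂ ∨ G.Miss φ y δ₂) → False

/-- Lemma K, degree form -/
def StKd : Prop := ∀ (V E : Type) [Fintype V] [Fintype E] (G : MGraph V E) (D : ℕ)
  (φ : E → Option (Fin D)) (e : E) (x y : V), G.Crit D φ e x y → G.deg y ≤ D →
    ∀ (β τ : Fin D) (f g : E) (v w : V), G.Miss φ x β → G.ends f = s(y, v) → φ f = some β →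
      G.ends g = s(v, w) → φ g = some τ → w ≠ x → w ≠ y → G.deg x + G.deg y + G.deg w ≤ 2 * D →
      ¬ G.Miss φ x τ ∧ ¬ G.Miss φ y τ

/-- Lemma T -/
def StT : Prop := ∀ (V E : Type) [Fintype V] [Fintype E] (G : MGraph V E) (D : ℕ)
  (φ : E → Option (Fin D)) (e : E) (x y : V), G.Crit D φ e x y → G.deg y ≤ D →
    ∀ (β τ : Fin D) (f g k : E) (v w w' : V), G.Miss φ x β → G.ends f = s(y, v) → φ f = some β →
      G.ends k = s(y, w') → φ k = some τ → w' ≠ x → G.ends g = s(v, w) → φ g = some τ →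
      w ≠ x → w ≠ y → G.deg x + G.deg w' ≤ D → G.deg x + G.deg y + G.deg w ≤ 2 * D → False

/-- Lemma U -/
def StU : Prop := ∀ (V E : Type) [Fintype V] [Fintype E] (G : MGraph V E) (D : ℕ)
  (φ : E → Option (Fin D)) (e : E) (x y : V), G.Crit D φ e x y → G.deg y ≤ D →
    ∀ (β₁ β₂ c : Fin D) (f₁ f₂ g₁ g₂ : E) (v₁ v₂ w₁ w₂ : V), v₁ ≠ v₂ → G.Miss φ x β₁ →
      G.Miss φ x β₂ → G.ends f₁ = s(y, v₁) → G.ends f₂ = s(y, v₂) → φ f₁ = some β₁ →
      φ f₂ = some β₂ → G.ends g₁ = s(v₁, w₁) → G.ends g₂ = s(v₂, w₂) → φ g₁ = some c →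
      φ g₂ = some c → w₁ ≠ x → w₁ ≠ y → w₂ ≠ x → w₂ ≠ y →
      G.deg x + G.deg w₁ + G.deg w₂ + 2 ≤ D → False

end Pool.Agent.Helper82.EC
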